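import Pool.Agent.Lib.MP_688fd0_co.SQ3.H98.KA
import Pool.Agent.Lib.MP_688fd0_co.SQ3.V.Real0
import Pool.Agent.Lib.MP_688fd0_co.SQ3.V.FlipE

/-!
Chapter V, type C1: short flips, FLIP A, FLIP B, REAL A, REAL B with one-sided reachability: it is enough that the states
reachable from `st₁ f` lead back to `st₁ f`.
-/

set_option autoImplicit false

namespace Pool.Agent.Lib.MP_688fd0_co.SQ2.V

open Puz

/-- SHORT: short flips, if the states reachable from `s` lead back to `s`. -/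
theorem shortK (S R Tok F : Type) [Fintype S] [DecidableEq S] [Fintype R] [Fintype Tok] [CommRing F]
    (P : Puz S R) (V : R → F) (θ : R → S → F) (d : Tok → F) (s s' : St S R Tok)
    (hsym : ∀ t : St S R Tok, P.WReach s t → P.WReach t s)
    (hex : ∃ l l' : List (R × S), P.Ok s l ∧ P.go s l = s' ∧ P.Ok s l' ∧ P.go s l' = s' ∧
      P.wcost V θ d s l ≠ P.wcost V θ d s l') :
    ∃ l l' : List (R × S), P.Ok s l ∧ P.go s l = s' ∧ P.Ok s l' ∧ P.go s l' = s' ∧
      P.wcost V θ d s l ≠ P.wcost V θ d s l' ∧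
      l.length ≤ 2 * (Nat.card R * Nat.card S ^ Nat.card Tok) + 1 ∧
      l'.length ≤ 2 * (Nat.card R * Nat.card S ^ Nat.card Tok) + 1 := by
  set N := Nat.card R * Nat.card S ^ Nat.card Tok with hN
  by_contra hcon
  push Not at hcon
  have heq : ∀ l l' : List (R × S), P.Ok s l → P.go s l = s' → P.Ok s l' → P.go s l' = s' →
      l.length ≤ 2 * N + 1 → l'.length ≤ 2 * N + 1 → P.wcost V θ d s l = P.wcost V θ d s l' := by
    intro l l' h1 h2 h3 h4 h5 h6
    by_contra hne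
    have := hcon l l' h1 h2 h3 h4 hne h5
    omega
  obtain ⟨w, w', hw1, hw2, hw1', hw2', hne⟩ := hex
  have hss' : P.WReach s s' := ⟨w, hw1, hw2⟩
  -- short walks from `s`
  have hA : ∀ t : St S R Tok, P.WReach s t → P.WReachN N s t := fun t ht => shortR S R Tok P s t ht
  have hB : ∀ t : St S R Tok, P.WReach s t → P.WReachN N t s' :=
    fun t ht => shortR S R Tok P t s' ((hsym t ht).trans hss')
  choose a ha1 ha2 ha3 using hA
  choose b hb1 hb2 hb3 using hB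
  -- the potential
  have hpot : ∀ (t : St S R Tok) (ht : P.WReach s t) (r' : R) (v : S) (hadj : P.Adj t.1 r' v)
      (ht' : P.WReach s (P.step r' v t)),
      P.wcost V θ d s (a t ht) + P.scost V θ d t r' v = P.wcost V θ d s (a _ ht') := by
    intro t ht r' v hadj ht'
    set t' := P.step r' v t with ht'def
    have e1 : P.Ok s (a t ht ++ ([(r', v)] ++ b t' ht')) := by
      refine ok_append.2 ⟨ha2 t ht, ?_⟩
      rw [ha3 t ht]
      exact ok_append.2 ⟨⟨hadj, trivial⟩, hb2 t' ht'⟩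
    have e2 : P.go s (a t ht ++ ([(r', v)] ++ b t' ht')) = s' := by
      rw [go_append, ha3 t ht, go_append]
      exact hb3 t' ht'
    have e3 : P.Ok s (a t' ht' ++ b t' ht') := by
      refine ok_append.2 ⟨ha2 t' ht', ?_⟩
      rw [ha3 t' ht']
      exact hb2 t' ht'
    have e4 : P.go s (a t' ht' ++ b t' ht') = s' := by
      rw [go_append, ha3 t' ht']
      exact hb3 t' ht'
    have e5 := heq _ _ e1 e2 e3 e4
      (by
        have h1 := ha1 t ht
        have h2 := hb1 t' ht'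
        rw [List.length_append, List.length_append, List.length_singleton]
        omega)
      (by
        have h1 := ha1 t' ht'
        have h2 := hb1 t' ht'
        rw [List.length_append]
        omega)
    rw [wcost_append, wcost_append, wcost_append, ha3 t ht, ha3 t' ht'] at e5
    have e6 : P.go t [(r', v)] = t' := rfl
    have e7 : P.wcost V θ d t [(r', v)] = P.scost V θ d t r' v := by simp [wcost]
    rw [e6, e7, ← add_assoc] at e5
    exact add_right_cancel e5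
  -- telescoping
  have htel : ∀ (l : List (R × S)) (t : St S R Tok) (ht : P.WReach s t) (ht' : P.WReach s (P.go t l)),
      P.Ok t l → P.wcost V θ d s (a t ht) + P.wcost V θ d t l = P.wcost V θ d s (a _ ht') := by
    intro l
    induction l with
    | nil =>
      intro t ht ht' _
      simp [wcost, go]
    | cons p l ih =>
      intro t ht ht' hok
      have hstep : P.WReach s (P.step p.1 p.2 t) := ht.trans (WReach.step hok.1)
      have h1 := hpot t ht p.1 p.2 hok.1 hstep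
      have h2 := ih (P.step p.1 p.2 t) hstep ht' hok.2
      show P.wcost V θ d s (a t ht) + (P.scost V θ d t p.1 p.2 + P.wcost V θ d (P.step p.1 p.2 t) l) = _
      rw [← add_assoc, h1]
      exact h2
  apply hne
  have hr := WReach.refl (P := P) s
  have t1 := htel w s hr (by rw [hw2]; exact hss') hw1
  have t2 := htel w' s hr (by rw [hw2']; exact hss') hw1'
  have e : ∀ (u : St S R Tok) (hu : u = s') (h : P.WReach s u) (h' : P.WReach s s'),
      P.wcost V θ d s (a u h) = P.wcost V θ d s (a s' h') := by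
    intro u hu h h'
    subst hu
    rfl
  rw [e _ hw2 _ hss'] at t1
  rw [e _ hw2' _ hss'] at t2
  exact add_left_cancel (t1.trans t2.symm)


end Pool.Agent.Lib.MP_688fd0_co.SQ2.V

namespace Pool.Agent.Lib.MP_688fd0_co.SQ3.V

open Pool.Agent.Lib.MP_688fd0_co.SQ2.V
open Puz

section flips

/-- The states reachable from `st₁ f` lead back to it, and `stb` is one of them. -/
structure Back {S R : Type} [DecidableEq S] (P : Puz S R) (f g : R) (l₀ : S) : Prop where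
  stb : P.WReach (P.st₁ f) (P.stb f g l₀)
  back : ∀ s, P.WReach (P.st₁ f) s → P.WReach s (P.st₁ f)

/-- If everything can be undone. -/
theorem Back.of_sym {S R : Type} [DecidableEq S] {P : Puz S R} {f g : R} {l₀ : S}
    (hsym : ∀ s s' : St S R (P.TokOf f), P.WReach s s' → P.WReach s' s) (hgf : P.Adj g f l₀) : Back P f g l₀ where
  stb := by
    refine hsym _ _ ?_
    rw [← P.stb_step hgf]
    exact WReach.step hgf
  back := fun s h => hsym _ _ h

/-- If the caps in `K` can be undone. -/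
theorem Back.of_ret {S R : Type} [Fintype S] [DecidableEq S] {P : Puz S R} {f g : R} {l₀ : S} {K : R → Prop}
    (hK : P.RetK K) (hg : K g) (hgf : P.Adj g f l₀) : Back P f g l₀ where
  stb := by
    classical
    refine hK.ret _ (P.stb f g l₀) _ hg ?_
    rw [← P.stb_step hgf]
    exact WReach.step hgf
  back := fun s h => by
    classical
    exact hK.ret _ (P.st₁ f) _ (hK.cl _ _ _ hg hgf) h

theorem Back.to_stb {S R : Type} [DecidableEq S] {P : Puz S R} {f g : R} {l₀ : S} (h : Back P f g l₀)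
    {s : St S R (P.TokOf f)} (hs : P.WReach (P.st₁ f) s) : P.WReach s (P.stb f g l₀) := (h.back s hs).trans h.stb

open Classical in
/-- FLIP A for a closed class of caps. -/
theorem flipAK (S R Sb Rb F : Type) [Fintype S] [DecidableEq S] [Fintype Sb] [DecidableEq Sb]
    [Fintype Rb] [Field F] (P : Puz S R) (Pb : Puz Sb Rb) (E : Sub P Pb) (K : Rb → Prop) (V : R → F)
    (θ : R → S → F) (d : S → F) (f g : R) (l₀ : S) (s : St S R (P.TokOf f)) (r : Rb)
    (hB : Back P f g l₀)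
    (hθ : ∀ r s, s ∉ Set.range E.iS → θ (E.iR r) s = 0)
    (hs : P.WReach (P.st₁ f) s) (hr : s.1 = E.iR r) (hi : Function.Injective s.2)
    (hg : ∀ L, (∃ t, s.2 t = L) ↔ ¬ P.On s.1 L)
    (hd : (∑ t, if s.2 t ∈ Set.range E.iS then d t else 0) ≠ 0)
    (hK : Pb.HypK K) (hr0 : K r) (hf : ((Fintype.card Sb).factorial : F) ≠ 0) (h20 : (2 : F) ≠ 0)
    (hδ : Pb.Wt F)
    (hV : ¬ ∃ b : Sb → F, ∀ r, V (E.iR r) = b (Pb.y r) - b (Pb.x r)) :
    P.Flip V θ d f g l₀ := by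
  have hlen : Fintype.card {t : P.TokOf f // s.2 t ∈ Set.range E.iS} ≤ Fintype.card Sb := by
    refine Fintype.card_le_of_injective (fun t => t.2.choose) fun t t' h => ?_
    apply Subtype.ext
    apply hi
    rw [← t.2.choose_spec, ← t'.2.choose_spec]
    exact congrArg E.iS h
  obtain ⟨sb, hsb, hcm⟩ := E.exists_cm s r hr
  have hsum : (∑ t : {t : P.TokOf f // s.2 t ∈ Set.range E.iS}, d t) ≠ 0 := by
    intro h0
    apply hd
    refine Eq.trans ?_ h0
    rw [← Finset.sum_filter]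
    exact Finset.sum_subtype _ (fun t => by simp) _
  obtain ⟨l, l', h1, h2, h3, h4⟩ : ∃ l l' : List (Rb × Sb), Pb.Ok sb l ∧ Pb.Ok sb l' ∧ Pb.go sb l = Pb.go sb l' ∧
      Pb.wcost (fun r => V (E.iR r)) (fun r s => θ (E.iR r) (E.iS s))
        (fun t : {t : P.TokOf f // s.2 t ∈ Set.range E.iS} => d t) sb l ≠
      Pb.wcost (fun r => V (E.iR r)) (fun r s => θ (E.iR r) (E.iS s))
        (fun t : {t : P.TokOf f // s.2 t ∈ Set.range E.iS} => d t) sb l' := by
    by_contra hcon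
    push Not at hcon
    exact hV (hK.lemmaA (fun r => V (E.iR r)) (fun r s => θ (E.iR r) (E.iS s))
      (fun t : {t : P.TokOf f // s.2 t ∈ Set.range E.iS} => d t) (s₀ := sb) (by rw [hsb]; exact hr0)
      (E.good_cm hi hg hcm) (factorial_ne_zero_of_le hlen hf) h20 hsum hδ fun l l' k1 k2 k3 => hcon l l' k1 k2 k3)
  have e1 : P.go s (E.lift l) = P.go s (E.lift l') := by
    have k1 := hcm.go l
    have k2 := hcm.go l'
    rw [← h3] at k2
    exact k1.ext k2
  have hw : P.WReach s (P.go s (E.lift l)) := ⟨_, hcm.ok l h1, rfl⟩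
  obtain ⟨w₁, hw1, hw2⟩ := hs
  obtain ⟨w₂, hw3, hw4⟩ : P.WReach (P.go s (E.lift l)) (P.stb f g l₀) :=
    hB.to_stb (WReach.trans ⟨w₁, hw1, hw2⟩ hw)
  refine ⟨w₁ ++ E.lift l ++ w₂, w₁ ++ E.lift l' ++ w₂, ?_, ?_, ?_, ?_, ?_⟩
  · rw [ok_append, ok_append, go_append, hw2]
    exact ⟨⟨hw1, hcm.ok l h1⟩, hw3⟩
  · rw [go_append, go_append, hw2, hw4]
  · rw [ok_append, ok_append, go_append, hw2]
    exact ⟨⟨hw1, hcm.ok l' h2⟩, by rw [← e1]; exact hw3⟩
  · rw [go_append, go_append, hw2, ← e1, hw4]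
  · rw [wcost_append, wcost_append, wcost_append, wcost_append, go_append, go_append, hw2, ← e1,
      hcm.wcost V θ _ hθ, hcm.wcost V θ _ hθ]
    intro h5
    exact h4 (add_left_cancel (add_right_cancel h5))

open Classical in
/-- FLIP B for a closed class of caps. -/
theorem flipBK (S R Sb Rb F : Type) [Fintype S] [DecidableEq S] [Fintype Sb] [DecidableEq Sb]
    [Fintype Rb] [Field F] (P : Puz S R) (Pb : Puz Sb Rb) (E : Sub P Pb) (K : Rb → Prop) (χ : S → F) (d : S → F)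
    (f : R) (s : St S R (P.TokOf f)) (r : Rb)
    (hs : P.WReach (P.st₁ f) s) (hr : s.1 = E.iR r) (hi : Function.Injective s.2)
    (hg : ∀ L, (∃ t, s.2 t = L) ↔ ¬ P.On s.1 L)
    (hd : (∑ t, if s.2 t ∈ Set.range E.iS then d t else 0) ≠ 0)
    (hK : Pb.HypK K) (hr0 : K r) (hf : ((Fintype.card Sb).factorial : F) ≠ 0) (h20 : (2 : F) ≠ 0)
    (hδ : Pb.Wt F)
    (hχ : ∃ r, χ (E.iS (Pb.x r)) ≠ χ (E.iS (Pb.y r))) (C : F) :
    ∃ (s : St S R (P.TokOf f)) (r' : R) (v : S), P.WReach (P.st₁ f) s ∧ P.Adj s.1 r' v ∧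
      P.gam χ (fun t : P.TokOf f => d t) s r' v ≠ C := by
  have hlen : Fintype.card {t : P.TokOf f // s.2 t ∈ Set.range E.iS} ≤ Fintype.card Sb := by
    refine Fintype.card_le_of_injective (fun t => t.2.choose) fun t t' h => ?_
    apply Subtype.ext
    apply hi
    rw [← t.2.choose_spec, ← t'.2.choose_spec]
    exact congrArg E.iS h
  obtain ⟨sb, hsb, hcm⟩ := E.exists_cm s r hr
  have hsum : (∑ t : {t : P.TokOf f // s.2 t ∈ Set.range E.iS}, d t) ≠ 0 := by
    intro h0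
    apply hd
    refine Eq.trans ?_ h0
    rw [← Finset.sum_filter]
    exact Finset.sum_subtype _ (fun t => by simp) _
  obtain ⟨l, r', v, h1, h2, h3⟩ : ∃ (l : List (Rb × Sb)) (r' : Rb) (v : Sb), Pb.Ok sb l ∧
      Pb.Adj (Pb.go sb l).1 r' v ∧ Pb.gam (fun s => χ (E.iS s))
        (fun t : {t : P.TokOf f // s.2 t ∈ Set.range E.iS} => d t) (Pb.go sb l) r' v ≠
        C - ∑ t : {t : P.TokOf f // ¬ s.2 t ∈ Set.range E.iS}, d t * χ (s.2 t) := by
    by_contra hcon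
    push Not at hcon
    obtain ⟨r, hr'⟩ := hχ
    refine hr' (hK.lemmaB (fun s => χ (E.iS s))
      (C - ∑ t : {t : P.TokOf f // ¬ s.2 t ∈ Set.range E.iS}, d t * χ (s.2 t))
      (fun t : {t : P.TokOf f // s.2 t ∈ Set.range E.iS} => d t) (s₀ := sb) (by rw [hsb]; exact hr0)
      (E.good_cm hi hg hcm) (factorial_ne_zero_of_le hlen hf) h20 hsum hδ ?_ r)
    rintro s' r' v ⟨l, hl, rfl⟩ ha
    exact hcon l r' v hl ha
  have k1 := hcm.go l
  refine ⟨P.go s (E.lift l), E.iR r', E.iS v, hs.trans ⟨_, hcm.ok l h1, rfl⟩, ?_, ?_⟩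
  · rw [k1.r, E.adj_iff]
    exact h2
  · rw [k1.gam]
    intro h4
    exact h3 (eq_sub_of_add_eq h4)

end flips

end Pool.Agent.Lib.MP_688fd0_co.SQ3.V

namespace Pool.Agent.Lib.MP_688fd0_co.SQ3

open Pool.Agent.Lib.MP_688fd0_co.OSF Pool.Agent.Lib.MP_688fd0_co.SQ2
open V (Puz shortR shortK Back)
open V.Puz (St)
open _root_.Pool.Agent.Lib.MP_688fd0_co.SQ3.Real

universe u v w

/-- REAL A. -/
theorem realAK (S R : Type) [Fintype S] [DecidableEq S] [Fintype R] (P : Puz S R) (Q : Type) [Group Q]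
    [DecidableEq Q] (B : Lb.{0, v} Q) (U : Up B) (Z : Real P B U) (ζ : Q) (F : Type) [CommRing F] (V : Vd B F)
    (cu ca : R → F) (θ : R → S → F) (wt : Q → F) (f g : R) (l₀ : S) (h : ℕ) (E : TW B) (n₀ : ℕ)
    (hP : Per U Z.e ζ)
    (hH : ∀ r, Z.H r ≤ h) (hadj : P.Adj g f l₀) (hback : Back P f g l₀)
    (hv : Vols Z ζ V cu ca θ) (hn : ∀ x, V.n (U.up x) = 0) (hca : ∀ r, ca r = cu (P.tau r))
    (hd : ∀ s, wt (Z.vt s (Z.lev f)) = wt (Z.g s))
    (hE : EWr Z f g l₀ E n₀) (hflip : P.Flip cu θ (fun s => wt (Z.g s)) f g l₀) :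
    ∃ (X X' : TW B) (n : ℕ), Ver U X X' n (Z.vt (P.oth g l₀) (Z.lev f)) ∧ EWr Z f g l₀ X n ∧ X.cap = E.cap ∧
      n ≤ n₀ + (2 * NW S R + 4) * (Z.e + h) ∧ dvolw V wt X X' ≠ 0 := by
  obtain ⟨hz, _⟩ := hP
  have hcard := card_tok P f
  obtain ⟨l, l', ok, go, ok', go', hne, hl, hl'⟩ := shortK S R (P.TokOf f) F P cu θ
    (fun t : P.TokOf f => wt (Z.g t)) (P.st₁ f) (P.stb f g l₀) hback.back (by
      obtain ⟨l, l', h1, h2, h3, h4, h5⟩ := hflip
      exact ⟨l, l', h1, h2, h3, h4, h5⟩)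
  obtain ⟨m, hm, okm, gom⟩ := shortR S R (P.TokOf f) P (P.st₁ f) (P.stb f g l₀) ⟨l, ok, go⟩
  set N := Nat.card R * Nat.card S ^ Nat.card (P.TokOf f) with hN
  set K := (2 * N + 1) * (Z.e + h) with hK
  let W : WData Z := mkW hH hadj m okm gom K
  have hb : ∀ l : List (R × S), l.length ≤ 2 * N + 1 → Z.endT W.t₁ (Z.timed W.t₁ l) ≤ W.tC := by
    intro l hl
    refine le_trans (endT_timed hH _ _) ?_
    have := Nat.mul_le_mul_right (Z.e + h) hl
    show Z.lev f + Z.H f + _ ≤ Z.lev f + Z.H f + K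
    omega
  obtain ⟨X, X', hX, hver, hdv⟩ := W.two.{0, v, 0} (Z.timed W.t₁ l) (Z.timed W.t₁ l')
    (val_timed l W.t₁ (P.st₁ f) ok) (by rw [runT_timed]; exact go) (hb l hl)
    (val_timed l' W.t₁ (P.st₁ f) ok') (by rw [runT_timed]; exact go') (hb l' hl')
  have hEW : EWr Z f g l₀ X (W.T - W.t₀) := Is.ew (W := W) hX rfl (Z.lastT_dvd _ _)
  obtain ⟨z, hz'⟩ := pow_z hz hEW.dvd
  obtain ⟨Y, Y', y1, y2, y3, y4, y5, y6, y7⟩ := hver.comp_right (m := n₀) (Y := E) hE.flat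
    (by rw [hE.L₀, hEW.L₀]) (by rw [hE.u₀, hEW.u₀]) (by rw [hE.u₁, hEW.u₁]) hz'
  refine ⟨Y, Y', W.T - W.t₀ + n₀, y1, ⟨y1.flat, by rw [y2, hEW.L₀], by rw [y3, hEW.u₀], by rw [y4, hEW.u₁],
    Nat.dvd_add hEW.dvd hE.dvd, by rw [y5, hEW.cup]⟩, y6, ?_, ?_⟩
  · have h1 := mkW_T_le hH hadj m okm gom K
    have h2 : K + (m.length + 2) * (Z.e + h) ≤ (2 * NW S R + 4) * (Z.e + h) := by
      rw [hK, ← Nat.add_mul]
      refine Nat.mul_le_mul_right _ ?_
      unfold NW
      omega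
    have h3 : W.T - W.t₀ ≤ (2 * NW S R + 4) * (Z.e + h) := le_trans h1 h2
    omega
  · rw [y7 V wt, hdv V (vdA hv hn) wt (fun s => wt (Z.g s)) hd]
    have e1 : ∀ w, wcs (vdA hv hn) (fun i : P.TokOf f => wt (Z.g i.1)) (ca f) W.t₁ (P.st₁ f) (Z.timed W.t₁ w) =
        P.wcost cu θ (fun t : P.TokOf f => wt (Z.g t)) (P.st₁ f) w := by
      intro w
      have := wcs_eq (vdA hv hn) (fun i : P.TokOf f => wt (Z.g i.1)) (fun _ => rfl) hca (Z.timed W.t₁ w) (ca f)
        W.t₁ (P.st₁ f) (hca f)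
      rw [untime_timed] at this
      exact this
    intro h0
    apply hne
    have e2 := e1 l
    have e3 := e1 l'
    have h0' : wcs (vdA hv hn) (fun i : P.TokOf f => wt (Z.g i.1)) (ca f) W.t₁ (P.st₁ f) (Z.timed W.t₁ l') -
        wcs (vdA hv hn) (fun i : P.TokOf f => wt (Z.g i.1)) (ca f) W.t₁ (P.st₁ f) (Z.timed W.t₁ l) -
        ((0 : F) - 0) * Gam (vdA hv hn) (fun i : P.TokOf f => wt (Z.g i.1)) (P.stb f g l₀) f l₀ = 0 := h0
    rw [e2, e3] at h0'
    linear_combination -h0'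

/-- REAL B. -/
theorem realBK (S R : Type) [Fintype S] [DecidableEq S] [Fintype R] (P : Puz S R) (Q : Type) [Group Q]
    [DecidableEq Q] (B : Lb.{0, v} Q) (U : Up B) (Z : Real P B U) (ζ : Q) (F : Type) [Field F] (V : Vd B F)
    (cu ca : R → F) (θ : R → S → F) (wt : Q → F) (f g : R) (l₀ : S) (h : ℕ) (E : TW B) (n₀ : ℕ)
    (hP : Per U Z.e ζ)
    (hH : ∀ r, Z.H r ≤ h) (hadj : P.Adj g f l₀) (hback : Back P f g l₀)
    (hv : Vols Z ζ V cu ca θ) (homU : ∀ x, U.wt V (U.U x) = U.wt V x) (he : (Z.e : F) ≠ 0)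
    (hd : ∀ s, wt (Z.vt s (Z.lev f)) = wt (Z.g s))
    (hE : EWr Z f g l₀ E n₀)
    (hflip : ∃ (s : Puz.St S R (P.TokOf f)) (r' : R) (v : S), P.WReach (P.st₁ f) s ∧ P.Adj s.1 r' v ∧
      P.gam (fun s => U.wt V (Z.g s)) (fun t : P.TokOf f => wt (Z.g t)) s r' v ≠
        P.gam (fun s => U.wt V (Z.g s)) (fun t : P.TokOf f => wt (Z.g t)) (P.stb f g l₀) f l₀) :
    ∃ (X X' : TW B) (n : ℕ), Ver U X X' n (Z.vt (P.oth g l₀) (Z.lev f)) ∧ EWr Z f g l₀ X n ∧ X.cap = E.cap ∧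
      n ≤ n₀ + (2 * NW S R + 4) * (Z.e + h) ∧ dvolw V wt X X' ≠ 0 := by
  obtain ⟨hz, _⟩ := hP
  have hcard := card_tok P f
  obtain ⟨s, r', v, hr, hadj', hgam⟩ := hflip
  obtain ⟨w₁, hw₁, ok₁, go₁⟩ := shortR S R (P.TokOf f) P _ _ hr
  have hr2 : P.WReach (P.step r' v s) (P.stb f g l₀) := hback.to_stb (hr.trans (Puz.WReach.step hadj'))
  obtain ⟨w₂, hw₂, ok₂, go₂⟩ := shortR S R (P.TokOf f) P _ _ hr2
  obtain ⟨m, hm, okm, gom⟩ := shortR S R (P.TokOf f) P (P.st₁ f) (P.stb f g l₀)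
    ((hr.trans (Puz.WReach.step hadj')).trans hr2)
  set N := Nat.card R * Nat.card S ^ Nat.card (P.TokOf f) with hN
  set K := (2 * N + 2) * (Z.e + h) with hK
  let W : WData Z := mkW hH hadj m okm gom K
  -- the two words
  set A := Z.timed W.t₁ w₁ with hA
  set tA := Z.endT W.t₁ A with htA
  set x : TL S R := ⟨r', v, Z.nx tA r'⟩ with hx
  set C := Z.timed (x.t + Z.H r') w₂ with hC
  have hxC : Z.timed tA ((r', v) :: w₂) = x :: C := rfl
  have hrA : runT P A (P.st₁ f) = s := by rw [hA, runT_timed]; exact go₁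
  have hvA : Z.Val W.t₁ (P.st₁ f).1 A := val_timed w₁ W.t₁ (P.st₁ f) ok₁
  have hvC : Z.Val tA s.1 (x :: C) := by
    rw [← hxC]
    exact val_timed ((r', v) :: w₂) tA s ⟨hadj', ok₂⟩
  have hrC : runT P (x :: C) s = P.stb f g l₀ := by
    rw [← hxC, runT_timed]; exact go₂
  have hvC' : Z.Val tA s.1 ((x :: C).map (TL.sh Z.e)) := by
    have h1 := val_sh 1 (x :: C) tA s.1 hvC
    rw [mul_one] at h1
    exact val_le _ (Nat.le_add_right _ _) h1
  have htA' : tA ≤ W.t₁ + N * (Z.e + h) := by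
    refine le_trans (endT_timed hH _ _) ?_
    have := Nat.mul_le_mul_right (Z.e + h) hw₁
    omega
  have hend : Z.endT tA (x :: C) ≤ W.t₁ + (2 * N + 1) * (Z.e + h) := by
    rw [← hxC]
    refine le_trans (endT_timed hH _ _) ?_
    have h1 := Nat.mul_le_mul_right (Z.e + h) hw₂
    have h2 : (2 * N + 1) * (Z.e + h) = N * (Z.e + h) + (N * (Z.e + h) + (Z.e + h)) := by ring
    rw [List.length_cons, Nat.add_mul, one_mul, h2]
    omega
  have hend' : Z.endT tA ((x :: C).map (TL.sh Z.e)) = Z.endT tA (x :: C) + Z.e := endT_sh Z.e tA (x :: C)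
  have htC : W.tC = W.t₁ + K := rfl
  have hK2 : K = (2 * N + 1) * (Z.e + h) + (Z.e + h) := by rw [hK]; ring
  obtain ⟨X, X', hX, hver, hdv⟩ := W.two.{0, v, 0} (A ++ x :: C) (A ++ (x :: C).map (TL.sh Z.e))
    (val_append _ _ W.t₁ (P.st₁ f) hvA (by rw [hrA]; exact hvC)) (by rw [runT_append]; exact hrA ▸ hrC)
    (by rw [endT_append, ← htA]; omega)
    (val_append _ _ W.t₁ (P.st₁ f) hvA (by rw [hrA]; exact hvC')) (by
      rw [runT_append, runT_sh]; exact hrA ▸ hrC)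
    (by rw [endT_append, ← htA, hend']; omega)
  have hEW : EWr Z f g l₀ X (W.T - W.t₀) := Is.ew (W := W) hX rfl (Z.lastT_dvd _ _)
  obtain ⟨z, hz'⟩ := pow_z hz hEW.dvd
  obtain ⟨Y, Y', y1, y2, y3, y4, y5, y6, y7⟩ := hver.comp_right (m := n₀) (Y := E) hE.flat
    (by rw [hE.L₀, hEW.L₀]) (by rw [hE.u₀, hEW.u₀]) (by rw [hE.u₁, hEW.u₁]) hz'
  refine ⟨Y, Y', W.T - W.t₀ + n₀, y1, ⟨y1.flat, by rw [y2, hEW.L₀], by rw [y3, hEW.u₀], by rw [y4, hEW.u₁],
    Nat.dvd_add hEW.dvd hE.dvd, by rw [y5, hEW.cup]⟩, y6, ?_, ?_⟩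
  · have h1 := mkW_T_le hH hadj m okm gom K
    have h2 : K + (m.length + 2) * (Z.e + h) ≤ (2 * NW S R + 4) * (Z.e + h) := by
      rw [hK, ← Nat.add_mul]
      refine Nat.mul_le_mul_right _ ?_
      unfold NW
      omega
    have h3 : W.T - W.t₀ ≤ (2 * NW S R + 4) * (Z.e + h) := le_trans h1 h2
    omega
  · set D := vdB hv homU with hD
    have hG : ∀ t, D.gg (t + Z.e) = D.gg t + Z.e := by
      intro t
      show ((t + Z.e : ℕ) : F) = (t : F) + Z.e
      rw [Nat.cast_add]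
    have h1 := hdv V D wt (fun s => wt (Z.g s)) hd
    have h2 : wcs D (fun i : P.TokOf f => wt (Z.g i.1)) (D.ca f) W.t₁ (P.st₁ f)
        (A ++ (x :: C).map (TL.sh Z.e)) = wcs D (fun i : P.TokOf f => wt (Z.g i.1)) (D.ca f) W.t₁
        (P.st₁ f) (A ++ x :: C) + Z.e * Gam D (fun i : P.TokOf f => wt (Z.g i.1)) s r' v := by
      rw [wcs_append, wcs_append, hrA, wcs_wait D _ hG _ _ s x C hadj']
      ring
    have h3 : D.gg (Z.endT W.t₁ (A ++ (x :: C).map (TL.sh Z.e))) - D.gg (Z.endT W.t₁ (A ++ x :: C)) =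
        Z.e := by
      rw [endT_append, endT_append, ← htA, hend', hG]; ring
    rw [y7 V wt, h1]
    have h5 : wcs D (fun i : P.TokOf f => wt (Z.g i.1)) (D.ca f) W.t₁ (P.st₁ f)
        (A ++ (x :: C).map (TL.sh Z.e)) - wcs D (fun i : P.TokOf f => wt (Z.g i.1)) (D.ca f) W.t₁
        (P.st₁ f) (A ++ x :: C) - (D.gg (Z.endT W.t₁ (A ++ (x :: C).map (TL.sh Z.e))) -
          D.gg (Z.endT W.t₁ (A ++ x :: C))) * Gam D (fun i : P.TokOf f => wt (Z.g i.1))
            (P.stb f g l₀) f l₀ =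
        Z.e * (P.gam (fun s => U.wt V (Z.g s)) (fun t : P.TokOf f => wt (Z.g t.1)) s r' v -
          P.gam (fun s => U.wt V (Z.g s)) (fun t : P.TokOf f => wt (Z.g t.1)) (P.stb f g l₀) f l₀) := by
      rw [h2, h3]
      show _ = Z.e * (Gam D (fun i : P.TokOf f => wt (Z.g i.1)) s r' v -
        Gam D (fun i : P.TokOf f => wt (Z.g i.1)) (P.stb f g l₀) f l₀)
      ring
    show wcs D (fun i : P.TokOf f => wt (Z.g i.1)) (D.ca f) W.t₁ (P.st₁ f)
        (A ++ (x :: C).map (TL.sh Z.e)) - wcs D (fun i : P.TokOf f => wt (Z.g i.1)) (D.ca f) W.t₁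
        (P.st₁ f) (A ++ x :: C) - (D.gg (Z.endT W.t₁ (A ++ (x :: C).map (TL.sh Z.e))) -
          D.gg (Z.endT W.t₁ (A ++ x :: C))) * Gam D (fun i : P.TokOf f => wt (Z.g i.1))
            (P.stb f g l₀) f l₀ ≠ 0
    rw [h5]
    exact mul_ne_zero he (sub_ne_zero.2 hgam)

end Pool.Agent.Lib.MP_688fd0_co.SQ3
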