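import Pool.Agent.Lib.MP_688fd0_co.SQ3.H98.BG

/-!
GADN: existence of the base gadgets.
-/

set_option autoImplicit false

namespace Pool.Agent.Lib.MP_688fd0_co.SQ3

open Pool.Agent.Lib.MP_688fd0_co.OSF Pool.Agent.Lib.MP_688fd0_co.SQ2

universe v

variable {Q : Type} [Group Q] [DecidableEq Q] {B : Lb.{0, v} Q} {U : Up B} {P D : Subgroup Q} {z : Q}
  {F : Finset Q} {e : ℕ}

/-- Two sheets: the local group. -/
theorem GadU.two (h : FrD U P D z F e) {b : B.L} {s₀ s₁ v v' : Q} {T : TW B} {M p p' q q' : ℕ}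
    (G : GadU U D z F b (lg (U.gen v) 1 (U.gen (v * B.q b)) 1) s₀ s₁ v v' T M p p' q q') (h₀ : s₀ ∈ F)
    (h₁ : s₁ ∈ F) :
    ∃ G' : BGad h.toFrt, G'.x = ⟨s₀, h₀⟩ ∧ G'.y = ⟨s₁, h₁⟩ ∧ G'.H = M ∧
      GOK h G' b p p' (Subgroup.closure {h.cj (G'.x : Q), h.cj (G'.y : Q)}) := by
  have e0 : U.gen v = U.gen s₀ := by rw [G.e₀, gen_up_nat h.dat]
  have e1 : U.gen (v * B.q b) = U.gen s₁ := by rw [G.e₁, gen_up_nat h.dat]
  obtain ⟨G', g1, g2, g3, _, g5⟩ := G.gok h h₀ h₁ (Subgroup.closure {h.cj s₀, h.cj s₁}) (lg_le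
    (by rw [e0]; exact lsub_cj h (w := s₀) (Subgroup.subset_closure (by simp)))
    (by rw [e1]; exact lsub_cj h (w := s₁) (Subgroup.subset_closure (by simp))))
  refine ⟨G', g1, g2, g3, ?_⟩
  rw [g1, g2]
  exact g5

/-- One sheet: the local group. -/
theorem GadU.one (h : FrD U P D z F e) {b : B.L} {j : ℤ} {s₀ s₁ v v' : Q} {T : TW B}
    {M p p' q q' : ℕ} (G : GadU U D z F b (lg (U.gen v) 1 (v * B.q b * v⁻¹) j) s₀ s₁ v v' T M p p' q q')
    (hj : (p' : ℤ) - p = j) (hb : v * B.q b * v⁻¹ * (z ^ j)⁻¹ ∈ D) (h₀ : s₀ ∈ F) (h₁ : s₁ ∈ F) :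
    ∃ (G' : BGad h.toFrt) (η : Sy h.toFrt), G'.x = ⟨s₀, h₀⟩ ∧ G'.y = ⟨s₁, h₁⟩ ∧ G'.H = M ∧
      η • G'.x = G'.y ∧ lv η = (p' : ZMod e) - p ∧
      GOK h G' b p p' (Subgroup.closure {h.cj (G'.x : Q), η}) := by
  have e0 : U.gen v = U.gen s₀ := by rw [G.e₀, gen_up_nat h.dat]
  have hP : v * B.q b * v⁻¹ ∈ P := by
    have := P.mul_mem (h.dat.le hb) (P.zpow_mem h.dat.hz j)
    rwa [inv_mul_cancel_right] at this
  obtain ⟨η, hη, hact⟩ := h.exists_sy _ j hb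
  obtain ⟨G', g1, g2, g3, _, g5⟩ := G.gok h h₀ h₁ (Subgroup.closure {h.cj s₀, η}) (lg_le
    (by rw [e0]; exact lsub_cj h (w := s₀) (Subgroup.subset_closure (by simp)))
    ((lsub_iff h _ _ _).2 ⟨hP, η, Subgroup.subset_closure (by simp), hη, hact⟩))
  refine ⟨G', η, g1, g2, g3, ?_, ?_, ?_⟩
  · rw [g1, g2]
    refine Subtype.ext ?_
    have h2 := hact ⟨s₀, h₀⟩
    have h3 : (U.U ^ p) (v * B.q b * v⁻¹ * s₀) = (U.U ^ p') s₁ := by
      rw [h.dat.com_pow hP, ← G.e₀, inv_mul_cancel_right, G.e₁]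
    have h4 : (U.U ^ p) (v * B.q b * v⁻¹ * s₀) = (U.U ^ p) ((U.U ^ j) s₁) := by
      rw [h3]
      have e2 : U.U ^ p' = U.U ^ p * U.U ^ j := by
        rw [← zpow_natCast, ← zpow_natCast, ← zpow_add]
        congr 1
        omega
      rw [e2]; rfl
    have h5 := (U.U ^ p).injective h4
    have h6 : (U.U ^ j) ((η • (⟨s₀, h₀⟩ : F) : F) : Q) = (U.U ^ j) s₁ := h2.symm.trans h5
    exact (U.U ^ j).injective h6
  · rw [hη, ← hj]; push_cast; ring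
  · rw [g1]
    exact g5

theorem gadN2 : GadN2S.{v} := by
  intro Q _ _ B U P D z F e h c W hdisj hcW b s₀ o ho hs hD2
  have hD : D.Normal := h.dat.nrm
  have hoW : |o| ≤ (W : ℤ) := by
    have h2 : (c : ℤ) ≤ W := by exact_mod_cast hcW
    exact ho.trans h2
  have hnat : o.natAbs ≤ c := by
    have := ho
    rw [Int.abs_eq_natAbs] at this
    exact_mod_cast this
  have hF : ∀ y ∈ F, ∀ d ∈ D, y * d ∈ F := fun y hy d hd => h.inv' hy (by rw [inv_mul_cancel_left]; exact hd)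
  obtain ⟨M, T, v', h1, G⟩ := gadOffU h.dat hF (s₀ : Q) s₀.2 b o
    (fun x hx y hy e => hdisj x hx o hoW (e ▸ hy)) hs hD2
  set s₁ : Q := (U.U ^ ((o.natAbs : ℤ) + o).toNat)⁻¹ ((U.U ^ o.natAbs) (s₀ : Q) * B.q b) with hs₁d
  have hs₁ : s₁ ∈ F := by
    rw [← G.u₁, ← G.L₀]; exact T.hu₁
  obtain ⟨G', g1, g2, g3, g4⟩ := G.two h s₀.2 hs₁
  refine ⟨G', _, _, g1, ?_, ?_, ?_, g4⟩
  · rw [g3]
    unfold hgt
    have := h1
    omega
  · omega
  · intro k' hk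
    have h5 := sy_sheet h k' G'.x
    rw [hk, g2, g1] at h5
    apply hD2
    have h5' : (s₀ : Q)⁻¹ * s₁ ∈ D := h5
    rw [Up.Dat.mk_iff] at h5' ⊢
    rw [h5', h.dat.mk_zpow, map_mul]
    have e1 : (((o.natAbs : ℤ) + o).toNat : ℤ) = o.natAbs + o := by omega
    have e2 := h.dat.mk_pow ((o.natAbs : ℤ) + o).toNat s₁
    have e3 : (U.U ^ ((o.natAbs : ℤ) + o).toNat) s₁ = (U.U ^ o.natAbs) (s₀ : Q) * B.q b := by
      rw [hs₁d]
      exact (U.U ^ ((o.natAbs : ℤ) + o).toNat).apply_symm_apply _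
    rw [e3, map_mul, h.dat.mk_pow] at e2
    have e4 : QuotientGroup.mk' D s₁ = (QuotientGroup.mk' D z ^ ((o.natAbs : ℤ) + o).toNat)⁻¹ *
        (QuotientGroup.mk' D z ^ o.natAbs * QuotientGroup.mk' D (s₀ : Q) * QuotientGroup.mk' D (B.q b)) := by
      rw [e2, inv_mul_cancel_left]
    rw [e4, ← zpow_natCast (QuotientGroup.mk' D z), e1, ← zpow_natCast (QuotientGroup.mk' D z)]
    group

theorem gadN1 : GadN1S.{v} := by
  intro Q _ _ B U P D z F e h c b j hj s₀ hb hne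
  have hD : D.Normal := h.dat.nrm
  have hF : ∀ y ∈ F, ∀ d ∈ D, y * d ∈ F := fun y hy d hd => h.inv' hy (by rw [inv_mul_cancel_left]; exact hd)
  have hH1 : ∀ M : ℕ, M ≤ 2 * F.card.factorial → M ≤ hgt F.card c := fun M hM => by unfold hgt; omega
  have hs1 : ∀ {Γ : Subgroup (Q × Multiplicative ℤ)} {v v' s₁ : Q} {T : TW B} {M p p' q q' : ℕ},
      GadU U D z F b Γ (s₀ : Q) s₁ v v' T M p p' q q' → s₁ ∈ F := by
    intro Γ v v' s₁ T M p p' q q' G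
    rw [← G.u₁, ← G.L₀]; exact T.hu₁
  have hm : QuotientGroup.mk' D (s₀ : Q) =
      QuotientGroup.mk' D z ^ (-j) * (QuotientGroup.mk' D (s₀ : Q) * QuotientGroup.mk' D (B.q b)) := by
    have h1 := Up.Dat.mk_iff.1 hb
    rwa [h.dat.mk_zpow, map_mul] at h1
  have hcases : j = 0 ∨ j = 1 ∨ j = -1 := by
    rw [abs_le] at hj
    omega
  rcases hcases with rfl | rfl | rfl
  · have hb0 : B.q b ∈ D := by
      rw [neg_zero, zpow_zero, one_mul] at hm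
      exact (QuotientGroup.eq_one_iff _).1 (mul_eq_left.1 hm.symm)
    obtain ⟨M, T, v', h1, G⟩ := nat0U h.dat hF (s₀ : Q) s₀.2 b hb0
    obtain ⟨G', η, g1, _, g3, g4, g5, g6⟩ := G.one h (by norm_num)
      (by rw [zpow_zero, inv_one, mul_one]; exact h.dat.conj _ hb0) s₀.2 (hs1 G)
    exact ⟨G', 0, 0, η, g1, by rw [g3]; exact hH1 M (by omega), by norm_num, g4, g5, g6⟩
  · have hb1 : (s₀ : Q)⁻¹ * (z⁻¹ * ((s₀ : Q) * B.q b)) ∈ D := by
      rw [Up.Dat.mk_iff, map_mul, map_mul, map_inv]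
      rwa [zpow_neg_one] at hm
    have hne' : B.q b ≠ B.q (U.up (s₀ : Q)) := by
      intro he
      apply hne
      rw [he, ← U.hU, zpow_neg_one]
      exact U.U.symm_apply_apply _
    obtain ⟨M, T, s₁, v', h1, G⟩ := nat1U h.dat hF (s₀ : Q) s₀.2 b hb1 hne'
    have hcj : (s₀ : Q) * B.q b * (s₀ : Q)⁻¹ * (z ^ (1 : ℤ))⁻¹ ∈ D := by
      rw [← QuotientGroup.eq_one_iff, zpow_one]
      have h2 := Up.Dat.mk_iff.1 hb1
      rw [map_mul, map_mul, map_inv] at h2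
      show QuotientGroup.mk' D ((s₀ : Q) * B.q b * (s₀ : Q)⁻¹ * z⁻¹) = 1
      rw [map_mul, map_mul, map_mul, map_inv, map_inv]
      have h3 : QuotientGroup.mk' D (s₀ : Q) * QuotientGroup.mk' D (B.q b) =
          QuotientGroup.mk' D z * QuotientGroup.mk' D (s₀ : Q) := by
        conv_rhs => rw [h2]
        group
      rw [h3]; group
    obtain ⟨G', η, g1, _, g3, g4, g5, g6⟩ := G.one h (by norm_num) hcj s₀.2 (hs1 G)
    exact ⟨G', 0, 1, η, g1, by rw [g3]; exact hH1 M h1, by norm_num, g4, g5, g6⟩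
  · have hm2 : QuotientGroup.mk' D (s₀ : Q) =
        QuotientGroup.mk' D z * QuotientGroup.mk' D (s₀ : Q) * QuotientGroup.mk' D (B.q b) := by
      rw [neg_neg, zpow_one] at hm
      rw [mul_assoc]; exact hm
    have hb1 : (s₀ : Q)⁻¹ * (U.U (s₀ : Q) * B.q b) ∈ D := by
      rw [Up.Dat.mk_iff, map_mul, h.dat.mk_U]
      exact hm2
    have hne' : (B.q b)⁻¹ ≠ B.q (U.up (s₀ : Q)) := by
      intro he
      apply hne
      have h1 := h.dat.zpow_gen (s₀ : Q) (-1)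
      have h2 : U.gen (s₀ : Q) ^ (-1 : ℤ) * (s₀ : Q) = (s₀ : Q) * B.q b := by
        rw [← inv_inv (B.q b), he]
        unfold Up.gen
        rw [U.hU]
        group
      rw [h2, zpow_neg_one, Equiv.Perm.inv_eq_iff_eq] at h1
      rw [neg_neg, zpow_one]
      exact h1.symm
    obtain ⟨M, T, v', h1, G⟩ := nat2U h.dat hF (s₀ : Q) s₀.2 b hb1 hne'
    have hcj : U.U (s₀ : Q) * B.q b * (U.U (s₀ : Q))⁻¹ * (z ^ (-1 : ℤ))⁻¹ ∈ D := by
      rw [← QuotientGroup.eq_one_iff, zpow_neg_one, inv_inv]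
      show QuotientGroup.mk' D (U.U (s₀ : Q) * B.q b * (U.U (s₀ : Q))⁻¹ * z) = 1
      rw [map_mul, map_mul, map_mul, map_inv, h.dat.mk_U, ← hm2]
      group
    obtain ⟨G', η, g1, _, g3, g4, g5, g6⟩ := G.one h (by norm_num) hcj s₀.2 (hs1 G)
    exact ⟨G', 1, 0, η, g1, by rw [g3]; exact hH1 M h1, by norm_num, g4, g5, g6⟩

end Pool.Agent.Lib.MP_688fd0_co.SQ3
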