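import Pool.Agent.Lib.MP_688fd0_co.SQ3.H98.Gadg
import Pool.Agent.Lib.MP_688fd0_co.SQ3.V.GOK

/-!
From `GadU` to the base gadgets of the big puzzle (`BGad`, `GOK`).
-/

set_option autoImplicit false

namespace Pool.Agent.Lib.MP_688fd0_co.SQ3

open Pool.Agent.Lib.MP_688fd0_co.OSF Pool.Agent.Lib.MP_688fd0_co.SQ2

universe v

section sym

variable {Q : Type} [Group Q] {B : Lb.{0, v} Q} {U : Up B} {P D : Subgroup Q} {z : Q} {F : Finset Q} {e : ℕ}

theorem FrD.per_zmul (h : FrD U P D z F e) (m : ℤ) (x : Q) : (U.U ^ ((e : ℤ) * m)) x = z ^ ((e : ℤ) * m) * x := by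
  obtain ⟨n, rfl | rfl⟩ := m.eq_nat_or_neg
  · rw [← Nat.cast_mul, zpow_natCast, zpow_natCast]
    exact h.toFrt.per_mul n x
  · rw [mul_neg, ← Nat.cast_mul, zpow_neg, zpow_neg, zpow_natCast, zpow_natCast, Equiv.Perm.inv_eq_iff_eq,
      h.toFrt.per_mul, mul_inv_cancel_left]

/-- Every element of `D z ^ n` acts as a symmetry. -/
theorem FrD.exists_sy (h : FrD U P D z F e) (w : Q) (n : ℤ) (hw : w * (z ^ n)⁻¹ ∈ D) :
    ∃ g : Sy h.toFrt, lv g = (n : ZMod e) ∧ ∀ s : F, w * (s : Q) = (U.U ^ n) ((g • s : F) : Q) := by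
  have he : (0 : ℤ) < e := by exact_mod_cast h.he
  have ht : (((n % e).toNat : ℕ) : ℤ) = n % e := Int.toNat_of_nonneg (Int.emod_nonneg _ he.ne')
  have hn : n = ((n % e).toNat : ℕ) + e * (n / e) := by
    rw [ht]; exact (Int.emod_add_mul_ediv n e).symm
  refine ⟨h.sy hw (n % e).toNat, ?_, fun s => ?_⟩
  · rw [h.sy_lv]
    conv_rhs => rw [hn]
    push_cast
    rw [ZMod.natCast_self, zero_mul, add_zero]
  · have e1 : (U.U ^ n) ((h.sy hw (n % e).toNat • s : F) : Q) =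
        (U.U ^ ((e : ℤ) * (n / e))) ((U.U ^ (n % e).toNat) ((h.sy hw (n % e).toNat • s : F) : Q)) := by
      have e2 : U.U ^ n = U.U ^ ((e : ℤ) * (n / e)) * U.U ^ (n % e).toNat := by
        rw [← zpow_natCast, ← zpow_add, add_comm, ← hn]
      rw [e2]; rfl
    rw [e1, h.sy_up, h.dat.com_zpow (h.toFrt.mem_P hw _), h.per_zmul]
    have e3 : z ^ n = z ^ (n % e).toNat * z ^ ((e : ℤ) * (n / e)) := by
      rw [← zpow_natCast, ← zpow_add, ← hn]
    have e4 : w * (z ^ n)⁻¹ * z ^ (n % e).toNat * (z ^ ((e : ℤ) * (n / e)) * (s : Q)) =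
        w * (z ^ n)⁻¹ * (z ^ (n % e).toNat * z ^ ((e : ℤ) * (n / e))) * (s : Q) := by group
    rw [e4, ← e3, inv_mul_cancel_right]

/-- The pairs (element, level) which act like elements of `Γs`. -/
def lsub (h : FrD U P D z F e) (Γs : Subgroup (Sy h.toFrt)) : Subgroup (Q × Multiplicative ℤ) where
  carrier := {w | w.1 ∈ P ∧ ∃ g ∈ Γs, lv g = ((Multiplicative.toAdd w.2 : ℤ) : ZMod e) ∧
    ∀ s : F, w.1 * (s : Q) = (U.U ^ (Multiplicative.toAdd w.2)) ((g • s : F) : Q)}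
  one_mem' := ⟨P.one_mem, 1, Γs.one_mem, by
    show (0 : ZMod e) = ((0 : ℤ) : ZMod e)
    rw [Int.cast_zero], fun s => by
    show 1 * (s : Q) = (U.U ^ (0 : ℤ)) (s : Q)
    rw [one_mul, zpow_zero]; rfl⟩
  mul_mem' := by
    rintro ⟨w, n⟩ ⟨w', n'⟩ ⟨h0, g, h1, h2, h3⟩ ⟨h0', g', h1', h2', h3'⟩
    refine ⟨P.mul_mem h0 h0', g * g', Γs.mul_mem h1 h1', ?_, fun s => ?_⟩
    · rw [lv_mul, h2, h2']
      exact (Int.cast_add _ _).symm
    · have e1 : w' * (s : Q) = (U.U ^ (Multiplicative.toAdd n')) ((g' • s : F) : Q) := h3' s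
      have e2 : w * ((g' • s : F) : Q) = (U.U ^ (Multiplicative.toAdd n)) ((g • g' • s : F) : Q) := h3 (g' • s)
      show w * w' * (s : Q) = (U.U ^ (Multiplicative.toAdd n + Multiplicative.toAdd n')) (((g * g') • s : F) : Q)
      have h0P : w ∈ P := h0
      rw [mul_assoc, e1, ← h.dat.com_zpow h0P, e2, mul_smul, add_comm, zpow_add]
      rfl
  inv_mem' := by
    rintro ⟨w, n⟩ ⟨h0, g, h1, h2, h3⟩
    refine ⟨P.inv_mem h0, g⁻¹, Γs.inv_mem h1, ?_, fun s => ?_⟩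
    · have h4 : lv (g⁻¹ * g) = lv g⁻¹ + lv g := lv_mul _ _
      rw [inv_mul_cancel, lv_one] at h4
      show lv g⁻¹ = (((-(Multiplicative.toAdd n)) : ℤ) : ZMod e)
      rw [Int.cast_neg]
      have h5 : lv g = ((Multiplicative.toAdd n : ℤ) : ZMod e) := h2
      rw [← h5]
      exact eq_neg_of_add_eq_zero_left h4.symm
    · have e1 := h3 (g⁻¹ • s)
      rw [smul_inv_smul] at e1
      have e2 : w * ((g⁻¹ • s : F) : Q) = (U.U ^ (Multiplicative.toAdd n)) (s : Q) := e1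
      have h0P : w ∈ P := h0
      show w⁻¹ * (s : Q) = (U.U ^ (-(Multiplicative.toAdd n))) ((g⁻¹ • s : F) : Q)
      rw [zpow_neg, eq_comm, Equiv.Perm.inv_eq_iff_eq, h.dat.com_zpow (P.inv_mem h0P), ← e2, inv_mul_cancel_left]

theorem lsub_iff (h : FrD U P D z F e) (Γs : Subgroup (Sy h.toFrt)) (w : Q) (n : ℤ) :
    inG (lsub h Γs) w n ↔ w ∈ P ∧ ∃ g ∈ Γs, lv g = (n : ZMod e) ∧
      ∀ s : F, w * (s : Q) = (U.U ^ n) ((g • s : F) : Q) := Iff.rfl

theorem lg_le {Γ : Subgroup (Q × Multiplicative ℤ)} {x y : Q} {m n : ℤ} (hx : inG Γ x m) (hy : inG Γ y n) :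
    lg x m y n ≤ Γ := by
  unfold lg
  rw [Subgroup.closure_le]
  rintro w (rfl | rfl)
  · exact hx
  · exact hy

/-- Generators of the local groups. -/
theorem lsub_cj (h : FrD U P D z F e) {w : Q} {Γs : Subgroup (Sy h.toFrt)} (hw : h.cj w ∈ Γs) :
    inG (lsub h Γs) (U.gen w) 1 := by
  rw [lsub_iff]
  refine ⟨h.dat.gen_mem w, _, hw, ?_, fun s => ?_⟩
  · rw [h.cj_lv, Int.cast_one]
  · rw [zpow_one, h.cj_up]

theorem gen_up (h : U.Dat P D z) (v : Q) (n : ℤ) : U.gen ((U.U ^ n) v) = U.gen v := by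
  have h1 := h.zpow_gen v n
  have h2 := h.com (P.zpow_mem (h.gen_mem v) n) v
  unfold Up.gen at *
  rw [h1, h2, mul_inv_rev]
  have e1 : (U.U v * v⁻¹) ^ n * U.U v * (v⁻¹ * ((U.U v * v⁻¹) ^ n)⁻¹) =
      (U.U v * v⁻¹) ^ n * (U.U v * v⁻¹) * ((U.U v * v⁻¹) ^ n)⁻¹ := by group
  rw [e1]
  have h3 : Commute ((U.U v * v⁻¹) ^ n) (U.U v * v⁻¹) := (Commute.refl _).zpow_left n
  rw [h3.eq, mul_inv_cancel_right]

theorem gen_up_nat (h : U.Dat P D z) (v : Q) (n : ℕ) : U.gen ((U.U ^ n) v) = U.gen v := by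
  have := gen_up h v n
  rwa [zpow_natCast] at this

/-- Symmetries do not change the sheet. -/
theorem sy_sheet (h : FrD U P D z F e) (k : Sy h.toFrt) (s : F) : (s : Q)⁻¹ * ((k • s : F) : Q) ∈ D := by
  have hD : D.Normal := h.dat.nrm
  obtain ⟨t, d, _, hd, hs⟩ := k.2
  have h1 : d * z ^ t * (s : Q) = (U.U ^ t) ((k • s : F) : Q) := hs s
  have h2 := h.dat.mk_pow t ((k • s : F) : Q)
  have h3 : QuotientGroup.mk' D d = 1 := (QuotientGroup.eq_one_iff _).2 hd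
  rw [← h1, map_mul, map_mul, h3, one_mul, map_pow] at h2
  rw [Up.Dat.mk_iff]
  exact mul_left_cancel h2

end sym

section bridge

variable {Q : Type} [Group Q] [DecidableEq Q] {B : Lb.{0, v} Q} {U : Up B} {P D : Subgroup Q} {z : Q}
  {F : Finset Q} {e : ℕ}

omit [DecidableEq Q] in
theorem Up.vol_dn {R : Type} [CommRing R] (V : Vd B R) (hV : ∀ x, V.n (U.up x) = 0) (n : ℕ) (x : Q) :
    V.vol ((U.U ^ n) x) (U.dn n x) = 0 := by
  unfold Up.dn
  rw [← U.fin_str, vol_rev, U.vol_str V hV, neg_zero]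

/-- The bridge. -/
theorem GadU.gok (h : FrD U P D z F e) {b : B.L} {Γ : Subgroup (Q × Multiplicative ℤ)} {s₀ s₁ v v' : Q}
    {T : TW B} {M p p' q q' : ℕ} (G : GadU U D z F b Γ s₀ s₁ v v' T M p p' q q') (h₀ : s₀ ∈ F) (h₁ : s₁ ∈ F)
    (Γs : Subgroup (Sy h.toFrt)) (hΓ : Γ ≤ lsub h Γs) :
    ∃ G' : BGad h.toFrt, G'.x = ⟨s₀, h₀⟩ ∧ G'.y = ⟨s₁, h₁⟩ ∧ G'.H = M ∧ G'.X = T ∧ GOK h G' b p p' Γs := by
  classical
  obtain ⟨hvP, δ, hδ, hlv, hact⟩ := (lsub_iff h Γs _ _).1 (hΓ G.gam)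
  set x : F := ⟨s₀, h₀⟩ with hx
  set y : F := ⟨s₁, h₁⟩ with hy
  have hpq := G.pq
  have hpq' := G.pq'
  have hu₀ : T.u₀ = (x : Q) := G.u₀
  have hu₁ : T.u₁ = (y : Q) := G.u₁
  have hne : x ≠ y := by
    intro he
    apply T.hu
    rw [hu₀, hu₁, he]
  rw [zpow_natCast] at hact
  have e₀ : v = (U.U ^ p) (x : Q) := G.e₀
  have e₁ : v * B.q b = (U.U ^ p') (y : Q) := G.e₁
  have w₀ : T.w₀ = (U.U ^ M) ((δ • x : F) : Q) := by
    have e1 : M = (M - p - q) + (p + q) := by omega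
    rw [e1, U.U_pow_add, ← hact x, h.dat.com_pow hvP, U.U_pow_add, ← e₀, ← h.dat.com_pow hvP,
      inv_mul_cancel_right, G.w₀]
  have w₁ : T.w₁ = (U.U ^ M) ((δ • y : F) : Q) := by
    have e1 : M = (M - p - q) + (p' + q') := by omega
    rw [e1, U.U_pow_add, ← hact y, h.dat.com_pow hvP, U.U_pow_add, ← e₁, ← h.dat.com_pow hvP, G.w₁]
    congr 1
    group
  have hL₀ : T.L₀ = F := G.L₀
  have hL₁ : T.L₁ = im (U.U ^ M) F := by rw [G.rect.top, hL₀]
  have hmem : ∀ s : F, s ≠ x → s ≠ y → (U.U ^ M)⁻¹ (T.f s) ∈ F := by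
    intro s hsx hsy
    have h1 := (T.f_mem s (by rw [hL₀]; exact s.2) (fun he => hsx (Subtype.ext (he.trans hu₀)))
      (fun he => hsy (Subtype.ext (he.trans hu₁)))).1
    rwa [hL₁, mem_im] at h1
  set φ : F → F := fun s => if hsx : s = x then δ • x else if hsy : s = y then δ • y else
    ⟨(U.U ^ M)⁻¹ (T.f s), hmem s hsx hsy⟩ with hφ
  have φx : φ x = δ • x := dif_pos rfl
  have φy : φ y = δ • y := by
    show (if hsx : y = x then δ • x else _) = _
    rw [dif_neg hne.symm, dif_pos rfl]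
  have φs : ∀ s : F, s ≠ x → s ≠ y → T.f s = (U.U ^ M) (φ s : Q) := by
    intro s hsx hsy
    have : φ s = ⟨(U.U ^ M)⁻¹ (T.f s), hmem s hsx hsy⟩ := by
      show (if hsx : s = x then δ • x else _) = _
      rw [dif_neg hsx, dif_neg hsy]
    rw [this]
    exact ((U.U ^ M).apply_symm_apply (T.f s)).symm
  have hne2 : ∀ s : F, s ≠ x → s ≠ y → φ s ≠ δ • x ∧ φ s ≠ δ • y := by
    intro s hsx hsy
    have h1 := (T.f_mem s (by rw [hL₀]; exact s.2) (fun he => hsx (Subtype.ext (he.trans hu₀)))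
      (fun he => hsy (Subtype.ext (he.trans hu₁)))).2
    rw [φs s hsx hsy, w₀, w₁] at h1
    exact ⟨fun he => h1.1 (by rw [he]), fun he => h1.2 (by rw [he])⟩
  have hinj : Function.Injective φ := by
    intro s s' he
    by_cases h1 : s = x
    · by_cases h2 : s' = x
      · rw [h1, h2]
      · by_cases h3 : s' = y
        · rw [h1, h3, φx, φy] at he
          exact absurd (smul_left_cancel _ he) hne
        · rw [h1, φx] at he
          exact absurd he.symm (hne2 s' h2 h3).1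
    · by_cases h1' : s = y
      · by_cases h2 : s' = x
        · rw [h1', h2, φx, φy] at he
          exact absurd (smul_left_cancel _ he).symm hne
        · by_cases h3 : s' = y
          · rw [h1', h3]
          · rw [h1', φy] at he
            exact absurd he.symm (hne2 s' h2 h3).2
      · by_cases h2 : s' = x
        · rw [h2, φx] at he
          exact absurd he (hne2 s h1 h1').1
        · by_cases h3 : s' = y
          · rw [h3, φy] at he
            exact absurd he (hne2 s h1 h1').2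
          · have h4 : T.f s = T.f s' := by rw [φs s h1 h1', φs s' h2 h3, he]
            exact Subtype.ext (T.f_inj s (by rw [hL₀]; exact s.2) (fun he => h1 (Subtype.ext (he.trans hu₀)))
              (fun he => h1' (Subtype.ext (he.trans hu₁))) s' (by rw [hL₀]; exact s'.2)
              (fun he => h2 (Subtype.ext (he.trans hu₀))) (fun he => h3 (Subtype.ext (he.trans hu₁))) h4)
  -- the component
  have key : ∀ (s t : F) (n : ℕ) (w : Q), w = (U.U ^ n) (t : Q) → inG Γ ((s : Q) * w⁻¹) (-n) →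
      ∃ g ∈ Γs, g • t = s := by
    intro s t n w hw hg
    obtain ⟨hP, g, g1, _, g3⟩ := (lsub_iff h Γs _ _).1 (hΓ hg)
    refine ⟨g, g1, Subtype.ext ?_⟩
    have h3 := g3 t
    have h4 : (U.U ^ n) ((s : Q) * w⁻¹ * (t : Q)) = (s : Q) := by
      rw [h.dat.com_pow hP, ← hw, inv_mul_cancel_right]
    rw [h3, zpow_neg, zpow_natCast] at h4
    rw [← h4]
    exact ((U.U ^ n).apply_symm_apply _).symm
  have hcmp : ∀ s : F, CmpU D Γ s₀ s₁ v (v * B.q b) p p' s → ∃ g ∈ Γs, g • x = s ∨ g • y = s := by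
    rintro s (⟨_, h2⟩ | ⟨_, h2⟩)
    · obtain ⟨g, g1, g2⟩ := key s x p v e₀ h2
      exact ⟨g, g1, Or.inl g2⟩
    · obtain ⟨g, g1, g2⟩ := key s y p' _ e₁ h2
      exact ⟨g, g1, Or.inr g2⟩
  have hout : ∀ s : F, (∀ g ∈ Γs, g • x ≠ s ∧ g • y ≠ s) → s ≠ x ∧ s ≠ y ∧
      T.f s = (U.U ^ M) (s : Q) ∧ T.path s = U.str M s := by
    intro s hs
    have h1 := hs 1 Γs.one_mem
    rw [one_smul, one_smul] at h1
    have h2 : ¬ CmpU D Γ s₀ s₁ v (v * B.q b) p p' s := by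
      intro hc
      obtain ⟨g, g1, g2⟩ := hcmp s hc
      rcases g2 with g2 | g2
      · exact (hs g g1).1 g2
      · exact (hs g g1).2 g2
    refine ⟨h1.1.symm, h1.2.symm, G.out s s.2 (fun he => h1.1.symm (Subtype.ext he))
      (fun he => h1.2.symm (Subtype.ext he)) h2⟩
  let G' : BGad h.toFrt :=
    { x := x, y := y, ne := hne, δ := δ
      T := Equiv.ofBijective φ (Finite.injective_iff_bijective.1 hinj)
      Tx := φx, Ty := φy, H := M, X := T, L₀ := hL₀, L₁ := hL₁, u₀ := hu₀, u₁ := hu₁, w₀ := w₀, w₁ := w₁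
      f := φs
      reg := by rw [G.rect.reg, hL₀]; rfl }
  have hcup : ∀ (R : Type) [CommRing R] (V : Vd B R), (∀ x, V.n (U.up x) = 0) →
      V.vol (x : Q) T.cup = V.chi ((U.U ^ p) (x : Q)) * V.n b := by
    intro R _ V hV
    rw [G.cup, vol_append, U.vol_str V hV, zero_add]
    have e1 : B.fin (x : Q) (U.str p s₀) = (U.U ^ p) (x : Q) := U.fin_str p (x : Q)
    rw [e1]
    show V.chi ((U.U ^ p) (x : Q)) * V.n b + V.vol ((U.U ^ p) (x : Q) * B.q b) (U.dn p' s₁) = _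
    rw [← e₀, e₁]
    have e2 : V.vol ((U.U ^ p') (y : Q)) (U.dn p' s₁) = 0 := Up.vol_dn V hV p' s₁
    rw [e2, add_zero]
  refine ⟨G', rfl, rfl, rfl, rfl, ⟨?_, hδ, ?_, hcup, ?_, ?_⟩⟩
  · show (U.U ^ p) (x : Q) * B.q b = (U.U ^ p') (y : Q)
    rw [← e₀, e₁]
  · intro s hs
    obtain ⟨h1, h2, h3, _⟩ := hout s hs
    have h4 := φs s h1 h2
    rw [h3] at h4
    exact Subtype.ext ((U.U ^ M).injective h4).symm
  · intro R _ V hV hal
    have : NeZero e := ⟨h.he.ne'⟩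
    have h1 : V.vol T.w₀ T.cap = V.chi v' * V.n b := by
      rw [G.cap, vol_append, G.w₀, Up.vol_dn V hV, zero_add, U.fin_dn]
      show V.chi v' * V.n b + V.vol (v' * B.q b) (U.str q' (v' * B.q b)) = _
      rw [U.vol_str V hV, add_zero]
    have h3 : (((M - p - q : ℕ) : ℕ) : ZMod e) = lv δ := by rw [hlv, Int.cast_natCast]
    have h4 : V.chi (uu δ (M - p - q)) = Xc V δ := Xc_eq V hal x δ _ h3
    have h5 : uu δ (M - p - q) = v' * v⁻¹ := by
      rw [uu_eq δ _ h3 x, ← hact x, mul_inv_cancel_right]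
    show V.vol T.w₀ T.cap = Xc V δ * V.vol (x : Q) T.cup
    rw [h1, hcup R V hV, ← h4, h5, ← mul_assoc, ← map_mul, ← e₀, inv_mul_cancel_right]
  · intro R _ V hV s hs
    obtain ⟨_, _, _, h4⟩ := hout s hs
    show V.vol (s : Q) (T.path s) = 0
    rw [h4, U.vol_str V hV]

end bridge

end Pool.Agent.Lib.MP_688fd0_co.SQ3
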