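import Pool.Agent.Lib.MP_688fd0_co.SQ3.H98.Rect
import Pool.Agent.Lib.MP_688fd0_co.SQ3.H98.TG
import Pool.Agent.Lib.MP_688fd0_co.SQ2.H98.Sheet

/-!
Sheets (cosets of `D`) and positions. The position of `y` with respect to `v` is `y v⁻¹`; if it belongs to `P`, it is
multiplied by `gen v = U v v⁻¹` when `y` goes up.
-/

set_option autoImplicit false

namespace Pool.Agent.Lib.MP_688fd0_co.SQ3

open Pool.Agent.Lib.MP_688fd0_co.OSF Pool.Agent.Lib.MP_688fd0_co.SQ2 Finset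

universe u v w

variable {Q : Type u} [Group Q] {B : Lb.{u, v} Q} {U : Up B} {P D : Subgroup Q} {z : Q}

/-- The generator of the local group at `v`. -/
def Up.gen (U : Up B) (v : Q) : Q := U.U v * v⁻¹

theorem Up.gen_mul (U : Up B) (v : Q) : U.gen v * v = U.U v := inv_mul_cancel_right _ _

namespace Up.Dat

variable (h : U.Dat P D z)
include h

theorem gen_mem (v : Q) : U.gen v ∈ P := by
  have h1 := h.le (h.conj v (h.mem v))
  have h2 := P.mul_mem h.hz h1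
  have e : z * (v * (v⁻¹ * (z⁻¹ * U.U v)) * v⁻¹) = U.gen v := by unfold Up.gen; group
  rwa [e] at h2

theorem up_of {v y : Q} (hy : y * v⁻¹ ∈ P) : U.up y = U.up v := by
  have := h.upc _ hy v
  rwa [inv_mul_cancel_right] at this

/-- `U ^ n v = gen v ^ n v`. -/
theorem zpow_gen (v : Q) (n : ℤ) : (U.U ^ n) v = U.gen v ^ n * v := by
  induction n using Int.induction_on with
  | zero => rw [zpow_zero, zpow_zero, one_mul]; rfl
  | succ n ih =>
    rw [add_comm, zpow_add, zpow_one]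
    show U.U ((U.U ^ (n : ℤ)) v) = _
    rw [ih, h.com (P.zpow_mem (h.gen_mem v) _), ← U.gen_mul, ← mul_assoc, ← zpow_add_one]
    rw [add_comm]
  | pred n ih =>
    rw [sub_eq_add_neg, add_comm, zpow_add, zpow_neg_one]
    show U.U⁻¹ ((U.U ^ (-(n : ℤ))) v) = _
    rw [ih, Equiv.Perm.inv_eq_iff_eq, h.com (P.zpow_mem (h.gen_mem v) _), ← U.gen_mul, ← mul_assoc,
      ← zpow_add_one]
    congr 2
    ring

/-- The vertices whose position is in `P`. -/
theorem zpow_of {v y : Q} (hy : y * v⁻¹ ∈ P) (n : ℤ) : (U.U ^ n) y * v⁻¹ = y * v⁻¹ * U.gen v ^ n := by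
  have h1 := h.com_zpow hy n v
  rw [inv_mul_cancel_right] at h1
  rw [h1, h.zpow_gen]
  group

theorem pow_of {v y : Q} (hy : y * v⁻¹ ∈ P) (n : ℕ) : (U.U ^ n) y * v⁻¹ = y * v⁻¹ * U.gen v ^ n := by
  have := h.zpow_of hy n
  rwa [zpow_natCast, zpow_natCast] at this

theorem U_of {v y : Q} (hy : y * v⁻¹ ∈ P) : U.U y * v⁻¹ = y * v⁻¹ * U.gen v := by
  have := h.pow_of hy 1
  rwa [pow_one, pow_one] at this

/-- The position of a vertex of the sheet of `v`. -/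
theorem pos_sheet {v y : Q} (hy : v⁻¹ * y ∈ D) : y * v⁻¹ ∈ P := by
  have := h.le (h.conj v hy)
  have e : v * (v⁻¹ * y) * v⁻¹ = y * v⁻¹ := by group
  rwa [e] at this

theorem pos_pow {v y : Q} (hy : v⁻¹ * y ∈ D) (l : ℕ) : z ^ l * y * v⁻¹ ∈ P := by
  rw [mul_assoc]
  exact P.mul_mem (P.pow_mem h.hz l) (h.pos_sheet hy)

theorem pos_zpow {v y : Q} (hy : v⁻¹ * y ∈ D) (l : ℤ) : z ^ l * y * v⁻¹ ∈ P := by
  rw [mul_assoc]
  exact P.mul_mem (P.zpow_mem h.hz l) (h.pos_sheet hy)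

omit h in
theorem mk_iff [D.Normal] {x y : Q} : x⁻¹ * y ∈ D ↔ QuotientGroup.mk' D x = QuotientGroup.mk' D y :=
  (QuotientGroup.eq (s := D)).symm

theorem mk_zpow [D.Normal] (n : ℤ) (x : Q) : QuotientGroup.mk' D ((U.U ^ n) x) =
    QuotientGroup.mk' D z ^ n * QuotientGroup.mk' D x := by
  have h1 := mk_iff.1 (h.mem_zpow n x)
  rw [map_mul, map_inv, map_zpow] at h1
  rw [h1, mul_inv_cancel_left]

theorem mk_pow [D.Normal] (n : ℕ) (x : Q) : QuotientGroup.mk' D ((U.U ^ n) x) =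
    QuotientGroup.mk' D z ^ n * QuotientGroup.mk' D x := by
  have := h.mk_zpow n x
  rwa [zpow_natCast, zpow_natCast] at this

theorem mk_U [D.Normal] (x : Q) : QuotientGroup.mk' D (U.U x) =
    QuotientGroup.mk' D z * QuotientGroup.mk' D x := by
  have := h.mk_pow 1 x
  rwa [pow_one, pow_one] at this

end Up.Dat

section sheet

variable (h : U.Dat P D z) {L : Finset Q} (hL : ∀ y ∈ L, ∀ d ∈ D, y * d ∈ L)

include hL in
omit h in
/-- A set with `L D = L` is a union of sheets. -/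
theorem mem_of_mk [D.Normal] {x y : Q} (hx : x ∈ L) (e : QuotientGroup.mk' D x = QuotientGroup.mk' D y) :
    y ∈ L := by
  have := hL x hx _ (Up.Dat.mk_iff.2 e)
  rwa [mul_inv_cancel_left] at this

/-- The permutation `y ↦ z⁻¹ U y` of the frontier. -/
noncomputable def pU : Equiv.Perm L :=
  permOf (fun y => z⁻¹ * U.U y)
    (fun y hy => by
      have := hL y hy _ (h.mem y)
      rwa [mul_inv_cancel_left] at this)
    (fun _ _ _ _ h => U.U.injective (mul_left_cancel h))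

theorem pU_apply (y : L) : (pU h hL y : Q) = z⁻¹ * U.U y := rfl

theorem pU_eq (y : L) : U.U (y : Q) = z * (pU h hL y : Q) := by
  rw [pU_apply, mul_inv_cancel_left]

theorem pU_mk [D.Normal] (y : L) : QuotientGroup.mk' D (pU h hL y : Q) = QuotientGroup.mk' D (y : Q) := by
  rw [pU_apply, map_mul, map_inv, h.mk_U, inv_mul_cancel_left]

theorem pU_pow (n : ℕ) (x : L) : z ^ n * (((pU h hL) ^ n) x : Q) = (U.U ^ n) (x : Q) :=
  (U_pow_level (h.com h.hz) (pU_eq h hL) n x).symm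

/-- The position one level up. -/
theorem pU_pos {v : Q} (y : L) (hy : v⁻¹ * (y : Q) ∈ D) (l : ℕ) :
    z ^ (l + 1) * (pU h hL y : Q) * v⁻¹ = z ^ l * (y : Q) * v⁻¹ * U.gen v := by
  rw [← U_level (h.com h.hz) (pU_eq h hL) l y, h.U_of (h.pos_pow hy l)]

include h hL in
theorem im_L (i : ℕ) : im (U.U ^ i) L = lt (z ^ i) L := by
  induction i with
  | zero => rw [pow_zero, pow_zero, im_one, lt_one]
  | succ i ih =>
    rw [pow_succ', im_mul, ih]
    exact im_level (h.com h.hz) (pU_eq h hL) i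

include h hL in
theorem lev_U (n : ℕ) : U.lev L n = ∑ i ∈ range n, (lt (z ^ i) L).val := by
  unfold Up.lev
  exact Finset.sum_congr rfl fun i _ => by rw [im_L h hL]

include h hL in
/-- The statement on the tokens. -/
theorem tk_tokU {Dp : ℕ → L → Prop} {u₀ u₁ : Q} {f : Q → Q}
    {path : Q → List B.L} {M : ℕ} (ht : Tk U L z Dp u₀ u₁ f path M) (C : Q → Prop)
    (h0 : ∀ x : L, Dp 0 x ↔ C x) (hM : ∀ y : L, Dp M y → ∀ s ∈ L, (U.U ^ M) s = z ^ M * (y : Q) → C s) :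
    (∀ s ∈ L, s ≠ u₀ → s ≠ u₁ → C s → ∃ s' ∈ L, C s' ∧ f s = (U.U ^ M) s') ∧
    (∀ s ∈ L, s ≠ u₀ → s ≠ u₁ → ¬ C s → f s = (U.U ^ M) s ∧ path s = U.str M s) := by
  refine ⟨fun s hs e0 e1 hc => ?_, fun s hs e0 e1 hc => ?_⟩
  · obtain ⟨y, h1, h2⟩ := (ht ⟨s, hs⟩ e0 e1).1 ((h0 ⟨s, hs⟩).2 hc)
    have h3 : z ^ M * (y : Q) ∈ im (U.U ^ M) L := by
      rw [im_L h hL]
      exact mul_mem_lt.2 y.2
    rw [mem_im_pow] at h3
    obtain ⟨s', a1, a2⟩ := h3
    exact ⟨s', a1, hM y h1 s' a1 a2, h2.trans a2.symm⟩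
  · exact (ht ⟨s, hs⟩ e0 e1).2 (fun h => hc ((h0 ⟨s, hs⟩).1 h))

include h in
/-- The bottom vertex of a strand: sheet and position. -/
theorem bot_mk [D.Normal] {s y : Q} {M : ℕ} (e : (U.U ^ M) s = z ^ M * y) :
    QuotientGroup.mk' D s = QuotientGroup.mk' D y := by
  have h1 := h.mk_pow M s
  rw [e, map_mul, map_pow] at h1
  exact (mul_left_cancel h1).symm

include h in
theorem bot_pos {v s y : Q} {M : ℕ} (e : (U.U ^ M) s = z ^ M * y) (hs : v⁻¹ * s ∈ D) :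
    s * v⁻¹ = z ^ M * y * v⁻¹ * (U.gen v ^ M)⁻¹ := by
  rw [← e, h.pow_of (h.pos_sheet hs), mul_inv_cancel_right]

end sheet

end Pool.Agent.Lib.MP_688fd0_co.SQ3
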