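import Pool.Agent.Lib.MP_688fd0_co.SQ3.H98.Sheet
import Pool.Agent.Lib.MP_688fd0_co.SQ2.H98.Gad

/-!
Gadgets on a frontier which is a union of cosets of `D` (no offsets).

`s₀` is the near vertex, `s₁` the far vertex; the cup goes from `s₀` up to `v = U ^ p s₀`, by the label `b` to `v b`, and
down to `s₁`; the cap from `w₀` down to `v'`, by `b` to `v' b` and up to `w₁`.

`Γ` is the local group: its elements are pairs (element of `Q`, level). It acts on the positions `s v⁻¹` (near sheet) and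
`s (v b)⁻¹` (far sheet) by right multiplication.
-/

set_option autoImplicit false

namespace Pool.Agent.Lib.MP_688fd0_co.SQ3

open Pool.Agent.Lib.MP_688fd0_co.OSF Pool.Agent.Lib.MP_688fd0_co.SQ2 Finset

universe u v w

/-- `s` is a vertex of the two sheets of the gadget and belongs to its component; `w = v b`. -/
def CmpU {Q : Type u} [Group Q] (D : Subgroup Q) (Γ : Subgroup (Q × Multiplicative ℤ)) (s₀ s₁ v w : Q) (p p' : ℕ)
    (s : Q) : Prop :=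
  (s₀⁻¹ * s ∈ D ∧ inG Γ (s * v⁻¹) (-p)) ∨ (s₁⁻¹ * s ∈ D ∧ inG Γ (s * w⁻¹) (-p'))

/-- `T` is a gadget of height `M` for the label `b` on the frontier `F`. -/
structure GadU {Q : Type u} [Group Q] [DecidableEq Q] {B : Lb.{u, v} Q} (U : Up B) (D : Subgroup Q) (z : Q)
    (F : Finset Q) (b : B.L) (Γ : Subgroup (Q × Multiplicative ℤ)) (s₀ s₁ v v' : Q) (T : TW B)
    (M p p' q q' : ℕ) : Prop where
  rect : RectU U T M
  pos : 0 < M
  L₀ : T.L₀ = F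
  u₀ : T.u₀ = s₀
  u₁ : T.u₁ = s₁
  e₀ : v = (U.U ^ p) s₀
  e₁ : v * B.q b = (U.U ^ p') s₁
  cup : T.cup = U.str p s₀ ++ b :: U.dn p' s₁
  w₀ : T.w₀ = (U.U ^ q) v'
  w₁ : T.w₁ = (U.U ^ q') (v' * B.q b)
  cap : T.cap = U.dn q v' ++ b :: U.str q' (v' * B.q b)
  pq : p + q ≤ M
  pq' : p' + q' = p + q
  gam : inG Γ (v' * v⁻¹) ((M - p - q : ℕ) : ℤ)
  lvl : v⁻¹ * ((z ^ (M - p - q))⁻¹ * v') ∈ D
  tok : ∀ s ∈ F, s ≠ s₀ → s ≠ s₁ → CmpU D Γ s₀ s₁ v (v * B.q b) p p' s →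
    ∃ s' ∈ F, CmpU D Γ s₀ s₁ v (v * B.q b) p p' s' ∧ T.f s = (U.U ^ M) s'
  out : ∀ s ∈ F, s ≠ s₀ → s ≠ s₁ → ¬ CmpU D Γ s₀ s₁ v (v * B.q b) p p' s →
    T.f s = (U.U ^ M) s ∧ T.path s = U.str M s

section cmp

variable {Q : Type u} [Group Q] {D : Subgroup Q} {Γ : Subgroup (Q × Multiplicative ℤ)}

/-- The component in the case of one sheet. -/
theorem cmp_oneU {s₀ s₁ v b s : Q} {p p' : ℕ} (h : s₀⁻¹ * s₁ ∈ D) (hb : inG Γ (v * b * v⁻¹) (p' - p)) :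
    CmpU D Γ s₀ s₁ v (v * b) p p' s ↔ s₀⁻¹ * s ∈ D ∧ inG Γ (s * v⁻¹) (-p) := by
  constructor
  · rintro (h1 | ⟨h1, h2⟩)
    · exact h1
    · refine ⟨?_, ?_⟩
      · have := D.mul_mem h h1
        have e : s₀⁻¹ * s₁ * (s₁⁻¹ * s) = s₀⁻¹ * s := by group
        rwa [e] at this
      · have := inG_mul h2 hb
        have e : s * (v * b)⁻¹ * (v * b * v⁻¹) = s * v⁻¹ := by group
        rw [e] at this
        exact inG_lvl this (by ring)
  · exact fun h1 => Or.inl h1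

end cmp

variable {Q : Type u} [Group Q] [DecidableEq Q] {B : Lb.{u, v} Q} {U : Up B} {P D : Subgroup Q} {z : Q}
  (h : U.Dat P D z) {L : Finset Q} (hL : ∀ y ∈ L, ∀ d ∈ D, y * d ∈ L)

omit [DecidableEq Q] h in
include hL in
/-- The permutation of one sheet of the frontier given by an injective map of this sheet into itself. -/
theorem sheetPerm [D.Normal] (x : Q) (φ : Q → Q) (h1 : ∀ y, x⁻¹ * y ∈ D → x⁻¹ * φ y ∈ D)
    (h2 : ∀ y y', φ y = φ y' → y = y') :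
    ∃ R : Equiv.Perm L, ∀ y : L, x⁻¹ * (y : Q) ∈ D → (R y : Q) = φ y := by
  classical
  set ψ : Q → Q := fun y => if x⁻¹ * y ∈ D then φ y else y with hψ
  have p1 : ∀ y, x⁻¹ * y ∈ D → ψ y = φ y := fun y h => if_pos h
  have p2 : ∀ y, x⁻¹ * y ∉ D → ψ y = y := fun y h => if_neg h
  have m1 : ∀ y ∈ L, ψ y ∈ L := by
    intro y hy
    by_cases h : x⁻¹ * y ∈ D
    · rw [p1 y h]
      exact mem_of_mk hL hy ((Up.Dat.mk_iff.1 h).symm.trans (Up.Dat.mk_iff.1 (h1 y h)))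
    · rw [p2 y h]; exact hy
  have m2 : ∀ y ∈ L, ∀ y' ∈ L, ψ y = ψ y' → y = y' := by
    intro y _ y' _ he
    by_cases h : x⁻¹ * y ∈ D <;> by_cases h' : x⁻¹ * y' ∈ D
    · rw [p1 y h, p1 y' h'] at he; exact h2 _ _ he
    · rw [p1 y h, p2 y' h'] at he; exact absurd (he ▸ h1 y h) h'
    · rw [p2 y h, p1 y' h'] at he; exact absurd (he ▸ h1 y' h') h
    · rw [p2 y h, p2 y' h'] at he; exact he
  exact ⟨permOf ψ m1 m2, fun y hy => p1 _ hy⟩

include h hL in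
/-- Gadget for a label in `D`. -/
theorem nat0U (x : Q) (hx : x ∈ L) (g : B.L) (hg : B.q g ∈ D) :
    ∃ (M : ℕ) (T : TW B) (v' : Q), M ≤ L.card.factorial ∧
      GadU U D z L g (lg (U.gen x) 1 (x * B.q g * x⁻¹) 0) x (x * B.q g) x v' T M 0 0 0 0 := by
  classical
  have hD : D.Normal := h.nrm
  set Γ := lg (U.gen x) 1 (x * B.q g * x⁻¹) 0 with hΓ
  have hΓa : inG Γ (U.gen x) 1 := lg_left _ _ _ _
  have hΓg : inG Γ (x * B.q g * x⁻¹) 0 := lg_right _ _ _ _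
  have p3 : ∀ y, x⁻¹ * y ∈ D → x⁻¹ * (y * B.q g) ∈ D := fun y h => by
    rw [← mul_assoc]; exact D.mul_mem h hg
  obtain ⟨R, hR⟩ := sheetPerm hL x (fun y => y * B.q g) p3 (fun _ _ h => mul_right_cancel h)
  set Dp : ℕ → L → Prop := fun l y => x⁻¹ * (y : Q) ∈ D ∧ inG Γ (z ^ l * (y : Q) * x⁻¹) l with hDp
  have hAD : ∀ y : L, x⁻¹ * (pU h hL y : Q) ∈ D ↔ x⁻¹ * (y : Q) ∈ D := fun y => by
    rw [Up.Dat.mk_iff, Up.Dat.mk_iff, pU_mk]
  obtain ⟨m, y, X, a1, a2, a3, a4, a5, a6, a7, a8, a9, a10, a11, a12, a13⟩ :=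
    TG0 (z := z) (U := U) (A := pU h hL) (P := R) (ℓ := fun _ => g) (D := Dp)
      (h.com h.hz) (pU_eq h hL) (fun l y hy => (hR _ hy.1).symm)
      (fun l y hy => by
        refine ⟨(hAD y).2 hy.1, ?_⟩
        rw [pU_pos h hL y hy.1, Nat.cast_succ]
        exact inG_mul hy.2 hΓa)
      (fun l y hy => by
        rw [hDp]
        show x⁻¹ * (R y : Q) ∈ D ∧ inG Γ (z ^ l * (R y : Q) * x⁻¹) l
        rw [hR y hy.1]
        refine ⟨p3 _ hy.1, ?_⟩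
        have e : z ^ l * ((y : Q) * B.q g) * x⁻¹ = z ^ l * (y : Q) * x⁻¹ * (x * B.q g * x⁻¹) := by group
        rw [e]
        exact inG_lvl (inG_mul hy.2 hΓg) (add_zero _))
      (fun l y hy => by
        have h1 := (hAD y).1 hy.1
        refine ⟨h1, ?_⟩
        have h2 := hy.2
        rw [pU_pos h hL y h1, Nat.cast_succ] at h2
        exact (inG_mul_right hΓa).1 h2)
      ⟨x, hx⟩ ⟨by simp, by simpa using inG_one⟩
  have hrect : RectU U X m := by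
    refine ⟨?_, ?_⟩
    · rw [a4, a5, im_L h hL]
    · rw [a4, a12, lev_U h hL]
  have hcmp : ∀ s, CmpU D Γ x (x * B.q g) x (x * B.q g) 0 0 s ↔ x⁻¹ * s ∈ D ∧ inG Γ (s * x⁻¹) 0 := fun s => by
    have := cmp_oneU (s := s) (s₀ := x) (s₁ := x * B.q g) (v := x) (b := B.q g) (Γ := Γ) (D := D) (p := 0) (p' := 0)
      (by rw [inv_mul_cancel_left]; exact hg) (by simpa using hΓg)
    rw [this, Nat.cast_zero, neg_zero]
  have hu1 : X.u₁ = x * B.q g := by rw [a7]; exact hR ⟨x, hx⟩ (by simp)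
  obtain ⟨t1, t2⟩ := tk_tokU h hL a13 (CmpU D Γ x (x * B.q g) x (x * B.q g) 0 0)
    (fun s => by
      rw [hcmp]
      show (x⁻¹ * (s : Q) ∈ D ∧ inG Γ (z ^ 0 * (s : Q) * x⁻¹) 0) ↔ _
      rw [pow_zero, one_mul])
    (fun y hy s hs e => by
      rw [hcmp]
      have h1 : x⁻¹ * s ∈ D := by
        rw [Up.Dat.mk_iff, bot_mk h e, ← Up.Dat.mk_iff]
        exact hy.1
      refine ⟨h1, ?_⟩
      rw [bot_pos h e h1]
      exact inG_lvl (inG_mul hy.2 (inG_inv (inG_pow1 hΓa m))) (add_neg_cancel _))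
  have hu0 : X.u₀ = x := a6
  rw [hu0, hu1] at t1 t2
  refine ⟨m, X, X.w₀, a2, ⟨hrect, by omega, a4, hu0, hu1, rfl, rfl, a8, rfl, ?_, a11, ?_, rfl, ?_, ?_, t1, t2⟩⟩
  · show X.w₁ = X.w₀ * B.q g
    rw [a10, a9, hR y a3.1, mul_assoc]
  · omega
  · rw [a9, Nat.sub_zero, Nat.sub_zero]; exact a3.2
  · rw [a9, Nat.sub_zero, Nat.sub_zero, inv_mul_cancel_left]
    exact a3.1

include h hL in
/-- Gadget for a label which goes up one level in its sheet. -/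
theorem nat1U (x : Q) (hx : x ∈ L) (g : B.L) (hg : x⁻¹ * (z⁻¹ * (x * B.q g)) ∈ D) (hne : B.q g ≠ B.q (U.up x)) :
    ∃ (M : ℕ) (T : TW B) (s₁ v' : Q), M ≤ 2 * L.card.factorial ∧
      GadU U D z L g (lg (U.gen x) 1 (x * B.q g * x⁻¹) 1) x s₁ x v' T M 0 1 1 0 := by
  classical
  have hD : D.Normal := h.nrm
  set Γ := lg (U.gen x) 1 (x * B.q g * x⁻¹) 1 with hΓ
  have hΓa : inG Γ (U.gen x) 1 := lg_left _ _ _ _
  have hΓg : inG Γ (x * B.q g * x⁻¹) 1 := lg_right _ _ _ _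
  have p3 : ∀ y, x⁻¹ * y ∈ D → x⁻¹ * (z⁻¹ * (y * B.q g)) ∈ D := fun y h => by
    rw [Up.Dat.mk_iff] at h hg ⊢
    rw [hg, map_mul, map_mul, map_mul, map_mul, h]
  obtain ⟨R, hR⟩ := sheetPerm hL x (fun y => z⁻¹ * (y * B.q g)) p3
    (fun _ _ h => mul_right_cancel (mul_left_cancel h))
  set Dp : ℕ → L → Prop := fun l y => x⁻¹ * (y : Q) ∈ D ∧ inG Γ (z ^ l * (y : Q) * x⁻¹) l with hDp
  have hAD : ∀ y : L, x⁻¹ * (pU h hL y : Q) ∈ D ↔ x⁻¹ * (y : Q) ∈ D := fun y => by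
    rw [Up.Dat.mk_iff, Up.Dat.mk_iff, pU_mk]
  have hPe : ∀ y : L, x⁻¹ * (y : Q) ∈ D → (y : Q) * B.q g = z * (R y : Q) := by
    intro y hy
    rw [hR y hy, mul_inv_cancel_left]
  have hup : ∀ y : L, x⁻¹ * (y : Q) ∈ D → U.up (y : Q) = U.up x := fun y hy => h.up_of (h.pos_sheet hy)
  obtain ⟨m, y, X, a1, a2, a3, a4, a5, a6, a7, a8, a9, a10, a11, a12, a13⟩ :=
    TG1 (z := z) (U := U) (b := g) (A := pU h hL) (P := R) (D := Dp)
      (h.com h.hz) (pU_eq h hL) (fun l y hy => hPe y hy.1)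
      (fun l y hy => by
        refine ⟨(hAD y).2 hy.1, ?_⟩
        rw [pU_pos h hL y hy.1, Nat.cast_succ]
        exact inG_mul hy.2 hΓa)
      (fun l y hy => by
        rw [hDp]
        show x⁻¹ * (R y : Q) ∈ D ∧ inG Γ (z ^ (l + 1) * (R y : Q) * x⁻¹) ((l + 1 : ℕ) : ℤ)
        rw [hR y hy.1]
        refine ⟨p3 _ hy.1, ?_⟩
        have e : z ^ (l + 1) * (z⁻¹ * ((y : Q) * B.q g)) * x⁻¹ = z ^ l * (y : Q) * x⁻¹ * (x * B.q g * x⁻¹) := by
          rw [pow_succ]; group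
        rw [e, Nat.cast_succ]
        exact inG_mul hy.2 hΓg)
      (fun l y hy => by
        have h1 := (hAD y).1 hy.1
        refine ⟨h1, ?_⟩
        have h2 := hy.2
        rw [pU_pos h hL y h1, Nat.cast_succ] at h2
        exact (inG_mul_right hΓa).1 h2)
      (fun l y hy => by rw [hup y hy.1]; exact hne) ⟨x, hx⟩ ⟨by simp, by simpa using inG_one⟩
  have hrect : RectU U X (m + 1) := by
    refine ⟨?_, ?_⟩
    · rw [a4, a5, im_L h hL]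
    · rw [a4, a12, lev_U h hL]
  have hu0 : X.u₀ = x := a6
  have hu1 : U.U X.u₁ = x * B.q g := by
    rw [a7, pU_eq h hL, Equiv.apply_symm_apply, hPe ⟨x, hx⟩ (by simp)]
  have hs : x⁻¹ * X.u₁ ∈ D := by
    rw [Up.Dat.mk_iff] at hg ⊢
    rw [hg, ← hu1, map_mul, map_inv, h.mk_U, inv_mul_cancel_left]
  have hcmp : ∀ s, CmpU D Γ x X.u₁ x (x * B.q g) 0 1 s ↔ x⁻¹ * s ∈ D ∧ inG Γ (s * x⁻¹) 0 := fun s => by
    have := cmp_oneU (s := s) (s₀ := x) (s₁ := X.u₁) (v := x) (b := B.q g) (Γ := Γ) (D := D) (p := 0) (p' := 1)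
      hs (by simpa using hΓg)
    rw [this, Nat.cast_zero, neg_zero]
  obtain ⟨t1, t2⟩ := tk_tokU h hL a13 (CmpU D Γ x X.u₁ x (x * B.q g) 0 1)
    (fun s => by
      rw [hcmp]
      show (x⁻¹ * (s : Q) ∈ D ∧ inG Γ (z ^ 0 * (s : Q) * x⁻¹) 0) ↔ _
      rw [pow_zero, one_mul])
    (fun y hy s hs e => by
      rw [hcmp]
      have h1 : x⁻¹ * s ∈ D := by
        rw [Up.Dat.mk_iff, bot_mk h e, ← Up.Dat.mk_iff]
        exact hy.1
      refine ⟨h1, ?_⟩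
      rw [bot_pos h e h1]
      exact inG_lvl (inG_mul hy.2 (inG_inv (inG_pow1 hΓa (m + 1)))) (add_neg_cancel _))
  have hv : X.w₀ = U.U (z ^ m * (y : Q)) := by
    rw [a9, U_level (h.com h.hz) (pU_eq h hL)]
  refine ⟨m + 1, X, X.u₁, z ^ m * (y : Q), a2, ⟨hrect, by omega, a4, hu0, rfl, rfl, ?_, ?_, ?_, ?_, ?_,
    ?_, rfl, ?_, ?_, ?_, ?_⟩⟩
  · rw [pow_one, hu1]
  · rw [a8, a7]; rfl
  · rw [pow_one]; exact hv
  · show X.w₁ = z ^ m * (y : Q) * B.q g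
    rw [a10, pow_succ, mul_assoc, ← hPe y a3.1, mul_assoc]
  · rw [a11]; rfl
  · omega
  · rw [Nat.sub_zero, Nat.add_sub_cancel]; exact a3.2
  · rw [Nat.sub_zero, Nat.add_sub_cancel, inv_mul_cancel_left]
    exact a3.1
  · rw [hu0] at t1; exact t1
  · rw [hu0] at t2; exact t2

include h hL in
/-- Gadget for a label which goes down one level in its sheet. -/
theorem nat2U (x : Q) (hx : x ∈ L) (g : B.L) (hg : x⁻¹ * (U.U x * B.q g) ∈ D)
    (hne : (B.q g)⁻¹ ≠ B.q (U.up x)) :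
    ∃ (M : ℕ) (T : TW B) (v' : Q), M ≤ 2 * L.card.factorial ∧
      GadU U D z L g (lg (U.gen (U.U x)) 1 (U.U x * B.q g * (U.U x)⁻¹) (-1)) x (U.U x * B.q g) (U.U x) v' T M
        1 0 0 1 := by
  classical
  have hD : D.Normal := h.nrm
  set v := U.U x with hv
  set Γ := lg (U.gen v) 1 (v * B.q g * v⁻¹) (-1) with hΓ
  have hΓa : inG Γ (U.gen v) 1 := lg_left _ _ _ _
  have hΓg : inG Γ (v * B.q g * v⁻¹) (-1) := lg_right _ _ _ _
  set b : B.L := B.inv g with hb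
  have hqb : B.q b = (B.q g)⁻¹ := B.q_inv g
  have hΓb : inG Γ (v * B.q b * v⁻¹) 1 := by
    have := inG_inv hΓg
    have e : (v * B.q g * v⁻¹)⁻¹ = v * B.q b * v⁻¹ := by rw [hqb]; group
    rw [e] at this
    exact inG_lvl this (neg_neg _)
  set y₀ : Q := v * B.q g with hy₀
  have hy₀L : y₀ ∈ L := mem_of_mk hL hx (Up.Dat.mk_iff.1 hg)
  have hmg : QuotientGroup.mk' D x = QuotientGroup.mk' D z * QuotientGroup.mk' D x * QuotientGroup.mk' D (B.q g) := by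
    have := Up.Dat.mk_iff.1 hg
    rwa [map_mul, h.mk_U] at this
  have p3 : ∀ y, x⁻¹ * y ∈ D → x⁻¹ * (z⁻¹ * (y * B.q b)) ∈ D := fun y h => by
    rw [Up.Dat.mk_iff] at h ⊢
    rw [map_mul, map_mul, ← h, hqb, map_inv, map_inv]
    conv_rhs => rw [hmg]
    group
  obtain ⟨R, hR⟩ := sheetPerm hL x (fun y => z⁻¹ * (y * B.q b)) p3
    (fun _ _ h => mul_right_cancel (mul_left_cancel h))
  have hAD : ∀ y : L, x⁻¹ * (pU h hL y : Q) ∈ D ↔ x⁻¹ * (y : Q) ∈ D := fun y => by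
    rw [Up.Dat.mk_iff, Up.Dat.mk_iff, pU_mk]
  have hPe : ∀ y : L, x⁻¹ * (y : Q) ∈ D → (y : Q) * B.q b = z * (R y : Q) := by
    intro y hy
    rw [hR y hy, mul_inv_cancel_left]
  have hvx : v * x⁻¹ ∈ P := by
    have := h.gen_mem x
    exact this
  have hpos : ∀ y : Q, y * x⁻¹ ∈ P → y * v⁻¹ ∈ P := by
    intro y hy
    have := P.mul_mem hy (P.inv_mem hvx)
    have e : y * x⁻¹ * (v * x⁻¹)⁻¹ = y * v⁻¹ := by group
    rwa [e] at this
  -- positions with respect to `v`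
  have hposv : ∀ (l : ℕ) (y : L), x⁻¹ * (y : Q) ∈ D →
      z ^ (l + 1) * (pU h hL y : Q) * v⁻¹ = z ^ l * (y : Q) * v⁻¹ * U.gen v := by
    intro l y hy
    rw [← U_level (h.com h.hz) (pU_eq h hL) l y, h.U_of (hpos _ (h.pos_pow hy l))]
  set Dp : ℕ → L → Prop := fun l y => x⁻¹ * (y : Q) ∈ D ∧ inG Γ (z ^ l * (y : Q) * v⁻¹) ((l : ℤ) - 1) with hDp
  have hup : ∀ y : L, x⁻¹ * (y : Q) ∈ D → U.up (y : Q) = U.up x := fun y hy => h.up_of (h.pos_sheet hy)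
  obtain ⟨m, y, X, a1, a2, a3, a4, a5, a6, a7, a8, a9, a10, a11, a12, a13⟩ :=
    TG1 (z := z) (U := U) (b := b) (A := pU h hL) (P := R) (D := Dp)
      (h.com h.hz) (pU_eq h hL) (fun l y hy => hPe y hy.1)
      (fun l y hy => by
        refine ⟨(hAD y).2 hy.1, ?_⟩
        rw [hposv l y hy.1, Nat.cast_succ]
        exact inG_lvl (inG_mul hy.2 hΓa) (by ring))
      (fun l y hy => by
        rw [hDp]
        show x⁻¹ * (R y : Q) ∈ D ∧ inG Γ (z ^ (l + 1) * (R y : Q) * v⁻¹) (((l + 1 : ℕ) : ℤ) - 1)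
        rw [hR y hy.1]
        refine ⟨p3 _ hy.1, ?_⟩
        have e : z ^ (l + 1) * (z⁻¹ * ((y : Q) * B.q b)) * v⁻¹ = z ^ l * (y : Q) * v⁻¹ * (v * B.q b * v⁻¹) := by
          rw [pow_succ]; group
        rw [e, Nat.cast_succ]
        exact inG_lvl (inG_mul hy.2 hΓb) (by ring))
      (fun l y hy => by
        have h1 := (hAD y).1 hy.1
        refine ⟨h1, ?_⟩
        have h2 := hy.2
        rw [hposv l y h1, Nat.cast_succ] at h2
        exact (inG_mul_right hΓa).1 (inG_lvl h2 (by ring)))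
      (fun l y hy => by rw [hup y hy.1, hqb]; exact hne) ⟨y₀, hy₀L⟩
      ⟨hg, by
        show inG Γ (z ^ 0 * (v * B.q g) * v⁻¹) (((0 : ℕ) : ℤ) - 1)
        rw [pow_zero, one_mul, Nat.cast_zero, zero_sub]
        exact hΓg⟩
  have hrect : RectU U X (m + 1) := by
    refine ⟨?_, ?_⟩
    · rw [a4, a5, im_L h hL]
    · rw [a4, a12, lev_U h hL]
  have hu0 : X.u₀ = y₀ := a6
  have hu1 : X.u₁ = x := by
    apply U.U.injective
    rw [a7, pU_eq h hL, Equiv.apply_symm_apply]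
    have := hPe ⟨y₀, hy₀L⟩ hg
    rw [← this]
    show y₀ * B.q b = _
    rw [hqb, hy₀, mul_inv_cancel_right]
  have hw₁ : X.w₁ = z ^ m * (y : Q) * B.q b := by
    rw [a10, pow_succ, mul_assoc, ← hPe y a3.1, mul_assoc]
  have hw₀ : X.w₀ = U.U (z ^ m * (y : Q)) := by
    rw [a9, U_level (h.com h.hz) (pU_eq h hL)]
  have hw₁g : X.w₁ * B.q g = z ^ m * (y : Q) := by
    rw [hw₁, hqb, inv_mul_cancel_right]
  have hcmp : ∀ s, CmpU D Γ x y₀ v (v * B.q g) 1 0 s ↔ x⁻¹ * s ∈ D ∧ inG Γ (s * v⁻¹) (-1) := by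
    intro s
    have := cmp_oneU (s := s) (s₀ := x) (s₁ := y₀) (v := v) (b := B.q g) (Γ := Γ) (D := D) (p := 1) (p' := 0)
      hg (by simpa using hΓg)
    rw [this, Nat.cast_one]
  obtain ⟨t1, t2⟩ := tk_tokU h hL a13 (CmpU D Γ x y₀ v (v * B.q g) 1 0)
    (fun s => by
      rw [hcmp]
      show (x⁻¹ * (s : Q) ∈ D ∧ inG Γ (z ^ 0 * (s : Q) * v⁻¹) (((0 : ℕ) : ℤ) - 1)) ↔ _
      rw [pow_zero, one_mul, Nat.cast_zero, zero_sub])
    (fun y hy s hs e => by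
      rw [hcmp]
      have h1 : x⁻¹ * s ∈ D := by
        rw [Up.Dat.mk_iff, bot_mk h e, ← Up.Dat.mk_iff]
        exact hy.1
      refine ⟨h1, ?_⟩
      have h3 : s * v⁻¹ = z ^ (m + 1) * (y : Q) * v⁻¹ * (U.gen v ^ (m + 1))⁻¹ := by
        rw [← e, h.pow_of (hpos _ (h.pos_sheet h1)), mul_inv_cancel_right]
      rw [h3]
      exact inG_lvl (inG_mul hy.2 (inG_inv (inG_pow1 hΓa (m + 1)))) (by ring))
  rw [hu0, hu1] at t1 t2
  have hf : B.fin X.flipCup.u₀ [U.up x, g] = X.flipCup.u₁ := by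
    show X.u₁ * B.q (U.up x) * B.q g = X.u₀
    rw [hu1, hu0, ← U.hU]
  have hf2 : B.fin (X.flipCup.setCup [U.up x, g] hf).flipCap.w₀ [g, U.up (z ^ m * (y : Q))] =
      (X.flipCup.setCup [U.up x, g] hf).flipCap.w₁ := by
    show X.w₁ * B.q g * B.q (U.up (z ^ m * (y : Q))) = X.w₀
    rw [hw₀, hw₁g, ← U.hU]
  refine ⟨m + 1, (X.flipCup.setCup [U.up x, g] hf).flipCap.setCap [g, U.up (z ^ m * (y : Q))] hf2, X.w₁, a2,
    ⟨?_, by omega, a4, hu1, hu0, ?_, rfl, rfl, rfl, ?_, ?_, ?_, rfl, ?_, ?_, ?_, ?_⟩⟩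
  · refine ⟨hrect.top, ?_⟩
    rw [TW.setCap_R, TW.flipCap_R, TW.setCup_R, TW.flipCup_R]
    · exact hrect.reg
    · show B.verts X.u₁ [U.up x, g] = B.verts X.u₁ (B.rev X.cup)
      rw [a8]
      have e1 : ((pU h hL).symm (R ⟨y₀, hy₀L⟩) : Q) = x := by rw [← a7, hu1]
      rw [e1]
      show [X.u₁, X.u₁ * B.q (U.up x), X.u₁ * B.q (U.up x) * B.q g] =
        [X.u₁, X.u₁ * B.q (B.inv (B.inv (U.up x))), X.u₁ * B.q (B.inv (B.inv (U.up x))) * B.q (B.inv (B.inv g))]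
      rw [q_inv_inv, q_inv_inv]
    · show B.verts X.w₁ [g, U.up (z ^ m * (y : Q))] = B.verts X.w₁ (B.rev X.cap)
      rw [a11]
      show [X.w₁, X.w₁ * B.q g, X.w₁ * B.q g * B.q (U.up (z ^ m * (y : Q)))] =
        [X.w₁, X.w₁ * B.q (B.inv (B.inv g)), X.w₁ * B.q (B.inv (B.inv g)) * B.q (B.inv (B.inv (U.up (z ^ m * (y : Q)))))]
      rw [q_inv_inv, q_inv_inv]
  · rw [pow_one]
  · show X.w₀ = (U.U ^ 1) (X.w₁ * B.q g)
    rw [pow_one, hw₁g, hw₀]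
  · show [g, U.up (z ^ m * (y : Q))] = [g, U.up (X.w₁ * B.q g)]
    rw [hw₁g]
  · omega
  · have e : X.w₁ * v⁻¹ = z ^ m * (y : Q) * v⁻¹ * (v * B.q b * v⁻¹) := by
      rw [hw₁]; group
    rw [e, show m + 1 - 1 - 0 = m by omega]
    exact inG_lvl (inG_mul a3.2 hΓb) (by ring)
  · rw [show m + 1 - 1 - 0 = m by omega, hw₁]
    have h4 := a3.1
    rw [Up.Dat.mk_iff] at h4 ⊢
    rw [map_mul, map_inv, map_mul, map_mul, map_pow, mul_assoc, inv_mul_cancel_left, ← h4, hv, h.mk_U, hqb,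
      map_inv, eq_mul_inv_iff_mul_eq]
    exact hmg.symm
  · exact fun s h h0 h1 hc => t1 s h h1 h0 hc
  · exact fun s h h0 h1 hc => t2 s h h1 h0 hc

end Pool.Agent.Lib.MP_688fd0_co.SQ3
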