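import Pool.Agent.Lib.MP_688fd0_co.SQ3.H98.Gad

/-!
Gadgets between two sheets.
-/

set_option autoImplicit false

namespace Pool.Agent.Lib.MP_688fd0_co.SQ3

open Pool.Agent.Lib.MP_688fd0_co.OSF Pool.Agent.Lib.MP_688fd0_co.SQ2 Finset

universe u v w

variable {Q : Type u} [Group Q] [DecidableEq Q] {B : Lb.{u, v} Q} {U : Up B} {P D : Subgroup Q} {z : Q}
  (h : U.Dat P D z) {L : Finset Q} (hL : ∀ y ∈ L, ∀ d ∈ D, y * d ∈ L)

include h hL in
/-- Gadget for a label outside `D` with both sheets in the frontier. -/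
theorem natLU (x : Q) (hx : x ∈ L) (g : B.L) (hgD : B.q g ∉ D) (hxg : x * B.q g ∈ L) :
    ∃ (M : ℕ) (T : TW B) (v' : Q), M ≤ L.card.factorial ∧
      GadU U D z L g (lg (U.gen x) 1 (U.gen (x * B.q g)) 1) x (x * B.q g) x v' T M 0 0 0 0 := by
  classical
  have hD : D.Normal := h.nrm
  set w := x * B.q g with hw
  set Γ := lg (U.gen x) 1 (U.gen w) 1 with hΓ
  have hΓa : inG Γ (U.gen x) 1 := lg_left _ _ _ _
  have hΓc : inG Γ (U.gen w) 1 := lg_right _ _ _ _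
  have mkw : QuotientGroup.mk' D w = QuotientGroup.mk' D x * QuotientGroup.mk' D (B.q g) := map_mul _ _ _
  set φ : Q → Q := fun y => if x⁻¹ * y ∈ D then y * B.q g else if w⁻¹ * y ∈ D then
    y * (B.q g)⁻¹ else y with hφ
  have ex : ∀ y, x⁻¹ * y ∈ D → w⁻¹ * y ∉ D := by
    intro y h h'
    apply hgD
    rw [Up.Dat.mk_iff] at h h'
    rw [← h, mkw] at h'
    have := mul_eq_left.1 h'
    exact (QuotientGroup.eq_one_iff _).1 this
  have p1 : ∀ y, x⁻¹ * y ∈ D → φ y = y * B.q g := fun y h => if_pos h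
  have p2 : ∀ y, w⁻¹ * y ∈ D → φ y = y * (B.q g)⁻¹ := fun y h => by
    have h' : x⁻¹ * y ∉ D := fun h2 => ex y h2 h
    show (if _ then _ else _) = _
    rw [if_neg h', if_pos h]
  have p3 : ∀ y, x⁻¹ * y ∉ D → w⁻¹ * y ∉ D → φ y = y := fun y h h' => by
    show (if _ then _ else _) = _
    rw [if_neg h, if_neg h']
  have n1 : ∀ y, x⁻¹ * y ∈ D → w⁻¹ * (y * B.q g) ∈ D := fun y h => by
    rw [Up.Dat.mk_iff] at h ⊢
    rw [mkw, map_mul, h]
  have n2 : ∀ y, w⁻¹ * y ∈ D → x⁻¹ * (y * (B.q g)⁻¹) ∈ D := fun y h => by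
    rw [Up.Dat.mk_iff] at h ⊢
    rw [map_mul, ← h, mkw, map_inv, mul_inv_cancel_right]
  have inv : ∀ y, φ (φ y) = y := by
    intro y
    by_cases h : x⁻¹ * y ∈ D
    · rw [p1 y h, p2 _ (n1 y h)]; group
    · by_cases h' : w⁻¹ * y ∈ D
      · rw [p2 y h', p1 _ (n2 y h')]; group
      · rw [p3 y h h', p3 y h h']
  have m1 : ∀ y ∈ L, φ y ∈ L := by
    intro y hy
    by_cases h : x⁻¹ * y ∈ D
    · rw [p1 y h]
      exact mem_of_mk hL hxg (Up.Dat.mk_iff.1 (n1 y h))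
    · by_cases h' : w⁻¹ * y ∈ D
      · rw [p2 y h']
        exact mem_of_mk hL hx (Up.Dat.mk_iff.1 (n2 y h'))
      · rw [p3 y h h']; exact hy
  have m2 : ∀ y ∈ L, ∀ y' ∈ L, φ y = φ y' → y = y' := by
    intro y _ y' _ he
    rw [← inv y, he, inv y']
  set R := permOf φ m1 m2 with hR
  set Dp : ℕ → L → Prop := fun l y => (x⁻¹ * (y : Q) ∈ D ∧ inG Γ (z ^ l * (y : Q) * x⁻¹) l) ∨
    (w⁻¹ * (y : Q) ∈ D ∧ inG Γ (z ^ l * (y : Q) * w⁻¹) l) with hDp
  have hAD : ∀ (x' : Q) (y : L), x'⁻¹ * (pU h hL y : Q) ∈ D ↔ x'⁻¹ * (y : Q) ∈ D := fun x' y => by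
    rw [Up.Dat.mk_iff, Up.Dat.mk_iff, pU_mk]
  have hPn : ∀ y : L, x⁻¹ * (y : Q) ∈ D → (R y : Q) = (y : Q) * B.q g := fun y h => p1 _ h
  have hPf : ∀ y : L, w⁻¹ * (y : Q) ∈ D → (R y : Q) = (y : Q) * (B.q g)⁻¹ := fun y h => p2 _ h
  set ℓ : L → B.L := fun y => if x⁻¹ * (y : Q) ∈ D then g else B.inv g with hℓ
  have hln : ∀ y : L, x⁻¹ * (y : Q) ∈ D → ℓ y = g := fun y h => if_pos h
  have hlf : ∀ y : L, w⁻¹ * (y : Q) ∈ D → ℓ y = B.inv g := fun y h => if_neg (fun h2 => ex _ h2 h)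
  obtain ⟨m, y, X, a1, a2, a3, a4, a5, a6, a7, a8, a9, a10, a11, a12, a13⟩ :=
    TG0 (z := z) (U := U) (A := pU h hL) (P := R) (ℓ := ℓ) (D := Dp)
      (h.com h.hz) (pU_eq h hL)
      (fun l y hy => by
        rcases hy with hy | hy
        · rw [hPn y hy.1, hln y hy.1]
        · rw [hPf y hy.1, hlf y hy.1, B.q_inv])
      (fun l y hy => by
        rcases hy with hy | hy
        · left
          refine ⟨(hAD _ y).2 hy.1, ?_⟩
          rw [pU_pos h hL y hy.1, Nat.cast_succ]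
          exact inG_mul hy.2 hΓa
        · right
          refine ⟨(hAD _ y).2 hy.1, ?_⟩
          rw [pU_pos h hL y hy.1, Nat.cast_succ]
          exact inG_mul hy.2 hΓc)
      (fun l y hy => by
        rcases hy with hy | hy
        · right
          rw [hPn y hy.1]
          refine ⟨n1 _ hy.1, ?_⟩
          have : z ^ l * ((y : Q) * B.q g) * w⁻¹ = z ^ l * (y : Q) * x⁻¹ := by rw [hw]; group
          rw [this]; exact hy.2
        · left
          rw [hPf y hy.1]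
          refine ⟨n2 _ hy.1, ?_⟩
          have : z ^ l * ((y : Q) * (B.q g)⁻¹) * x⁻¹ = z ^ l * (y : Q) * w⁻¹ := by rw [hw]; group
          rw [this]; exact hy.2)
      (fun l y hy => by
        rcases hy with hy | hy
        · left
          have h1 := (hAD _ y).1 hy.1
          refine ⟨h1, ?_⟩
          have h2 := hy.2
          rw [pU_pos h hL y h1, Nat.cast_succ] at h2
          exact (inG_mul_right hΓa).1 h2
        · right
          have h1 := (hAD _ y).1 hy.1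
          refine ⟨h1, ?_⟩
          have h2 := hy.2
          rw [pU_pos h hL y h1, Nat.cast_succ] at h2
          exact (inG_mul_right hΓc).1 h2)
      ⟨x, hx⟩ (Or.inl ⟨by simp, by simpa using inG_one⟩)
  have hrect : RectU U X m := by
    refine ⟨?_, ?_⟩
    · rw [a4, a5, im_L h hL]
    · rw [a4, a12, lev_U h hL]
  have hu0 : X.u₀ = x := a6
  have hu1 : X.u₁ = w := by rw [a7]; exact p1 x (by simp)
  have hcup : X.cup = [g] := by rw [a8, hln ⟨x, hx⟩ (by simp)]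
  obtain ⟨t1, t2⟩ := tk_tokU h hL a13 (CmpU D Γ x w x w 0 0)
    (fun s => by
      show ((x⁻¹ * (s : Q) ∈ D ∧ inG Γ (z ^ 0 * (s : Q) * x⁻¹) 0) ∨
        (w⁻¹ * (s : Q) ∈ D ∧ inG Γ (z ^ 0 * (s : Q) * w⁻¹) 0)) ↔ _
      rw [pow_zero, one_mul]
      unfold CmpU
      rw [Nat.cast_zero, neg_zero])
    (fun y hy s hs e => by
      rcases hy with ⟨h1, h2⟩ | ⟨h1, h2⟩
      · left
        have h3 : x⁻¹ * s ∈ D := by
          rw [Up.Dat.mk_iff, bot_mk h e, ← Up.Dat.mk_iff]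
          exact h1
        refine ⟨h3, ?_⟩
        rw [bot_pos h e h3]
        exact inG_lvl (inG_mul h2 (inG_inv (inG_pow1 hΓa m))) (add_neg_cancel _)
      · right
        have h3 : w⁻¹ * s ∈ D := by
          rw [Up.Dat.mk_iff, bot_mk h e, ← Up.Dat.mk_iff]
          exact h1
        refine ⟨h3, ?_⟩
        rw [bot_pos h e h3]
        exact inG_lvl (inG_mul h2 (inG_inv (inG_pow1 hΓc m))) (add_neg_cancel _))
  rw [hu0, hu1] at t1 t2
  rcases a3 with h3 | h3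
  · refine ⟨m, X, X.w₀, a2, ⟨hrect, by omega, a4, hu0, hu1, rfl, rfl, hcup, rfl, ?_, ?_, ?_, rfl, ?_, ?_, t1,
      t2⟩⟩
    · show X.w₁ = X.w₀ * B.q g
      rw [a10, a9, hPn y h3.1, mul_assoc]
    · rw [a11, hln y h3.1]; rfl
    · omega
    · rw [a9, Nat.sub_zero, Nat.sub_zero]; exact h3.2
    · rw [a9, Nat.sub_zero, Nat.sub_zero, inv_mul_cancel_left]
      exact h3.1
  · have hw1 : X.w₁ = z ^ m * (y : Q) * (B.q g)⁻¹ := by
      rw [a10, hPf y h3.1, mul_assoc]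
    have hf : B.fin X.flipCap.w₀ [g] = X.flipCap.w₁ := by
      show X.w₁ * B.q g = X.w₀
      rw [hw1, a9, inv_mul_cancel_right]
    refine ⟨m, X.flipCap.setCap [g] hf, X.w₁, a2,
      ⟨?_, by omega, a4, hu0, hu1, rfl, rfl, hcup, rfl, hf.symm, rfl, ?_, rfl, ?_, ?_, t1, t2⟩⟩
    · refine ⟨hrect.top, ?_⟩
      rw [TW.setCap_R, TW.flipCap_R]
      · exact hrect.reg
      · show B.verts X.w₁ [g] = B.verts X.w₁ (B.rev X.cap)
        rw [a11, hlf y h3.1]
        show [X.w₁, X.w₁ * B.q g] = [X.w₁, X.w₁ * B.q (B.inv (B.inv g))]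
        rw [q_inv_inv]
    · omega
    · have : X.w₁ * x⁻¹ = z ^ m * (y : Q) * w⁻¹ := by
        rw [hw1, hw]; group
      rw [this, Nat.sub_zero, Nat.sub_zero]
      exact h3.2
    · rw [Nat.sub_zero, Nat.sub_zero, hw1, mul_assoc (z ^ m), inv_mul_cancel_left]
      exact n2 _ h3.1

end Pool.Agent.Lib.MP_688fd0_co.SQ3
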