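import Pool.Agent.Lib.MP_688fd0_co.SQ3.H98.GadL

/-!
Gadgets for all labels, with offsets.
-/

set_option autoImplicit false

namespace Pool.Agent.Lib.MP_688fd0_co.SQ3

open Pool.Agent.Lib.MP_688fd0_co.OSF Pool.Agent.Lib.MP_688fd0_co.SQ2 Finset

universe u v w

variable {Q : Type u} [Group Q] [DecidableEq Q] {B : Lb.{u, v} Q} {U : Up B} {P D : Subgroup Q} {z : Q}
  (h : U.Dat P D z) {F : Finset Q} (hF : ∀ y ∈ F, ∀ d ∈ D, y * d ∈ F)

omit [DecidableEq Q] in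
include h in
/-- Positions with respect to a vertex above the sheet. -/
theorem pos_above {s₀ s : Q} (k : ℕ) (hs : s₀⁻¹ * s ∈ D) : s * ((U.U ^ k) s₀)⁻¹ ∈ P := by
  have h1 := h.pos_sheet hs
  have h2 := h.zpow_gen s₀ k
  rw [zpow_natCast, zpow_natCast] at h2
  have h3 := P.mul_mem h1 (P.inv_mem (P.pow_mem (h.gen_mem s₀) k))
  have e : s * s₀⁻¹ * (U.gen s₀ ^ k)⁻¹ = s * ((U.U ^ k) s₀)⁻¹ := by rw [h2]; group
  rwa [e] at h3

include h hF in
/-- Gadget between two sheets at distance `j`. -/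
theorem gadOffU (s₀ : Q) (hs₀ : s₀ ∈ F) (g : B.L) (j : ℤ)
    (hj : ∀ x ∈ F, ∀ y ∈ F, y = (U.U ^ j) x → j = 0)
    (hg : (U.U ^ (-j)) (s₀ * B.q g) ∈ F) (hgD : s₀⁻¹ * (U.U ^ (-j)) (s₀ * B.q g) ∉ D) :
    ∃ (M : ℕ) (T : TW B) (v' : Q), M ≤ F.card.factorial + 2 * j.natAbs ∧
      GadU U D z F g (lg (U.gen ((U.U ^ j.natAbs) s₀)) 1 (U.gen ((U.U ^ j.natAbs) s₀ * B.q g)) 1) s₀
        ((U.U ^ (j.natAbs + j).toNat)⁻¹ ((U.U ^ j.natAbs) s₀ * B.q g)) ((U.U ^ j.natAbs) s₀) v' T M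
        j.natAbs (j.natAbs + j).toNat j.natAbs (j.natAbs - j).toNat := by
  classical
  have hD : D.Normal := h.nrm
  set k := j.natAbs with hk
  set k' := ((k : ℤ) + j).toNat with hk'
  set q' := ((k : ℤ) - j).toNat with hq'
  have ek' : (k' : ℤ) = k + j := by omega
  have eq' : (q' : ℤ) = k - j := by omega
  have esum : k' + q' = 2 * k := by omega
  set v := (U.U ^ k) s₀ with hv
  set w := v * B.q g with hw
  set s₁ := (U.U ^ k')⁻¹ w with hs₁
  have hs₁w : (U.U ^ k') s₁ = w := by rw [hs₁]; simp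
  have minv : ∀ (n : ℕ) (x : Q), QuotientGroup.mk' D ((U.U ^ n)⁻¹ x) =
      (QuotientGroup.mk' D z ^ n)⁻¹ * QuotientGroup.mk' D x := by
    intro n x
    have h1 := h.mk_pow n ((U.U ^ n)⁻¹ x)
    have h2 : (U.U ^ n) ((U.U ^ n)⁻¹ x) = x := by simp
    rw [h2] at h1
    rw [h1, inv_mul_cancel_left]
  have mv : QuotientGroup.mk' D v = QuotientGroup.mk' D z ^ k * QuotientGroup.mk' D s₀ := h.mk_pow k s₀
  have mw : QuotientGroup.mk' D w = QuotientGroup.mk' D v * QuotientGroup.mk' D (B.q g) := map_mul _ _ _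
  have ms₁ : QuotientGroup.mk' D s₁ = (QuotientGroup.mk' D z ^ k')⁻¹ * QuotientGroup.mk' D w := minv k' w
  -- the far sheet
  have hs₁g : QuotientGroup.mk' D ((U.U ^ (-j)) (s₀ * B.q g)) = QuotientGroup.mk' D s₁ := by
    rw [h.mk_zpow, ms₁, mw, mv, map_mul, ← zpow_natCast, ← zpow_natCast, ek']
    group
  have hs₁F : s₁ ∈ F := mem_of_mk hF hg hs₁g
  have hgD' : B.q g ∉ D := by
    intro hh
    have h0 : QuotientGroup.mk' D (B.q g) = 1 := (QuotientGroup.eq_one_iff _).2 hh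
    have h1 : (U.U ^ (-j)) s₀ ∈ F := by
      refine mem_of_mk hF hg ?_
      rw [h.mk_zpow, h.mk_zpow, map_mul, h0, mul_one]
    have h3 := hj _ h1 _ hs₀ (by rw [zpow_neg]; simp)
    apply hgD
    rw [h3, neg_zero, zpow_zero]
    show s₀⁻¹ * (s₀ * B.q g) ∈ D
    rw [inv_mul_cancel_left]
    exact hh
  have hfar : s₁⁻¹ * s₀ ∉ D := by
    intro hh
    apply hgD
    rw [Up.Dat.mk_iff] at hh ⊢
    rw [hs₁g, hh]
  -- the heights
  set σ : Q → ℕ := fun y => if s₁⁻¹ * y ∈ D then k' else k with hσ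
  have σf : ∀ y, s₁⁻¹ * y ∈ D → σ y = k' := fun y h => if_pos h
  have σn : ∀ y, s₁⁻¹ * y ∉ D → σ y = k := fun y h => if_neg h
  have σm : ∀ y y' : Q, QuotientGroup.mk' D y = QuotientGroup.mk' D y' → σ y = σ y' := by
    intro y y' e
    by_cases h : s₁⁻¹ * y ∈ D
    · rw [σf y h, σf]
      rw [Up.Dat.mk_iff] at h ⊢
      rw [h, e]
    · rw [σn y h, σn]
      rw [Up.Dat.mk_iff] at h ⊢
      rw [← e]; exact h
  have σ0 : σ s₀ = k := σn _ hfar
  have σ1 : σ s₁ = k' := σf _ (by simp)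
  have hjk : ∀ y ∈ F, ∀ y' ∈ F, (U.U ^ k') y = (U.U ^ k) y' → k = k' ∧ y = y' := by
    intro y hy y' hy' e0
    have e : y' = (U.U ^ j) y := by
      have e1 : (k' : ℤ) = k + j := ek'
      have e2 : (U.U ^ k') y = (U.U ^ k) ((U.U ^ j) y) := by
        rw [← zpow_natCast, e1, zpow_add, zpow_natCast]; rfl
      rw [e2] at e0
      exact ((U.U ^ k).injective e0).symm
    have h0 := hj _ hy _ hy' e
    have h1 : k = k' := by omega
    refine ⟨h1, ?_⟩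
    rw [← h1] at e0
    exact (U.U ^ k).injective e0
  have hinj : ∀ y ∈ F, ∀ y' ∈ F, (U.U ^ σ y) y = (U.U ^ σ y') y' → y = y' := by
    intro y hy y' hy' h
    by_cases c : s₁⁻¹ * y ∈ D <;> by_cases c' : s₁⁻¹ * y' ∈ D
    · rw [σf y c, σf y' c'] at h; exact (U.U ^ k').injective h
    · rw [σf y c, σn y' c'] at h; exact (hjk y hy y' hy' h).2
    · rw [σn y c, σf y' c'] at h; exact (hjk y' hy' y hy h.symm).2.symm
    · rw [σn y c, σn y' c'] at h; exact (U.U ^ k).injective h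
  set L := F.image (fun y => (U.U ^ σ y) y) with hLd
  have hmem : ∀ y ∈ F, (U.U ^ σ y) y ∈ L := fun y hy => Finset.mem_image_of_mem _ hy
  have hex : ∀ x ∈ L, ∃ y ∈ F, (U.U ^ σ y) y = x := fun x hx => Finset.mem_image.1 hx
  have hcard : L.card ≤ F.card := Finset.card_image_le
  have hL : ∀ y ∈ L, ∀ d ∈ D, y * d ∈ L := by
    intro y hy d hd
    obtain ⟨y', h1, h2⟩ := hex y hy
    have h3 : QuotientGroup.mk' D y' = QuotientGroup.mk' D ((U.U ^ σ y')⁻¹ (y * d)) := by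
      have h4 : QuotientGroup.mk' D d = 1 := (QuotientGroup.eq_one_iff _).2 hd
      rw [minv, map_mul, h4, mul_one, ← h2, h.mk_pow, inv_mul_cancel_left]
    have h5 := hmem _ (mem_of_mk hF h1 h3)
    rw [← σm _ _ h3] at h5
    have h6 : (U.U ^ σ y') ((U.U ^ σ y')⁻¹ (y * d)) = y * d := by simp
    rwa [h6] at h5
  have hvL : v ∈ L := by
    have := hmem _ hs₀
    rwa [σ0] at this
  have hwL : w ∈ L := by
    have := hmem _ hs₁F
    rwa [σ1, hs₁w] at this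
  obtain ⟨m, X, v', b1, G⟩ := natLU h hL v hvL g hgD' hwL
  set Γ := lg (U.gen v) 1 (U.gen w) 1 with hΓ
  have hΓa : inG Γ (U.gen v) 1 := lg_left _ _ _ _
  have hΓc : inG Γ (U.gen w) 1 := lg_right _ _ _ _
  have hlvl : v⁻¹ * ((z ^ m)⁻¹ * v') ∈ D := by
    have := G.lvl
    rwa [Nat.sub_zero, Nat.sub_zero] at this
  have mv' : QuotientGroup.mk' D v' = QuotientGroup.mk' D z ^ m * QuotientGroup.mk' D v := by
    rw [Up.Dat.mk_iff.1 hlvl, map_mul, map_inv, map_pow, mul_inv_cancel_left]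
  -- the component
  have hcmp : ∀ s ∈ F, CmpU D Γ s₀ s₁ v w k k' s ↔ CmpU D Γ v w v w 0 0 ((U.U ^ σ s) s) := by
    intro s hs
    have n1 : s₀⁻¹ * s ∈ D → s₁⁻¹ * s ∉ D := by
      intro h h2
      apply hfar
      rw [Up.Dat.mk_iff] at h h2 ⊢
      rw [h2, h]
    have c1 : v⁻¹ * (U.U ^ k) s ∈ D ↔ s₀⁻¹ * s ∈ D := by
      rw [Up.Dat.mk_iff, Up.Dat.mk_iff, mv, h.mk_pow, mul_right_inj]
    have c2 : s₀⁻¹ * s ∈ D → (inG Γ ((U.U ^ k) s * v⁻¹) (-((0 : ℕ) : ℤ)) ↔ inG Γ (s * v⁻¹) (-(k : ℤ))) := by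
      intro h1
      rw [h.pow_of (pos_above h k h1), ← inG_mul_right (x := s * v⁻¹) (m := -(k : ℤ)) (inG_pow1 hΓa k),
        neg_add_cancel, Nat.cast_zero, neg_zero]
    have d1 : w⁻¹ * (U.U ^ k') s ∈ D ↔ s₁⁻¹ * s ∈ D := by
      rw [Up.Dat.mk_iff, Up.Dat.mk_iff, h.mk_pow, ms₁, inv_mul_eq_iff_eq_mul]
    have d2 : s₁⁻¹ * s ∈ D → (inG Γ ((U.U ^ k') s * w⁻¹) (-((0 : ℕ) : ℤ)) ↔ inG Γ (s * w⁻¹) (-(k' : ℤ))) := by
      intro h1
      have h2 := pos_above h k' h1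
      rw [hs₁w] at h2
      rw [h.pow_of h2, ← inG_mul_right (x := s * w⁻¹) (m := -(k' : ℤ)) (inG_pow1 hΓc k'),
        neg_add_cancel, Nat.cast_zero, neg_zero]
    unfold CmpU
    by_cases hsf : s₁⁻¹ * s ∈ D
    · rw [σf s hsf, d1, d2 hsf]
      have hn : s₀⁻¹ * s ∉ D := fun h => n1 h hsf
      have hn' : v⁻¹ * (U.U ^ k') s ∉ D := by
        intro hh
        apply hgD'
        have h2 := d1.2 hsf
        rw [Up.Dat.mk_iff] at hh h2
        rw [← hh, mw] at h2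
        exact (QuotientGroup.eq_one_iff _).1 (mul_eq_left.1 h2)
      constructor
      · rintro (h | h)
        · exact absurd h.1 hn
        · exact Or.inr h
      · rintro (h | h)
        · exact absurd h.1 hn'
        · exact Or.inr h
    · rw [σn s hsf, c1]
      have hn' : w⁻¹ * (U.U ^ k) s ∉ D := by
        intro hh
        have h1 : QuotientGroup.mk' D s₁ = QuotientGroup.mk' D ((U.U ^ k')⁻¹ ((U.U ^ k) s)) := by
          rw [minv k' ((U.U ^ k) s), ← Up.Dat.mk_iff.1 hh, ms₁]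
        have h2 := mem_of_mk hF hs₁F h1
        obtain ⟨h3, h4⟩ := hjk _ h2 _ hs (by simp)
        apply hsf
        rw [Up.Dat.mk_iff, h1, h4]
      constructor
      · rintro (⟨h1, h2⟩ | h)
        · exact Or.inl ⟨h1, (c2 h1).2 h2⟩
        · exact absurd h.1 hsf
      · rintro (⟨h1, h2⟩ | h)
        · exact Or.inl ⟨h1, (c2 h1).1 h2⟩
        · exact absurd h.1 hn'
  -- the rectangular window
  set y₀ := (U.U ^ (k + m))⁻¹ v' with hy₀
  set y₁ := (U.U ^ (k' + m))⁻¹ (v' * B.q g) with hy₁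
  have hy₀m : QuotientGroup.mk' D s₀ = QuotientGroup.mk' D y₀ := by
    rw [hy₀, minv (k + m), mv', mv, add_comm k m, pow_add]
    group
  have hy₀F : y₀ ∈ F := mem_of_mk hF hs₀ hy₀m
  have hy₀σ : σ y₀ = k := by rw [← σm _ _ hy₀m, σ0]
  have hy₀u : (U.U ^ (k + m)) y₀ = v' := by rw [hy₀]; simp
  have hy₁m : QuotientGroup.mk' D s₁ = QuotientGroup.mk' D y₁ := by
    rw [hy₁, minv (k' + m), ms₁, mw, map_mul, mv', add_comm k' m, pow_add]
    group
  have hy₁F : y₁ ∈ F := mem_of_mk hF hs₁F hy₁m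
  have hy₁σ : σ y₁ = k' := by rw [← σm _ _ hy₁m, σ1]
  have hy₁u : (U.U ^ (k' + m)) y₁ = v' * B.q g := by rw [hy₁]; simp
  have hXw₀ : X.w₀ = v' := G.w₀
  have hXw₁ : X.w₁ = v' * B.q g := G.w₁
  have hXL : X.L₀ = L := G.L₀
  obtain ⟨Y, c1, c2, c3, c4, c5, c6, c7, c8, c9⟩ := rectU U X m G.rect F σ (m + 2 * k)
    (fun y hy => by rw [hXL]; exact hmem y hy) hinj (fun x hx => hex x (hXL ▸ hx))
    (fun y _ => by
      by_cases h : s₁⁻¹ * y ∈ D
      · rw [σf y h]; omega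
      · rw [σn y h]; omega)
    s₀ s₁ y₀ y₁ hs₀ hs₁F hy₀F hy₁F
    (by rw [σ0, G.u₀]) (by rw [σ1, G.u₁]; exact hs₁w)
    (by rw [hy₀σ, hXw₀, hy₀u]) (by rw [hy₁σ, hXw₁, hy₁u])
  have hM : m + 2 * k - m - k = k := by omega
  have hM' : m + 2 * k - m - k' = q' := by omega
  have hpos := G.pos
  refine ⟨m + 2 * k, Y, v', ?_, ⟨c1, by omega, c2, c3, c4, rfl, ?_, ?_, ?_, ?_, ?_, by omega, by omega, ?_, ?_,
    ?_, ?_⟩⟩
  · have := b1.trans (Nat.factorial_le hcard)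
    omega
  · exact hs₁w.symm
  · rw [c7, σ0, σ1, G.cup]
    rfl
  · rw [c5, show m + 2 * k = (k + m) + k by ring, U.U_pow_add, hy₀u]
  · rw [c6, show m + 2 * k = (k' + m) + q' by omega, U.U_pow_add, hy₁u]
  · rw [c8, hy₀σ, hy₁σ, hM, hM', G.cap, hXw₀, hXw₁]
    rfl
  · rw [show m + 2 * k - k - k = m by omega]
    exact G.gam
  · rw [show m + 2 * k - k - k = m by omega]
    exact hlvl
  · intro s hs h0 h1 hc
    have hx0 : (U.U ^ σ s) s ≠ v := by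
      intro h
      apply h0
      exact hinj _ hs _ hs₀ (by rw [h, σ0])
    have hx1 : (U.U ^ σ s) s ≠ w := by
      intro h
      apply h1
      exact hinj _ hs _ hs₁F (by rw [h, σ1, hs₁w])
    obtain ⟨x', e1, e2, e3⟩ := G.tok _ (hmem s hs) hx0 hx1 ((hcmp s hs).1 hc)
    obtain ⟨s', e4, e5⟩ := hex x' e1
    rw [← e5] at e2 e3
    rw [← U.U_pow_add] at e3
    exact ⟨s', e4, (hcmp s' e4).2 e2, (c9 s hs h0 h1 s' e4 e3).1⟩
  · intro s hs h0 h1 hc
    have hx0 : (U.U ^ σ s) s ≠ v := by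
      intro h
      apply h0
      exact hinj _ hs _ hs₀ (by rw [h, σ0])
    have hx1 : (U.U ^ σ s) s ≠ w := by
      intro h
      apply h1
      exact hinj _ hs _ hs₁F (by rw [h, σ1, hs₁w])
    obtain ⟨e1, e2⟩ := G.out _ (hmem s hs) hx0 hx1 (fun h => hc ((hcmp s hs).2 h))
    rw [← U.U_pow_add] at e1
    obtain ⟨e3, e4⟩ := c9 s hs h0 h1 s hs e1
    refine ⟨e3, ?_⟩
    have e5 : σ s ≤ 2 * k := by
      by_cases h : s₁⁻¹ * s ∈ D
      · rw [σf s h]; omega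
      · rw [σn s h]; omega
    rw [e4, e2, ← U.str_add, ← U.str_add]
    congr 1
    omega

end Pool.Agent.Lib.MP_688fd0_co.SQ3
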