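import Pool.Agent.Lib.MP_688fd0_co.SQ3.H98.KM

/-!
Chapter V, type C1: Lemmas A and B for a closed class `K` of caps, in the language of walks.
-/

set_option autoImplicit false

namespace Pool.Agent.Lib.MP_688fd0_co.SQ2.V

namespace Puz

/-- Weights of the rungs with constant sum at every strand. -/
def Wt {S R : Type} [DecidableEq S] [Fintype R] (P : Puz S R) (F : Type) [Field F] : Prop :=
  ∃ (wt : R → F) (δ : F), δ ≠ 0 ∧ ∀ L, (∑ r, if P.On r L then wt r else 0) = δ

/-- Constant degree. -/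
theorem Wt.of_deg {S R : Type} [DecidableEq S] [Fintype R] {P : Puz S R} {F : Type} [Field F]
    (h : ∃ δ : ℕ, (δ : F) ≠ 0 ∧ ∀ L, {r | P.On r L}.ncard = δ) : P.Wt F := by
  classical
  obtain ⟨δ, h1, h2⟩ := h
  refine ⟨fun _ => 1, δ, h1, fun L => ?_⟩
  rw [← Finset.sum_filter, Finset.sum_const, nsmul_eq_mul, mul_one, ← h2 L, Set.ncard_eq_toFinset_card']
  congr 2
  ext r
  simp

/-- The sum of the values at the ends of a rung does not vanish. -/
theorem Wt.mu_ne {S R : Type} [Fintype S] [DecidableEq S] [Fintype R] {P : Puz S R} {F : Type} [Field F]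
    (hδ : P.Wt F) (M : S → F) (c : F) (hc : c ≠ 0)
    (h : ∀ r, (∑ L, if P.On r L then (0 : F) else M L) = c) (r : R) : M (P.x r) + M (P.y r) ≠ 0 := by
  classical
  intro h0
  have hsplit := VAp.split P M c h
  have hall : ∀ r', M (P.x r') + M (P.y r') = 0 := by
    intro r'
    have h1 := hsplit r'
    rw [← hsplit r, h0] at h1
    exact add_right_cancel h1
  obtain ⟨wt, δ, hδ0, hδ1⟩ := hδ
  have hcount : ∑ r', wt r' * (M (P.x r') + M (P.y r')) = δ * ∑ L, M L := by
    have h1 : ∀ r', wt r' * (M (P.x r') + M (P.y r')) = ∑ L, if P.On r' L then wt r' * M L else 0 := by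
      intro r'
      rw [← VB.sum_on P M r', Finset.mul_sum]
      refine Finset.sum_congr rfl fun L _ => ?_
      by_cases ho : P.On r' L
      · rw [if_pos ho, if_pos ho]
      · rw [if_neg ho, if_neg ho, mul_zero]
    rw [Finset.sum_congr rfl (fun r' _ => h1 r'), Finset.sum_comm, Finset.mul_sum]
    refine Finset.sum_congr rfl fun L _ => ?_
    rw [← hδ1 L, Finset.sum_mul]
    refine Finset.sum_congr rfl fun r' _ => ?_
    by_cases ho : P.On r' L
    · rw [if_pos ho, if_pos ho]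
    · rw [if_neg ho, if_neg ho, zero_mul]
  rw [Finset.sum_eq_zero (fun r' _ => by rw [hall r', mul_zero])] at hcount
  have hM0 : ∑ L, M L = 0 := by
    rcases mul_eq_zero.1 hcount.symm with h1 | h1
    · exact absurd h1 hδ0
    · exact h1
  have h2 := hsplit r
  rw [h0, hM0, zero_add] at h2
  exact hc h2

section pot

variable {S R : Type} [DecidableEq S] (P : Puz S R)

/-- The potential. -/
theorem exists_potW {Tok F : Type} [Fintype Tok] [Field F] (V : R → F) (θ : R → S → F)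
    (d : Tok → F) (s₀ : St S R Tok)
    (h : ∀ l l' : List (R × S), P.Ok s₀ l → P.Ok s₀ l' → P.go s₀ l = P.go s₀ l' →
      P.wcost V θ d s₀ l = P.wcost V θ d s₀ l') :
    ∃ Φ : St S R Tok → F, ∀ s, P.WReach s₀ s → ∀ r' v, P.Adj s.1 r' v →
      Φ (P.step r' v s) = Φ s + P.scost V θ d s r' v := by
  classical
  let Φ : St S R Tok → F := fun s => if hs : P.WReach s₀ s then P.wcost V θ d s₀ hs.choose else 0
  have hΦ : ∀ l : List (R × S), P.Ok s₀ l → Φ (P.go s₀ l) = P.wcost V θ d s₀ l := by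
    intro l hl
    have hx : P.WReach s₀ (P.go s₀ l) := ⟨l, hl, rfl⟩
    simp only [Φ, dif_pos hx]
    exact h _ _ hx.choose_spec.1 hl hx.choose_spec.2
  refine ⟨Φ, ?_⟩
  rintro s ⟨l, hl, rfl⟩ r' v ha
  have h1 : P.step r' v (P.go s₀ l) = P.go s₀ (l ++ [(r', v)]) := by
    rw [go_append]
    rfl
  have h2 : P.Ok (P.go s₀ l) [(r', v)] := ⟨ha, trivial⟩
  have h3 : P.Ok s₀ (l ++ [(r', v)]) := ok_append.2 ⟨hl, h2⟩
  rw [h1, hΦ _ h3, hΦ l hl, wcost_append]
  congr 1
  show P.scost V θ d (P.go s₀ l) r' v + 0 = _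
  rw [add_zero]

theorem volr_x {F : Type} [Field F] (V : R → F) (r : R) : P.volr V r (P.x r) = V r := by
  simp [Puz.volr]

theorem volr_y {F : Type} [Field F] (V : R → F) (r : R) : P.volr V r (P.y r) = - V r := by
  simp [Puz.volr, (P.ne r).symm]

end pot

section A

variable {S R : Type} [Fintype S] [DecidableEq S] [Fintype R] {P : Puz S R} {Tok : Type} [Fintype Tok] {K : R → Prop}
  {F : Type} [Field F]

open VA VB VAp

/-- LEMMA A for a closed class of caps. -/
theorem HypK.lemmaA (hK : P.HypK K) (V : R → F) (θ : R → S → F) (d : Tok → F) {s₀ : St S R Tok} (h0 : K s₀.1)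
    (hGood : P.Good s₀) (hf : ((Fintype.card Tok).factorial : F) ≠ 0) (h20 : (2 : F) ≠ 0) (hd : (∑ t, d t) ≠ 0)
    (hδ : P.Wt F)
    (hyp : ∀ l l' : List (R × S), P.Ok s₀ l → P.Ok s₀ l' → P.go s₀ l = P.go s₀ l' →
      P.wcost V θ d s₀ l = P.wcost V θ d s₀ l') :
    ∃ B : S → F, ∀ r, V r = B (P.y r) - B (P.x r) := by
  classical
  obtain ⟨M, n, hn, hM1, hM2, hM3, hM4⟩ := hK.lemmaM h0 d hGood hf h20
  obtain ⟨Φ, hΦ⟩ := exists_potW P V θ d s₀ hyp
  let Ψ : R → F := fun r => ∑ pos ∈ fibW P s₀ r, Φ (r, pos)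
  let Ψ' : R → F := fun r => ∑ pos ∈ preW P s₀ r, (Φ (P.tau r, fun t => P.T r (pos t)) - ∑ t, d t * θ r (pos t))
  have hrel : ∀ r r' v, P.Adj r r' v → (K (P.tau r') → K r) →
      Ψ' r' = Ψ r + MMW P d s₀ r (P.oth r' v) * (P.volr V r v - P.volr V r' v) := by
    intro r r' v ha hW
    have h1 : Ψ' r' = ∑ pos ∈ fibW P s₀ r, (Φ (r, pos) +
        ∑ t, d t * (if pos t = P.oth r' v then P.volr V r v - P.volr V r' v else 0)) := by
      show (∑ pos ∈ preW P s₀ r', (Φ (P.tau r', fun t => P.T r' (pos t)) - ∑ t, d t * θ r' (pos t))) = _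
      rw [hK.toRetK.sum_pre h0 ha hW]
      refine Finset.sum_congr rfl fun pos h => ?_
      have h2 := hΦ (r, pos) (mem_fibW.1 h) r' v ha
      have h3 : P.step r' v (r, pos) = (P.tau r', fun t => P.T r' (P.J r r' v (pos t))) := rfl
      rw [h3] at h2
      rw [h2]
      unfold Puz.scost
      rw [add_sub_assoc, ← Finset.sum_sub_distrib]
      congr 1
      refine Finset.sum_congr rfl fun t _ => ?_
      ring
    rw [h1, Finset.sum_add_distrib]
    congr 1
    unfold MMW
    rw [Finset.sum_mul]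
    refine Finset.sum_congr rfl (fun pos _ => ?_)
    rw [Finset.sum_mul]
    refine Finset.sum_congr rfl (fun t _ => ?_)
    by_cases h : pos t = P.oth r' v
    · rw [if_pos h, if_pos h]
    · rw [if_neg h, if_neg h]; ring
  -- the value at a strand
  have key : ∀ v, ∃ c, ∀ r, P.On r v → Ψ r + Ψ' r + M (P.oth r v) * P.volr V r v = c := by
    intro v
    by_cases hv : ∃ r, P.On r v
    · obtain ⟨r₀, hr₀⟩ := hv
      refine ⟨Ψ r₀ + Ψ' r₀ + M (P.oth r₀ v) * P.volr V r₀ v, fun r hr => ?_⟩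
      have hadj : ∀ r r', P.Adj r r' v → P.Lk K r r' → Ψ r' + Ψ' r' + M (P.oth r' v) * P.volr V r' v =
          Ψ r + Ψ' r + M (P.oth r v) * P.volr V r v := by
        intro r r' ha hl
        have h1 := hrel r r' v ha hl.1
        have h2 := hrel r' r v ha.symm hl.2
        obtain ⟨h3, h4⟩ := hM2 r r' v ha hl
        rw [h1, h2, ← h3, ← h4]
        ring
      induction hK.att r₀ r v hr₀ hr with
      | refl => rfl
      | @tail b c _ h ih =>
        rw [← ih h.1]
        exact hK.const (fun r => Ψ r + Ψ' r + M (P.oth r v) * P.volr V r v) v hadj h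
    · exact ⟨0, fun r hr => absurd ⟨r, hr⟩ hv⟩
  choose B hB using key
  by_cases hR : Nonempty R
  · obtain ⟨r₀⟩ := hR
    have hmu := hδ.mu_ne M (n * ∑ t, d t) (mul_ne_zero hn hd) hM3 r₀
    have hconst : ∀ r, M (P.x r) + M (P.y r) = M (P.x r₀) + M (P.y r₀) := by
      intro r
      have h1 := split P M _ hM3 r
      rw [← split P M _ hM3 r₀] at h1
      exact add_right_cancel h1
    refine ⟨fun v => - B v / (M (P.x r₀) + M (P.y r₀)), fun r => ?_⟩
    have h1 := hB (P.x r) r (Or.inl rfl)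
    have h2 := hB (P.y r) r (Or.inr rfl)
    rw [oth_x, volr_x] at h1
    rw [oth_y, volr_y] at h2
    have h3 : B (P.x r) - B (P.y r) = (M (P.x r₀) + M (P.y r₀)) * V r := by
      rw [← hconst r, ← h1, ← h2]
      ring
    have h4 : - B (P.y r) / (M (P.x r₀) + M (P.y r₀)) - - B (P.x r) / (M (P.x r₀) + M (P.y r₀))
        = (B (P.x r) - B (P.y r)) / (M (P.x r₀) + M (P.y r₀)) := by
      rw [← sub_div]
      congr 1
      ring
    simp only
    rw [h4, h3, mul_comm, mul_div_assoc, div_self hmu, mul_one]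
  · exact ⟨fun _ => 0, fun r => absurd ⟨r⟩ hR⟩

/-- LEMMA B for a closed class of caps. -/
theorem HypK.lemmaB (hK : P.HypK K) (χ : S → F) (C : F) (d : Tok → F) {s₀ : St S R Tok} (h0 : K s₀.1)
    (hGood : P.Good s₀) (hf : ((Fintype.card Tok).factorial : F) ≠ 0) (h20 : (2 : F) ≠ 0) (hd : (∑ t, d t) ≠ 0)
    (hδ : P.Wt F)
    (hyp : ∀ (s : St S R Tok) (r' : R) (v : S), P.WReach s₀ s → P.Adj s.1 r' v →
      (∑ t, d t * (χ (s.2 t) + if s.2 t = P.oth r' v then χ (P.oth s.1 v) - χ v else 0)) = C) (r : R) :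
    χ (P.x r) = χ (P.y r) := by
  classical
  obtain ⟨M, n, hn, hM1, hM2, hM3, hM4⟩ := hK.lemmaM h0 d hGood hf h20
  have hmu := hδ.mu_ne M (n * ∑ t, d t) (mul_ne_zero hn hd) hM3 r
  let T₁ : R → F := fun r => ∑ pos ∈ fibW P s₀ r, ∑ t, d t * χ (pos t)
  let T₂ : R → F := fun r => ∑ pos ∈ preW P s₀ r, ∑ t, d t * χ (pos t)
  -- after the gadget
  have k1 : ∀ r r' v, P.Adj r r' v → T₁ r + (χ (P.oth r v) - χ v) * MMW P d s₀ r (P.oth r' v) =
      (fibW P s₀ r).card * C := by
    intro r r' v ha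
    have h2 : ∀ pos ∈ fibW P s₀ r,
        (∑ t, d t * (χ (pos t) + if pos t = P.oth r' v then χ (P.oth r v) - χ v else 0)) = C :=
      fun pos hpos => hyp (r, pos) r' v (mem_fibW.1 hpos) ha
    have h4 := Finset.sum_congr rfl h2
    rw [Finset.sum_const, nsmul_eq_mul] at h4
    rw [← h4]
    show (∑ pos ∈ fibW P s₀ r, ∑ t, d t * χ (pos t)) + _ = _
    unfold MMW
    rw [Finset.mul_sum, ← Finset.sum_add_distrib]
    apply Finset.sum_congr rfl
    intro pos _
    rw [Finset.mul_sum, ← Finset.sum_add_distrib]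
    apply Finset.sum_congr rfl
    intro t _
    by_cases ht : pos t = P.oth r' v
    · rw [if_pos ht, if_pos ht]; ring
    · rw [if_neg ht, if_neg ht]; ring
  -- before the gadget
  have k2 : ∀ r r' v, P.Adj r r' v → (K (P.tau r') → K r) →
      T₂ r' = T₁ r + (χ (P.oth r v) - χ (P.oth r' v)) * MMW P d s₀ r (P.oth r' v) := by
    intro r r' v ha hW
    have h1 : T₂ r' = ∑ pos ∈ fibW P s₀ r, ∑ t, d t * χ (P.J r r' v (pos t)) :=
      hK.toRetK.sum_pre h0 ha hW fun pos => ∑ t, d t * χ (pos t)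
    rw [h1]
    show _ = (∑ pos ∈ fibW P s₀ r, ∑ t, d t * χ (pos t)) + _
    unfold MMW
    rw [Finset.mul_sum, ← Finset.sum_add_distrib]
    apply Finset.sum_congr rfl
    intro pos hpos
    rw [Finset.mul_sum, ← Finset.sum_add_distrib]
    apply Finset.sum_congr rfl
    intro t _
    have hgp := (mem_fibW.1 hpos).good hGood
    have hnot : pos t ≠ P.oth r v := by
      intro e
      exact (hgp.2 (P.oth r v)).1 ⟨t, e⟩ (on_oth r v)
    unfold Puz.J
    by_cases ht : pos t = P.oth r' v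
    · rw [if_pos ht, ht, Equiv.swap_apply_left]; ring
    · rw [if_neg ht, Equiv.swap_apply_of_ne_of_ne ht hnot]; ring
  have key : ∀ v, P.On r v → T₁ r + T₂ r + (χ (P.oth r v) - χ v) * M (P.oth r v) = n * C := by
    intro v hv
    obtain ⟨r', ha, hl⟩ := hK.two r v hv
    have a1 := k1 r r' v ha
    have a2 := k1 r' r v ha.symm
    have a3 := k2 r' r v ha.symm hl.2
    obtain ⟨_, a4⟩ := hM2 r r' v ha hl
    have a5 := hM4 r
    have a6 : ((preW P s₀ r).card : F) = ((fibW P s₀ r').card : F) := by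
      rw [hK.toRetK.card_pre h0 ha.symm hl.2]
    rw [← a5, a6, add_mul, ← a1, ← a2, a3, ← a4]
    ring
  have kx := key (P.x r) (Or.inl rfl)
  have ky := key (P.y r) (Or.inr rfl)
  rw [VB.oth_x] at kx
  rw [VB.oth_y] at ky
  have h6 : (χ (P.y r) - χ (P.x r)) * (M (P.x r) + M (P.y r)) = 0 := by
    have := kx.trans ky.symm
    linear_combination this
  rcases mul_eq_zero.1 h6 with h7 | h7
  · exact (sub_eq_zero.1 h7).symm
  · exact absurd h7 hmu

end A

end Puz

end Pool.Agent.Lib.MP_688fd0_co.SQ2.V
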