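import Pool.Agent.Lib.MP_688fd0_co.SQ3.H98.KG
import Pool.Agent.Lib.MP_688fd0_co.SQ4.H95.Count

/-!
Chapter V, type C1: from RET2 / COUNT (`SQ4/H95`) to the hypotheses `RetK`, `HypK` of the lemmas M, A, B.
-/

set_option autoImplicit false

namespace Pool.Agent.Lib.MP_688fd0_co.SQ2.V

namespace Puz

section bridge

variable {S R : Type} [Fintype S] [DecidableEq S] {P : Puz S R} {K : R → Prop}

theorem RetK.of_retK (h : SQ4.RETK P K) : P.RetK K := by
  refine RetK.of_strong h.1 fun r q v hr ha => ?_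
  exact Relation.ReflTransGen.mono (fun a b ⟨q, v, h1, h2⟩ => ⟨q, v, h1, h2⟩) _ _ (h.2 _ _ (h.1 r q v hr ha) hr)

/-- Symmetric reachability from a strongly connected digraph of the rungs. -/
theorem RetK.of_scon (h : SQ4.SCon P) : P.RetK fun _ => True := RetK.of_retK h.retK

theorem sym_of_scon (h : SQ4.SCon P) {Tok : Type} [Fintype Tok] (s s' : St S R Tok) (h' : P.WReach s s') :
    P.WReach s' s := (RetK.of_scon h).ret Tok s s' trivial h'

theorem HypK.of_scon (h : SQ4.SCon P) (h2 : P.TwoN) (hN : P.NoCut) (hC : P.ConnS) : P.HypK fun _ => True :=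
  HypK.of_all (fun _ _ s s' h' => sym_of_scon h s s' h') h2 hN hC

variable {e : ℕ}

omit [Fintype S] in
theorem ModeF_ex (he : 0 < e) (h : SQ4.ModeF P e K) (v : S) : ∃ q, K q ∧ P.On q v := by
  obtain ⟨u, h1, h2⟩ := h.mat v
  have h3 : {r | P.On r v ∧ P.oth r v = u}.Nonempty := by
    rw [Set.nonempty_iff_ne_empty]
    intro h4
    rw [h4, Set.ncard_empty] at h1
    omega
  obtain ⟨r, hr1, hr2⟩ := h3
  exact ⟨r, (h2 r hr1).2 hr2, hr1⟩

omit [Fintype S] in
theorem ModeF_ex' [Finite R] (he : 0 < e) (h : SQ4.ModeF P e K) (hdeg : ∀ v, {r | P.On r v}.ncard = 2 * e) (v : S) :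
    ∃ q, ¬ K q ∧ P.On q v := by
  obtain ⟨u, h1, h2⟩ := h.mat v
  by_contra hcon
  push Not at hcon
  have h3 : {r | P.On r v} ⊆ {r | P.On r v ∧ P.oth r v = u} := by
    intro r hr
    have hK : K r := by
      by_contra h4
      exact hcon r h4 hr
    exact ⟨hr, (h2 r hr).1 hK⟩
  have h4 := Set.ncard_le_ncard h3 (Set.toFinite _)
  rw [hdeg, h1] at h4
  omega

omit [Fintype S] in
theorem ModeF_mat (h : SQ4.ModeF P e K) {v : S} {r r' : R} (hr : K r) (hr' : K r') (h1 : P.On r v) (h2 : P.On r' v) :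
    P.oth r v = P.oth r' v := by
  obtain ⟨u, _, h4⟩ := h.mat v
  rw [(h4 r h1).1 hr, (h4 r' h2).1 hr']

omit [Fintype S] in
theorem ModeF_pa (h : SQ4.ModeF P e K) {v : S} {r r' : R} (hr : K r) (h1 : P.On r v) (h2 : P.On r' v)
    (ho : P.oth r v = P.oth r' v) : K r' := by
  obtain ⟨u, _, h4⟩ := h.mat v
  rw [h4 r' h2, ← ho]
  exact (h4 r h1).1 hr

omit [Fintype S] in
/-- Chains of strands give chains of caps. -/
theorem ModeF_chain (he : 0 < e) (h : SQ4.ModeF P e K) (A : S → Prop) (hA : ∀ r v w, K r → P.On r v → P.On r w →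
    A v → A w) {v w : S} (hc : Relation.ReflTransGen (fun a b => A a ∧ A b ∧ ∃ r, P.On r a ∧ P.On r b) v w) (hv : A v)
    (hw : A w) {a b : R} (ha : K a) (hb : K b) (hav : P.On a v) (hbw : P.On b w) :
    Relation.ReflTransGen (P.SpStep K A) a b := by
  obtain ⟨c, hc1, hc2, hc3⟩ : ∃ c, K c ∧ P.On c w ∧ Relation.ReflTransGen (P.SpStep K A) a c := by
    clear hbw hb b hw
    induction hc with
    | refl => exact ⟨a, ha, hav, Relation.ReflTransGen.refl⟩
    | @tail x y _ hs ih =>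
      obtain ⟨c, hc1, hc2, hc3⟩ := ih
      obtain ⟨hx, hy, q, hqx, hqy⟩ := hs
      by_cases hxy : y = x
      · exact ⟨c, hc1, by rw [hxy]; exact hc2, hc3⟩
      have h3 : y = P.oth q x := ((on_iff hqx y).1 hqy).resolve_left hxy
      by_cases hq : K q
      · refine ⟨c, hc1, ?_, hc3⟩
        rw [h3, ← ModeF_mat h hc1 hq hc2 hqx]
        exact on_oth c x
      · obtain ⟨c', hc4, hc5⟩ := ModeF_ex he h y
        refine ⟨c', hc4, hc5, hc3.tail ⟨hc1, hc4, fun z hz => hA c x z hc1 hc2 hz hx,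
          fun z hz => hA c' y z hc4 hc5 hz hy, x, y, hc2, hc5, Or.inr ⟨q, hq, hqx, hqy, fun z hz => ?_⟩⟩⟩
        rcases (on_iff hqx z).1 hz with h2 | h2
        · rw [h2]; exact hx
        · rw [h2, ← h3]; exact hy
  exact hc3.tail ⟨hc1, hb, fun z hz => hA c w z hc1 hc2 hz hw, fun z hz => hA b w z hb hbw hz hw, w, w, hc2, hbw,
    Or.inl rfl⟩

/-- MODE F gives the split puzzle, if no matching edge is a cut pair. -/
theorem Split.of_modeF [Finite R] (he : 0 < e) (h : SQ4.ModeF P e K) (hdeg : ∀ v, {r | P.On r v}.ncard = 2 * e)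
    (hC : ∀ v w, Relation.ReflTransGen (fun a b => ∃ r, P.On r a ∧ P.On r b) v w)
    (hcut : ∀ q L, K q → P.On q L → ∀ v w, ¬ P.On q v → ¬ P.On q w →
      Relation.ReflTransGen (fun a b => ¬ P.On q a ∧ ¬ P.On q b ∧ ∃ r, P.On r a ∧ P.On r b) v w) : P.Split K where
  toRetK := RetK.of_retK h.retK
  mat := fun v r r' h1 h2 h3 h4 => ModeF_mat h h1 h2 h3 h4
  ex := fun _ v _ => ModeF_ex he h v
  ex' := fun _ v _ => ModeF_ex' he h hdeg v
  pa := fun r r' v h1 h2 h3 h4 => ModeF_pa h h1 h2 h3 h4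
  tau := h.tau
  cut := fun L r r' hr hr' hL hL' => by
    obtain ⟨q, hq, hqL⟩ := ModeF_ex he h L
    have key : ∀ a, K a → ¬ P.On a L → ∀ x, P.On a x → ¬ P.On q x := by
      intro a ha haL x hax hqx
      have h1 := ModeF_mat h ha hq hax hqx
      rcases (on_iff hqx L).1 hqL with h2 | h2
      · exact haL (by rw [h2]; exact hax)
      · exact haL (by rw [h2, ← h1]; exact on_oth a x)
    have h1 := ModeF_chain he h (fun x => ¬ P.On q x) (fun a v w ha hav haw hv hw => by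
        have h2 := ModeF_mat h ha hq haw hw
        rcases (on_iff haw v).1 hav with h3 | h3
        · exact hv (by rw [h3]; exact hw)
        · exact hv (by rw [h3, h2]; exact on_oth q w)) (hcut q L hq hqL (P.x r) (P.x r')
          (key r hr hL _ (Or.inl rfl)) (key r' hr' hL' _ (Or.inl rfl)))
      (key r hr hL _ (Or.inl rfl)) (key r' hr' hL' _ (Or.inl rfl)) hr hr' (Or.inl rfl) (Or.inl rfl)
    refine Relation.ReflTransGen.mono ?_ _ _ h1
    rintro a b ⟨k1, k2, k3, k4, v, w, k5, k6, k7⟩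
    have hne : ∀ x, ¬ P.On q x → x ≠ L := fun x hx e1 => hx (by rw [e1]; exact hqL)
    refine ⟨k1, k2, fun x hx => hne x (k3 x hx), fun x hx => hne x (k4 x hx), v, w, k5, k6, ?_⟩
    rcases k7 with k7 | ⟨q', k7, k8, k9, k10⟩
    · exact Or.inl k7
    · exact Or.inr ⟨q', k7, k8, k9, fun x hx => hne x (k10 x hx)⟩
  con := fun r r' hr hr' => by
    refine ModeF_chain he h (fun _ => True) (fun _ _ _ _ _ _ _ => trivial) (v := P.x r) (w := P.x r') ?_ trivial trivial
      hr hr' (Or.inl rfl) (Or.inl rfl)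
    exact Relation.ReflTransGen.mono (fun a b hab => ⟨trivial, trivial, hab⟩) _ _ (hC (P.x r) (P.x r'))

end bridge

end Puz

end Pool.Agent.Lib.MP_688fd0_co.SQ2.V
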