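import Pool.Agent.Lib.MP_688fd0_co.SQ3.H98.KM

/-!
Chapter V, type C1: the split puzzle. The caps are the rungs of a perfect matching `K` (all rungs over one edge at every
strand), the cups are the other rungs.
-/

set_option autoImplicit false

namespace Pool.Agent.Lib.MP_688fd0_co.SQ2.V

namespace Puz

section split

variable {S R : Type} [DecidableEq S] {P : Puz S R} {K : R → Prop}

/-- Two caps inside `A` which share a strand or are joined by a cup inside `A`. -/
def SpStep (P : Puz S R) (K : R → Prop) (A : S → Prop) (a b : R) : Prop :=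
  K a ∧ K b ∧ (∀ x, P.On a x → A x) ∧ (∀ x, P.On b x → A x) ∧ ∃ v w, P.On a v ∧ P.On b w ∧
    (v = w ∨ ∃ q, ¬ K q ∧ P.On q v ∧ P.On q w ∧ ∀ x, P.On q x → A x)

/-- The data of a split puzzle: caps in `K`, cups outside. -/
structure Split (P : Puz S R) (K : R → Prop) : Prop extends P.RetK K where
  mat : ∀ v r r', K r → K r' → P.On r v → P.On r' v → P.oth r v = P.oth r' v
  ex : ∀ r v, P.On r v → ∃ q, K q ∧ P.On q v
  ex' : ∀ r v, P.On r v → ∃ q, ¬ K q ∧ P.On q v
  pa : ∀ r r' v, K r → P.On r v → P.On r' v → P.oth r v = P.oth r' v → K r'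
  tau : ∀ r, K (P.tau r) ↔ ¬ K r
  cut : ∀ L r r', K r → K r' → ¬ P.On r L → ¬ P.On r' L → Relation.ReflTransGen (P.SpStep K fun x => x ≠ L) r r'
  con : ∀ r r', K r → K r' → Relation.ReflTransGen (P.SpStep K fun _ => True) r r'

theorem Split.lk (h : P.Split K) {r q : R} (hq : K r ∨ K q) : P.Lk K r q := by
  refine ⟨fun h1 => ?_, fun h1 => ?_⟩
  · rw [h.tau] at h1
    exact hq.resolve_right h1
  · rw [h.tau] at h1
    exact hq.resolve_left h1

theorem Split.adj (h : P.Split K) {r q : R} {v : S} (hr : K r) (hq : ¬ K q) (h1 : P.On r v) (h2 : P.On q v) :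
    P.Adj r q v := ⟨h1, h2, fun e => hq (h.pa r q v hr h1 h2 e)⟩

theorem Split.cut2 (h : P.Split K) {L : S} {a b : R} (hc : Relation.ReflTransGen (P.SpStep K fun x => x ≠ L) a b) :
    Relation.ReflTransGen (fun a b => ¬ P.On a L ∧ ¬ P.On b L ∧ ∃ v, P.Ln K v a b) a b := by
  induction hc with
  | refl => exact Relation.ReflTransGen.refl
  | tail _ hs ih =>
    obtain ⟨k1, k2, k3, k4, v, w, k5, k6, k7⟩ := hs
    rcases k7 with rfl | ⟨q, k7, k8, k9, k10⟩
    · exact ih.tail ⟨fun h' => k3 _ h' rfl, fun h' => k4 _ h' rfl, v, k5, k6, Or.inl (h.mat _ _ _ k1 k2 k5 k6)⟩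
    · exact (ih.tail ⟨fun h' => k3 _ h' rfl, fun h' => k10 _ h' rfl, v, k5, k8, Or.inr (h.lk (Or.inl k1))⟩).tail
        ⟨fun h' => k10 _ h' rfl, fun h' => k4 _ h' rfl, w, k9, k6, Or.inr (h.lk (Or.inr k2))⟩

theorem Split.con2 (h : P.Split K) {a b : R} (hc : Relation.ReflTransGen (P.SpStep K fun _ => True) a b) :
    Relation.ReflTransGen (fun a b => ∃ v, P.Ln K v a b) a b := by
  induction hc with
  | refl => exact Relation.ReflTransGen.refl
  | tail _ hs ih =>
    obtain ⟨k1, k2, _, _, v, w, k5, k6, k7⟩ := hs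
    rcases k7 with rfl | ⟨q, k7, k8, k9, _⟩
    · exact ih.tail ⟨v, k5, k6, Or.inl (h.mat _ _ _ k1 k2 k5 k6)⟩
    · exact (ih.tail ⟨v, k5, k8, Or.inr (h.lk (Or.inl k1))⟩).tail ⟨w, k9, k6, Or.inr (h.lk (Or.inr k2))⟩

theorem Split.hypK (h : P.Split K) : P.HypK K where
  toRetK := h.toRetK
  two := fun r v hv => by
    by_cases hr : K r
    · obtain ⟨q, hq, hqv⟩ := h.ex' r v hv
      exact ⟨q, h.adj hr hq hv hqv, h.lk (Or.inl hr)⟩
    · obtain ⟨q, hq, hqv⟩ := h.ex r v hv
      exact ⟨q, (h.adj hq hr hqv hv).symm, h.lk (Or.inr hq)⟩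
  par := fun r r' v h1 h2 e => by
    have e1 : K r ↔ K r' := ⟨fun hr => h.pa r r' v hr h1 h2 e, fun hr => h.pa r' r v hr h2 h1 e.symm⟩
    exact ⟨e1, by rw [h.tau, h.tau, e1]⟩
  att := fun r r' v h1 h2 => by
    obtain ⟨q, hq, hqv⟩ := h.ex r v h1
    exact (Relation.ReflTransGen.single ⟨h1, hqv, Or.inr (h.lk (Or.inr hq))⟩).tail ⟨hqv, h2, Or.inr (h.lk (Or.inl hq))⟩
  cut := fun L r r' h1 h2 => by
    -- to a rung of `K`
    have toK : ∀ r, ¬ P.On r L → ∃ a v, K a ∧ ¬ P.On a L ∧ P.On r v ∧ P.On a v := by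
      intro r hr
      obtain ⟨a, ha, hav⟩ := h.ex r (P.x r) (Or.inl rfl)
      by_cases haL : P.On a L
      · obtain ⟨b, hb, hbv⟩ := h.ex r (P.y r) (Or.inr rfl)
        refine ⟨b, P.y r, hb, fun hbL => ?_, Or.inr rfl, hbv⟩
        have e1 := h.mat L a b ha hb haL hbL
        have hx : P.x r ≠ L := fun e => hr (Or.inl e.symm)
        have hy : P.y r ≠ L := fun e => hr (Or.inr e.symm)
        have e2 : P.x r = P.oth a L := ((on_iff haL _).1 hav).resolve_left hx
        have e3 : P.y r = P.oth b L := ((on_iff hbL _).1 hbv).resolve_left hy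
        exact P.ne r (by rw [e2, e3, e1])
      · exact ⟨a, P.x r, ha, haL, Or.inl rfl, hav⟩
    obtain ⟨a, v, ha, haL, hrv, hav⟩ := toK r h1
    obtain ⟨b, w, hb, hbL, hrw, hbw⟩ := toK r' h2
    have c1 : Relation.ReflTransGen (fun a b => ¬ P.On a L ∧ ¬ P.On b L ∧ ∃ v, P.Ln K v a b) r a :=
      Relation.ReflTransGen.single ⟨h1, haL, v, hrv, hav, Or.inr (h.lk (Or.inr ha))⟩
    have c3 : Relation.ReflTransGen (fun a b => ¬ P.On a L ∧ ¬ P.On b L ∧ ∃ v, P.Ln K v a b) b r' :=
      Relation.ReflTransGen.single ⟨hbL, h2, w, hbw, hrw, Or.inr (h.lk (Or.inl hb))⟩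
    have c2 := h.cut2 (h.cut L a b ha hb haL hbL)
    exact (c1.trans c2).trans c3
  conn := fun r r' => by
    obtain ⟨a, ha, hav⟩ := h.ex r (P.x r) (Or.inl rfl)
    obtain ⟨b, hb, hbv⟩ := h.ex r' (P.x r') (Or.inl rfl)
    have c1 : Relation.ReflTransGen (fun a b => ∃ v, P.Ln K v a b) r a :=
      Relation.ReflTransGen.single ⟨_, Or.inl rfl, hav, Or.inr (h.lk (Or.inr ha))⟩
    have c3 : Relation.ReflTransGen (fun a b => ∃ v, P.Ln K v a b) b r' :=
      Relation.ReflTransGen.single ⟨_, hbv, Or.inl rfl, Or.inr (h.lk (Or.inl hb))⟩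
    have c2 := h.con2 (h.con a b ha hb)
    exact (c1.trans c2).trans c3

end split

section ret

variable {S R : Type} [Fintype S] [DecidableEq S] {P : Puz S R} {K : R → Prop}

/-- One step in the digraph of the rungs. -/
def RStep (P : Puz S R) (r r' : R) : Prop := ∃ q v, P.Adj r q v ∧ r' = P.tau q

/-- A walk of rungs is a walk of states. -/
theorem walk_of_rstep {Tok : Type} {r r' : R} (h : Relation.ReflTransGen P.RStep r r') (p : Tok → S) :
    ∃ l : List (R × S), P.Ok (r, p) l ∧ (P.go (r, p) l).1 = r' := by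
  induction h with
  | refl => exact ⟨[], trivial, rfl⟩
  | tail _ hs ih =>
    obtain ⟨l, h1, h2⟩ := ih
    obtain ⟨q, v, h3, rfl⟩ := hs
    refine ⟨l ++ [(q, v)], ok_append.2 ⟨h1, ?_, trivial⟩, ?_⟩
    · rw [h2]; exact h3
    · rw [go_append]; rfl

/-- RET: if the digraph of the rungs is strongly connected on the closed class `K` then the steps from caps in `K` can be
undone. -/
theorem RetK.of_strong (hcl : ∀ r r' v, K r → P.Adj r r' v → K (P.tau r'))
    (hst : ∀ r q v, K r → P.Adj r q v → Relation.ReflTransGen P.RStep (P.tau q) r) : P.RetK K where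
  cl := hcl
  ret := by
    intro Tok _ s s' hs ⟨l, hl, hgo⟩
    -- one step
    have one : ∀ (s : St S R Tok) (q : R) (v : S), K s.1 → P.Adj s.1 q v → P.WReach (P.step q v s) s := by
      intro s q v hs ha
      obtain ⟨l, h1, h2⟩ := walk_of_rstep (hst s.1 q v hs ha) s.2
      obtain ⟨r₁, σ, hσ⟩ := go_perm (P := P) (Tok := Tok) ((q, v) :: l) s.1
      have h1' : ∀ p : Tok → S, P.Ok (s.1, p) ((q, v) :: l) := fun p =>
        ⟨ha, ok_iff_pos l (P.tau q) _ _ h1⟩
      have e1 : r₁ = s.1 := by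
        have e2 := congrArg Prod.fst (hσ s.2)
        have e3 : (P.go (s.1, s.2) ((q, v) :: l)).1 = (P.go (P.tau q, s.2) l).1 := by
          obtain ⟨r₂, σ₂, h4⟩ := go_perm (P := P) (Tok := Tok) l (P.tau q)
          show (P.go (P.tau q, fun t => P.T q (P.J s.1 q v (s.2 t))) l).1 = _
          rw [h4, h4]
        rw [e3, h2] at e2
        exact e2.symm
      rw [e1] at hσ
      -- iterate the closed walk
      have key : ∀ n : ℕ, P.WReach (P.step q v s) (s.1, fun t => (σ ^ (n + 1)) (s.2 t)) := by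
        intro n
        induction n with
        | zero =>
          refine ⟨l, (h1' s.2).2, ?_⟩
          have e5 := hσ s.2
          exact e5
        | succ n ih =>
          refine ih.trans ⟨(q, v) :: l, h1' _, ?_⟩
          rw [hσ]
          refine Prod.ext rfl (funext fun t => ?_)
          show σ ((σ ^ (n + 1)) (s.2 t)) = (σ ^ (n + 1 + 1)) (s.2 t)
          rw [pow_succ' σ (n + 1)]
          rfl
      obtain ⟨n, hn0, hn⟩ : ∃ n, 0 < n ∧ σ ^ n = 1 := ⟨orderOf σ, orderOf_pos σ, pow_orderOf_eq_one σ⟩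
      obtain ⟨m, rfl⟩ : ∃ m, n = m + 1 := ⟨n - 1, by omega⟩
      have := key m
      rw [hn] at this
      exact this
    -- all steps
    have all : ∀ (l : List (R × S)) (s : St S R Tok), K s.1 → P.Ok s l → P.WReach (P.go s l) s := by
      intro l
      induction l with
      | nil => intro s _ _; exact WReach.refl s
      | cons p l ih =>
        intro s hs hl
        exact (ih (P.step p.1 p.2 s) (hcl _ _ _ hs hl.1) hl.2).trans (one s p.1 p.2 hs hl.1)
    rw [← hgo]
    exact all l s hs hl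

end ret

end Puz

end Pool.Agent.Lib.MP_688fd0_co.SQ2.V
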