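import Pool.Agent.Lib.MP_688fd0_co.SQ3.V.MP
import Pool.Agent.Lib.MP_688fd0_co.SQ2.V.Walk

/-!
Chapter V, type C1: Lemma M for a closed class `K` of caps, in the language of walks.

`K r` : the rung `r` may be the cap of a reachable state; then `K (tau q)` says that `q` may be a cup. Instead of `Full`
we only use that steps from caps in `K` can be undone (`RetK`). `K = everything` is the case of symmetric reachability,
`K` = a perfect matching with cups outside is the split puzzle.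
-/

set_option autoImplicit false

namespace Pool.Agent.Lib.MP_688fd0_co.SQ2.V

namespace Puz

section defs

variable {S R : Type} [DecidableEq S] (P : Puz S R)

/-- `K` is a closed class of caps, and steps from caps in `K` can be undone. -/
structure RetK (K : R → Prop) : Prop where
  cl : ∀ r r' v, K r → P.Adj r r' v → K (P.tau r')
  ret : ∀ (Tok : Type) [Fintype Tok] (s s' : St S R Tok), K s.1 → P.WReach s s' → P.WReach s' s

/-- Linked rungs: a cup needs the other one as a cap. -/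
def Lk (K : R → Prop) (r q : R) : Prop := (K (P.tau q) → K r) ∧ (K (P.tau r) → K q)

/-- Parallel at `v` or linked. -/
def Ln (K : R → Prop) (v : S) (a b : R) : Prop := P.On a v ∧ P.On b v ∧ (P.oth a v = P.oth b v ∨ P.Lk K a b)

/-- The hypotheses of the lemmas M, A, B. -/
structure HypK (K : R → Prop) : Prop extends P.RetK K where
  two : ∀ r v, P.On r v → ∃ q, P.Adj r q v ∧ P.Lk K r q
  par : ∀ r r' v, P.On r v → P.On r' v → P.oth r v = P.oth r' v → (K r ↔ K r') ∧ (K (P.tau r) ↔ K (P.tau r'))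
  att : ∀ r r' v, P.On r v → P.On r' v → Relation.ReflTransGen (P.Ln K v) r r'
  cut : ∀ L r r', ¬ P.On r L → ¬ P.On r' L →
    Relation.ReflTransGen (fun a b => ¬ P.On a L ∧ ¬ P.On b L ∧ ∃ v, P.Ln K v a b) r r'
  conn : ∀ r r', Relation.ReflTransGen (fun a b => ∃ v, P.Ln K v a b) r r'

variable {P}

theorem Lk.symm {K : R → Prop} {r q : R} (h : P.Lk K r q) : P.Lk K q r := ⟨h.2, h.1⟩

/-- The case `K = everything`. -/
theorem HypK.of_all (h : ∀ (Tok : Type) [Fintype Tok] (s s' : St S R Tok), P.WReach s s' → P.WReach s' s)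
    (h2 : P.TwoN) (hN : P.NoCut) (hC : P.ConnS) : P.HypK fun _ => True where
  cl := fun _ _ _ _ _ => trivial
  ret := fun Tok _ s s' _ h' => h Tok s s' h'
  two := fun r v hv => by
    obtain ⟨q, hq⟩ := h2 r v hv
    exact ⟨q, hq, fun _ => trivial, fun _ => trivial⟩
  par := fun _ _ _ _ _ _ => ⟨Iff.rfl, Iff.rfl⟩
  att := fun r r' v h1 h3 => Relation.ReflTransGen.single ⟨h1, h3, Or.inr ⟨fun _ => trivial, fun _ => trivial⟩⟩
  cut := fun L r r' h1 h3 => Relation.ReflTransGen.mono
    (fun a b ⟨ha, hb, v, hv1, hv2⟩ => ⟨ha, hb, v, hv1, hv2, Or.inr ⟨fun _ => trivial, fun _ => trivial⟩⟩) _ _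
    (hN L r r' h1 h3)
  conn := fun r r' => Relation.ReflTransGen.mono
    (fun a b ⟨v, hv1, hv2⟩ => ⟨v, hv1, hv2, Or.inr ⟨fun _ => trivial, fun _ => trivial⟩⟩) _ _ (hC r r')

end defs

section basic

variable {S R : Type} [DecidableEq S] {P : Puz S R} {Tok : Type}

theorem RetK.mem_go {K : R → Prop} (hK : P.RetK K) (l : List (R × S)) : ∀ {s : St S R Tok}, K s.1 → P.Ok s l →
    K (P.go s l).1 := by
  induction l with
  | nil => intro s h _; exact h
  | cons p l ih =>
    intro s h hl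
    exact ih (s := P.step p.1 p.2 s) (hK.cl _ _ _ h hl.1) hl.2

theorem RetK.mem {K : R → Prop} (hK : P.RetK K) {s s' : St S R Tok} (h : K s.1) (h' : P.WReach s s') : K s'.1 := by
  obtain ⟨l, hl, rfl⟩ := h'
  exact hK.mem_go l h hl

theorem good_walkW (l : List (R × S)) : ∀ {s : St S R Tok}, P.Good s → P.Ok s l → P.Good (P.go s l) := by
  induction l with
  | nil => intro s h _; exact h
  | cons p l ih => intro s h hl; exact ih (good_step hl.1 h) hl.2

theorem WReach.good {s s' : St S R Tok} (h : P.WReach s s') (hg : P.Good s) : P.Good s' := by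
  obtain ⟨l, hl, rfl⟩ := h
  exact good_walkW l hg hl

/-- A walk acts on the placements by a permutation of the strands. -/
theorem go_perm (l : List (R × S)) : ∀ r : R, ∃ (r' : R) (σ : Equiv.Perm S),
    ∀ p : Tok → S, P.go (r, p) l = (r', fun t => σ (p t)) := by
  induction l with
  | nil => intro r; exact ⟨r, 1, fun p => rfl⟩
  | cons q l ih =>
    intro r
    obtain ⟨r', σ, h⟩ := ih (P.tau q.1)
    refine ⟨r', ((P.J r q.1 q.2).trans (P.T q.1)).trans σ, fun p => ?_⟩
    exact h (fun t => P.T q.1 (P.J r q.1 q.2 (p t)))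

theorem ok_iff_pos (l : List (R × S)) : ∀ (r : R) (p q : Tok → S), P.Ok (r, p) l → P.Ok (r, q) l := by
  induction l with
  | nil => intro r p q _; trivial
  | cons a l ih => intro r p q h; exact ⟨h.1, ih (P.tau a.1) _ _ h.2⟩

/-- Relabelling of the tokens. -/
theorem go_comp (l : List (R × S)) (σ : Tok → Tok) :
    ∀ s : St S R Tok, P.go (s.1, s.2 ∘ σ) l = ((P.go s l).1, (P.go s l).2 ∘ σ) := by
  induction l with
  | nil => intro s; rfl
  | cons q l ih => intro s; exact ih (P.step q.1 q.2 s)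

theorem RetK.step_iff [Fintype Tok] {K : R → Prop} (hK : P.RetK K) {s₀ : St S R Tok} (h0 : K s₀.1)
    {r r' : R} {v : S} (ha : P.Adj r r' v) (hW : K (P.tau r') → K r) (pos : Tok → S) :
    P.WReach s₀ (r, pos) ↔ P.WReach s₀ (P.tau r', fun t => P.T r' (P.J r r' v (pos t))) := by
  constructor
  · intro h
    exact h.trans (WReach.step (s := (r, pos)) ha)
  · intro h
    have h1 : K r := hW (hK.mem h0 h)
    exact h.trans (hK.ret Tok (r, pos) _ h1 (WReach.step (s := (r, pos)) ha))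

end basic

section fibres

variable {S R : Type} [Fintype S] [DecidableEq S] {P : Puz S R} {Tok : Type} [Fintype Tok]

open Classical in
/-- The placements of the reachable states with cap `r`. -/
noncomputable def fibW (P : Puz S R) (s₀ : St S R Tok) (r : R) : Finset (Tok → S) :=
  Finset.univ.filter fun pos => P.WReach s₀ (r, pos)

open Classical in
/-- The placements before the gadget of `r`. -/
noncomputable def preW (P : Puz S R) (s₀ : St S R Tok) (r : R) : Finset (Tok → S) :=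
  Finset.univ.filter fun pos => P.WReach s₀ (P.tau r, fun t => P.T r (pos t))

theorem mem_fibW {s₀ : St S R Tok} {r : R} {pos : Tok → S} : pos ∈ fibW P s₀ r ↔ P.WReach s₀ (r, pos) := by
  simp [fibW]

theorem mem_preW {s₀ : St S R Tok} {r : R} {pos : Tok → S} :
    pos ∈ preW P s₀ r ↔ P.WReach s₀ (P.tau r, fun t => P.T r (pos t)) := by
  simp [preW]

variable {K : R → Prop}

theorem RetK.J_mem (hK : P.RetK K) {s₀ : St S R Tok} (h0 : K s₀.1) {r r' : R} {v : S} (ha : P.Adj r r' v)
    (hW : K (P.tau r') → K r) {pos : Tok → S} :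
    (fun t => P.J r r' v (pos t)) ∈ preW P s₀ r' ↔ pos ∈ fibW P s₀ r := by
  rw [mem_preW, mem_fibW, hK.step_iff h0 ha hW]

/-- Sums over the placements before and after the jump. -/
theorem RetK.sum_pre (hK : P.RetK K) {s₀ : St S R Tok} (h0 : K s₀.1) {r r' : R} {v : S} (ha : P.Adj r r' v)
    (hW : K (P.tau r') → K r) {M : Type} [AddCommMonoid M] (f : (Tok → S) → M) :
    ∑ pos ∈ preW P s₀ r', f pos = ∑ pos ∈ fibW P s₀ r, f (fun t => P.J r r' v (pos t)) := by
  refine Finset.sum_nbij' (fun pos t => P.J r r' v (pos t)) (fun pos t => P.J r r' v (pos t)) ?_ ?_ ?_ ?_ ?_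
  · intro pos h
    rw [← hK.J_mem h0 ha hW]
    simp only [J_J]
    exact h
  · intro pos h
    exact (hK.J_mem h0 ha hW).2 h
  · intro pos _
    funext t
    exact J_J _
  · intro pos _
    funext t
    exact J_J _
  · intro pos _
    simp only [J_J]

theorem RetK.card_pre (hK : P.RetK K) {s₀ : St S R Tok} (h0 : K s₀.1) {r r' : R} {v : S} (ha : P.Adj r r' v)
    (hW : K (P.tau r') → K r) : (preW P s₀ r').card = (fibW P s₀ r).card := by
  rw [Finset.card_eq_sum_ones, Finset.card_eq_sum_ones]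
  exact hK.sum_pre h0 ha hW fun _ => 1

/-- The placements of one rung are as many as those of any other rung which is reached. -/
theorem card_fibW_le (s₀ : St S R Tok) {r r' : R} {p p' : Tok → S} (h : P.WReach (r, p) (r', p')) :
    (fibW P s₀ r).card ≤ (fibW P s₀ r').card := by
  obtain ⟨l, hok, hl⟩ := h
  obtain ⟨r₁, σ, hσ⟩ := go_perm (P := P) (Tok := Tok) l r
  have h1 : r₁ = r' := by
    have := hσ p
    rw [hl] at this
    exact (congrArg Prod.fst this).symm
  subst h1
  refine Finset.card_le_card_of_injOn (fun q t => σ (q t)) ?_ ?_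
  · intro q hq
    refine Finset.mem_coe.2 (mem_fibW.2 ?_)
    have h2 : P.WReach (r, q) (P.go (r, q) l) := ⟨l, ok_iff_pos l r p q hok, rfl⟩
    rw [hσ q] at h2
    exact (mem_fibW.1 (Finset.mem_coe.1 hq)).trans h2
  · intro q _ q' _ e
    funext t
    exact σ.injective (congrFun e t)

theorem RetK.card_fib (hK : P.RetK K) {s₀ : St S R Tok} (h0 : K s₀.1) {r : R} (h : (fibW P s₀ r).Nonempty) :
    (fibW P s₀ r).card = (fibW P s₀ s₀.1).card := by
  obtain ⟨p, hp⟩ := h
  have hr := mem_fibW.1 hp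
  refine le_antisymm ?_ ?_
  · exact card_fibW_le (r := r) (p := p) (r' := s₀.1) (p' := s₀.2) s₀ (hK.ret Tok _ _ h0 hr)
  · exact card_fibW_le (r := s₀.1) (p := s₀.2) (r' := r) (p' := p) s₀ hr

theorem card_preW_eq (s₀ : St S R Tok) (r : R) : (preW P s₀ r).card = (fibW P s₀ (P.tau r)).card := by
  refine Finset.card_nbij' (fun pos t => P.T r (pos t)) (fun pos t => (P.T r).symm (pos t)) ?_ ?_ ?_ ?_
  · intro pos h
    exact Finset.mem_coe.2 (mem_fibW.2 (mem_preW.1 (Finset.mem_coe.1 h)))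
  · intro pos h
    refine Finset.mem_coe.2 (mem_preW.2 ?_)
    have h1 : (fun t => P.T r ((P.T r).symm (pos t))) = pos := by
      funext t; simp
    show P.WReach s₀ (P.tau r, fun t => P.T r ((P.T r).symm (pos t)))
    rw [h1]
    exact mem_fibW.1 (Finset.mem_coe.1 h)
  · intro pos _; funext t; simp
  · intro pos _; funext t; simp

/-- The number of placements divides the order of the group of all relabellings. -/
theorem RetK.card_dvd (hK : P.RetK K) {s₀ : St S R Tok} (h0 : K s₀.1) (hg : P.Good s₀) :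
    (fibW P s₀ s₀.1).card ∣ (Fintype.card Tok).factorial := by
  classical
  let H : Subgroup (Equiv.Perm Tok) :=
    { carrier := {σ | P.WReach s₀ (s₀.1, s₀.2 ∘ σ)}
      mul_mem' := by
        rintro σ τ ⟨l, h1, hl⟩ ⟨l', h2, hl'⟩
        refine ⟨l' ++ l, ok_append.2 ⟨h2, ?_⟩, ?_⟩
        · rw [hl']
          exact ok_iff_pos l s₀.1 s₀.2 _ h1
        · rw [go_append, hl', go_comp l τ s₀, hl]
          rfl
      one_mem' := WReach.refl _
      inv_mem' := by
        intro σ hσ
        obtain ⟨l, h1, hl⟩ := hK.ret Tok _ _ h0 hσ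
        refine ⟨l, ok_iff_pos l s₀.1 _ _ h1, ?_⟩
        have h := go_comp (P := P) l (σ⁻¹ : Equiv.Perm Tok) (s₀.1, s₀.2 ∘ σ)
        rw [hl] at h
        have e : ((s₀.1, s₀.2 ∘ σ) : St S R Tok).2 ∘ (σ⁻¹ : Equiv.Perm Tok) = s₀.2 := by
          funext t
          simp
        rw [e] at h
        exact h }
  have hcard : (fibW P s₀ s₀.1).card = Nat.card H := by
    rw [Nat.card_eq_fintype_card, ← Finset.card_univ]
    symm
    refine Finset.card_nbij (fun σ => s₀.2 ∘ (σ : Equiv.Perm Tok)) ?_ ?_ ?_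
    · intro σ _
      exact Finset.mem_coe.2 (mem_fibW.2 σ.2)
    · intro σ _ τ _ e
      refine Subtype.ext (Equiv.ext fun t => hg.1 ?_)
      exact congrFun e t
    · intro pos hp
      have hr : P.WReach s₀ (s₀.1, pos) := mem_fibW.1 (Finset.mem_coe.1 hp)
      have hgp := hr.good hg
      have hex : ∀ t, ∃ t', s₀.2 t' = pos t := by
        intro t
        rw [hg.2]
        exact (hgp.2 (pos t)).1 ⟨t, rfl⟩
      choose f hf using hex
      have hinj : Function.Injective f := by
        intro t t' e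
        exact hgp.1 (by show pos t = pos t'; rw [← hf t, ← hf t', e])
      have hbij : Function.Bijective f := Finite.injective_iff_bijective.1 hinj
      have hpos : s₀.2 ∘ (Equiv.ofBijective f hbij) = pos := by
        funext t
        exact hf t
      refine ⟨⟨Equiv.ofBijective f hbij, ?_⟩, Finset.mem_coe.2 (Finset.mem_univ _), hpos⟩
      show P.WReach s₀ (s₀.1, s₀.2 ∘ (Equiv.ofBijective f hbij))
      rw [hpos]
      exact hr
  rw [hcard, ← Fintype.card_perm, ← Nat.card_eq_fintype_card]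
  exact Subgroup.card_subgroup_dvd_card H

/-- Placements before and after the gadget. -/
noncomputable def nnW (P : Puz S R) (s₀ : St S R Tok) (r : R) : ℕ := (fibW P s₀ r).card + (preW P s₀ r).card

theorem RetK.nn_adj (hK : P.RetK K) {s₀ : St S R Tok} (h0 : K s₀.1) {r r' : R} {v : S} (ha : P.Adj r r' v)
    (hl : P.Lk K r r') : nnW P s₀ r' = nnW P s₀ r := by
  unfold nnW
  rw [hK.card_pre h0 ha hl.1, ← hK.card_pre h0 ha.symm hl.2, add_comm]

/-- A rung parallel to `r` is linked with the same rungs. -/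
theorem HypK.par_lk (hK : P.HypK K) {r r' q : R} {v : S} (h : P.On r v) (h' : P.On r' v) (e : P.oth r v = P.oth r' v)
    (hl : P.Lk K r q) : P.Lk K r' q := by
  obtain ⟨h1, h2⟩ := hK.par r r' v h h' e
  exact ⟨fun h3 => h1.1 (hl.1 h3), fun h3 => hl.2 (h2.2 h3)⟩

/-- Functions which agree on linked adjacent rungs agree on `Ln`. -/
theorem HypK.const {α : Type} (hK : P.HypK K) (f : R → α) (v : S)
    (h : ∀ r r', P.Adj r r' v → P.Lk K r r' → f r' = f r) {r r' : R} (hl : P.Ln K v r r') : f r' = f r := by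
  obtain ⟨h1, h2, h3⟩ := hl
  by_cases e : P.oth r v = P.oth r' v
  · obtain ⟨q, hq, hq2⟩ := hK.two r v h1
    have hq' : P.Adj r' q v := ⟨h2, hq.2.1, fun h' => hq.2.2 (e.trans h')⟩
    rw [← h _ _ hq hq2, ← h _ _ hq' (hK.par_lk h1 h2 e hq2)]
  · exact h _ _ ⟨h1, h2, e⟩ (h3.resolve_left e)

theorem HypK.nn_const (hK : P.HypK K) {s₀ : St S R Tok} (h0 : K s₀.1) (r r' : R) :
    nnW P s₀ r' = nnW P s₀ r := by
  induction hK.conn r r' with
  | refl => rfl
  | tail _ h ih =>
    obtain ⟨v, h3⟩ := h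
    rw [← ih]
    exact hK.const (nnW P s₀) v (fun _ _ ha hl => hK.toRetK.nn_adj h0 ha hl) h3

theorem HypK.nn_ne_zero {F : Type} [Field F] (hK : P.HypK K) {s₀ : St S R Tok} (h0 : K s₀.1) (hg : P.Good s₀)
    (hf : ((Fintype.card Tok).factorial : F) ≠ 0) (h20 : (2 : F) ≠ 0) (r : R) : (nnW P s₀ r : F) ≠ 0 := by
  rw [hK.nn_const h0 s₀.1 r]
  have hn : ((fibW P s₀ s₀.1).card : F) ≠ 0 := by
    intro hz
    obtain ⟨k, hk⟩ := hK.toRetK.card_dvd h0 hg
    apply hf
    rw [hk, Nat.cast_mul, hz, zero_mul]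
  unfold nnW
  rw [card_preW_eq]
  by_cases h : (fibW P s₀ (P.tau s₀.1)).Nonempty
  · rw [hK.toRetK.card_fib h0 h, ← two_mul, Nat.cast_mul]
    exact mul_ne_zero (by exact_mod_cast h20) hn
  · rw [Finset.not_nonempty_iff_eq_empty.1 h, Finset.card_empty, add_zero]
    exact hn

variable {F : Type} [Field F]

/-- Sum of the weights of the tokens on `L` over the reachable states with cap `r`. -/
noncomputable def MMW (P : Puz S R) (d : Tok → F) (s₀ : St S R Tok) (r : R) (L : S) : F :=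
  ∑ pos ∈ fibW P s₀ r, ∑ t, if pos t = L then d t else 0

/-- The same before the gadget. -/
noncomputable def MPW (P : Puz S R) (d : Tok → F) (s₀ : St S R Tok) (r : R) (L : S) : F :=
  ∑ pos ∈ preW P s₀ r, ∑ t, if pos t = L then d t else 0

theorem RetK.MP_eq (hK : P.RetK K) {s₀ : St S R Tok} (h0 : K s₀.1) (d : Tok → F) {r r' : R} {v : S}
    (ha : P.Adj r r' v) (hW : K (P.tau r') → K r) (L : S) :
    MPW P d s₀ r' L = MMW P d s₀ r (P.J r r' v L) := by
  unfold MPW MMW
  rw [hK.sum_pre h0 ha hW]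
  refine Finset.sum_congr rfl fun pos _ => Finset.sum_congr rfl fun t _ => ?_
  have : (P.J r r' v (pos t) = L) ↔ pos t = P.J r r' v L := by
    constructor
    · rintro rfl; rw [J_J]
    · intro h; rw [h, J_J]
  simp only [this]

theorem RetK.MP_avoid (hK : P.RetK K) {s₀ : St S R Tok} (h0 : K s₀.1) (d : Tok → F) {r r' : R} {v : S}
    (ha : P.Adj r r' v) (hW : K (P.tau r') → K r) {L : S}
    (h : ¬ P.On r L) (h' : ¬ P.On r' L) : MPW P d s₀ r' L = MMW P d s₀ r L := by
  rw [hK.MP_eq h0 d ha hW]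
  congr 1
  unfold J
  refine Equiv.swap_apply_of_ne_of_ne ?_ ?_
  · rintro rfl
    exact h' (on_oth r' v)
  · rintro rfl
    exact h (on_oth r v)

theorem MMW_eq_zero (d : Tok → F) {s₀ : St S R Tok} (hg : P.Good s₀) {r : R} {L : S} (h : P.On r L) :
    MMW P d s₀ r L = 0 := by
  unfold MMW
  refine Finset.sum_eq_zero fun pos hp => Finset.sum_eq_zero fun t _ => ?_
  rw [if_neg]
  intro e
  exact (((mem_fibW.1 hp).good hg).2 L).1 ⟨t, e⟩ h

theorem MPW_eq_zero (d : Tok → F) {s₀ : St S R Tok} (hg : P.Good s₀) {r : R} {L : S} (h : P.On r L) :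
    MPW P d s₀ r L = 0 := by
  unfold MPW
  refine Finset.sum_eq_zero fun pos hp => Finset.sum_eq_zero fun t _ => ?_
  rw [if_neg]
  intro e
  have h1 := ((mem_preW.1 hp).good hg).2 (P.T r L)
  exact (h1.1 ⟨t, by show P.T r (pos t) = _; rw [e]⟩) ((on_tau r L).2 h)

theorem sum_MMW (d : Tok → F) (s₀ : St S R Tok) (r : R) :
    ∑ L, MMW P d s₀ r L = (fibW P s₀ r).card * ∑ t, d t := by
  unfold MMW
  rw [Finset.sum_comm]
  rw [Finset.sum_congr rfl (g := fun _ => ∑ t, d t)]
  · rw [Finset.sum_const, nsmul_eq_mul]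
  · intro pos _
    rw [Finset.sum_comm]
    refine Finset.sum_congr rfl fun t _ => ?_
    simp

theorem sum_MPW (d : Tok → F) (s₀ : St S R Tok) (r : R) :
    ∑ L, MPW P d s₀ r L = (preW P s₀ r).card * ∑ t, d t := by
  unfold MPW
  rw [Finset.sum_comm]
  rw [Finset.sum_congr rfl (g := fun _ => ∑ t, d t)]
  · rw [Finset.sum_const, nsmul_eq_mul]
  · intro pos _
    rw [Finset.sum_comm]
    refine Finset.sum_congr rfl fun t _ => ?_
    simp

/-- The weights before and after the gadget. -/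
noncomputable def GGW (P : Puz S R) (d : Tok → F) (s₀ : St S R Tok) (r : R) (L : S) : F :=
  MMW P d s₀ r L + MPW P d s₀ r L

theorem RetK.GG_adj (hK : P.RetK K) {s₀ : St S R Tok} (h0 : K s₀.1) (d : Tok → F) {r r' : R} {v : S}
    (ha : P.Adj r r' v) (hl : P.Lk K r r') {L : S}
    (h : ¬ P.On r L) (h' : ¬ P.On r' L) : GGW P d s₀ r' L = GGW P d s₀ r L := by
  unfold GGW
  rw [hK.MP_avoid h0 d ha hl.1 h h', hK.MP_avoid h0 d ha.symm hl.2 h' h, add_comm]

theorem HypK.GG_par (hK : P.HypK K) {s₀ : St S R Tok} (h0 : K s₀.1) (d : Tok → F) {r r' : R} {v : S}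
    (h : P.On r v) (h' : P.On r' v) (e : P.oth r v = P.oth r' v) (L : S) : GGW P d s₀ r' L = GGW P d s₀ r L := by
  obtain ⟨q, hq, hq2⟩ := hK.two r v h
  have hq' : P.Adj r' q v := ⟨h', hq.2.1, fun h3 => hq.2.2 (e.trans h3)⟩
  have hq3 := hK.par_lk h h' e hq2
  have h3 : MMW P d s₀ r L = MPW P d s₀ q (P.J r q v L) := by
    rw [hK.toRetK.MP_eq h0 d hq hq2.1, J_J]
  have h4 : MMW P d s₀ r' L = MPW P d s₀ q (P.J r' q v L) := by
    rw [hK.toRetK.MP_eq h0 d hq' hq3.1, J_J]
  unfold GGW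
  rw [h3, h4, hK.toRetK.MP_eq h0 d hq.symm hq2.2, hK.toRetK.MP_eq h0 d hq'.symm hq3.2, J_par e, J_par' e]

/-- The common value. -/
theorem HypK.exists_GG (hK : P.HypK K) {s₀ : St S R Tok} (h0 : K s₀.1) (d : Tok → F) :
    ∃ G : S → F, ∀ r L, ¬ P.On r L → GGW P d s₀ r L = G L := by
  have key : ∀ L, ∃ m : F, ∀ r, ¬ P.On r L → GGW P d s₀ r L = m := by
    intro L
    by_cases h : ∃ r, ¬ P.On r L
    · obtain ⟨a, ha⟩ := h
      refine ⟨GGW P d s₀ a L, fun r hr => ?_⟩
      induction hK.cut L a r ha hr with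
      | refl => rfl
      | @tail b c _ hstep ih =>
        obtain ⟨hx, hy, v, h3, h4, h5⟩ := hstep
        rw [← ih hx]
        by_cases e : P.oth b v = P.oth c v
        · exact hK.GG_par h0 d h3 h4 e L
        · exact hK.toRetK.GG_adj h0 d ⟨h3, h4, e⟩ (h5.resolve_left e) hx hy
    · exact ⟨0, fun r hr => absurd ⟨r, hr⟩ h⟩
  choose G hG using key
  exact ⟨G, fun r L h => hG L r h⟩

/-- LEMMA M, symmetrised, for a closed class of caps. -/
theorem HypK.lemmaM (hK : P.HypK K) {s₀ : St S R Tok} (h0 : K s₀.1) (d : Tok → F)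
    (hg : P.Good s₀) (hf : ((Fintype.card Tok).factorial : F) ≠ 0) (h20 : (2 : F) ≠ 0) :
    ∃ (G : S → F) (n : F), n ≠ 0 ∧ (∀ r L, ¬ P.On r L → MMW P d s₀ r L + MPW P d s₀ r L = G L) ∧
      (∀ r r' v, P.Adj r r' v → P.Lk K r r' → G (P.oth r v) = G (P.oth r' v) ∧
        MMW P d s₀ r (P.oth r' v) + MMW P d s₀ r' (P.oth r v) = G (P.oth r v)) ∧
      (∀ r, (∑ L, if P.On r L then (0 : F) else G L) = n * ∑ t, d t) ∧
      ∀ r, ((fibW P s₀ r).card : F) + ((preW P s₀ r).card : F) = n := by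
  obtain ⟨G, hG⟩ := hK.exists_GG h0 d
  refine ⟨G, nnW P s₀ s₀.1, hK.nn_ne_zero h0 hg hf h20 _, hG, ?_, ?_, ?_⟩
  · intro r r' v ha hl
    have h3 : MPW P d s₀ r' (P.oth r v) = MMW P d s₀ r (P.oth r' v) := by
      rw [hK.toRetK.MP_eq h0 d ha hl.1]
      congr 1
      exact Equiv.swap_apply_right _ _
    have h4 : MPW P d s₀ r (P.oth r' v) = MMW P d s₀ r' (P.oth r v) := by
      rw [hK.toRetK.MP_eq h0 d ha.symm hl.2]
      congr 1
      exact Equiv.swap_apply_right _ _
    have h5 : MMW P d s₀ r' (P.oth r v) + MPW P d s₀ r' (P.oth r v) = G (P.oth r v) := hG r' _ ha.not_on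
    have h6 : MMW P d s₀ r (P.oth r' v) + MPW P d s₀ r (P.oth r' v) = G (P.oth r' v) := hG r _ ha.symm.not_on
    rw [h3] at h5
    rw [h4] at h6
    refine ⟨?_, ?_⟩
    · rw [← h5, ← h6, add_comm]
    · rw [← h5, add_comm]
  · intro r
    have h3 : (∑ L, if P.On r L then (0 : F) else G L) = ∑ L, GGW P d s₀ r L := by
      refine Finset.sum_congr rfl fun L _ => ?_
      by_cases h : P.On r L
      · rw [if_pos h]
        unfold GGW
        rw [MMW_eq_zero d hg h, MPW_eq_zero d hg h, add_zero]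
      · rw [if_neg h]
        exact (hG r L h).symm
    rw [h3]
    unfold GGW
    rw [Finset.sum_add_distrib, sum_MMW, sum_MPW, ← add_mul, ← Nat.cast_add]
    congr 2
    exact hK.nn_const h0 s₀.1 r
  · intro r
    rw [← Nat.cast_add]
    congr 1
    exact hK.nn_const h0 s₀.1 r

end fibres

end Puz

end Pool.Agent.Lib.MP_688fd0_co.SQ2.V
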