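import Pool.Agent.Lib.MP_688fd0_co.SQ3.H98.Collar

/-!
Rectangular windows.
-/

set_option autoImplicit false

namespace Pool.Agent.Lib.MP_688fd0_co.SQ3

open Pool.Agent.Lib.MP_688fd0_co.OSF Pool.Agent.Lib.MP_688fd0_co.SQ2 Finset

universe u v w

variable {Q : Type u} [Group Q] [DecidableEq Q] {B : Lb.{u, v} Q}

/-- A rectangular window of height `M`. -/
structure RectU (U : Up B) (X : TW B) (M : ℕ) : Prop where
  top : X.L₁ = im (U.U ^ M) X.L₀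
  reg : X.R = U.lev X.L₀ M

omit [DecidableEq Q] in
theorem mem_im_pow (U : Up B) (L : Finset Q) (n : ℕ) (x : Q) :
    x ∈ im (U.U ^ n) L ↔ ∃ y ∈ L, (U.U ^ n) y = x := by
  rw [mem_im]
  constructor
  · intro h
    exact ⟨_, h, by simp⟩
  · rintro ⟨y, hy, rfl⟩
    simpa using hy

/-- RECT: a window whose frontiers are not level is made rectangular. `s y` is the height of the bottom vertex of the
strand of `y ∈ L`. -/
theorem rectU (U : Up B) (X : TW B) (m : ℕ) (hX : RectU U X m) (L : Finset Q) (s : Q → ℕ) (M : ℕ)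
    (hm : ∀ y ∈ L, (U.U ^ s y) y ∈ X.L₀)
    (hn : ∀ y ∈ L, ∀ y' ∈ L, (U.U ^ s y) y = (U.U ^ s y') y' → y = y')
    (hs : ∀ x ∈ X.L₀, ∃ y ∈ L, (U.U ^ s y) y = x)
    (hM : ∀ y ∈ L, s y + m ≤ M) (v₀ v₁ y₀ y₁ : Q) (hv₀ : v₀ ∈ L) (hv₁ : v₁ ∈ L) (hy₀ : y₀ ∈ L) (hy₁ : y₁ ∈ L)
    (e₀ : (U.U ^ s v₀) v₀ = X.u₀) (e₁ : (U.U ^ s v₁) v₁ = X.u₁)
    (d₀ : (U.U ^ (s y₀ + m)) y₀ = X.w₀) (d₁ : (U.U ^ (s y₁ + m)) y₁ = X.w₁) :
    ∃ Y : TW B, RectU U Y M ∧ Y.L₀ = L ∧ Y.u₀ = v₀ ∧ Y.u₁ = v₁ ∧ Y.w₀ = (U.U ^ M) y₀ ∧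
      Y.w₁ = (U.U ^ M) y₁ ∧ Y.cup = U.str (s v₀) v₀ ++ (X.cup ++ U.dn (s v₁) v₁) ∧
      Y.cap = U.dn (M - m - s y₀) X.w₀ ++ (X.cap ++ U.str (M - m - s y₁) X.w₁) ∧
      ∀ y ∈ L, y ≠ v₀ → y ≠ v₁ → ∀ y' ∈ L, X.f ((U.U ^ s y) y) = (U.U ^ (s y' + m)) y' →
        Y.f y = (U.U ^ M) y' ∧
        Y.path y = U.str (s y) y ++ X.path ((U.U ^ s y) y) ++
          U.str (M - m - s y') ((U.U ^ (s y' + m)) y') := by
  classical
  have hadd : ∀ (a b : ℕ) (y : Q), (U.U ^ b) ((U.U ^ a) y) = (U.U ^ (a + b)) y := fun a b y =>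
    (U.U_pow_add a b y).symm
  have hninj : ∀ y ∈ L, ∀ y' ∈ L, (U.U ^ (s y + m)) y = (U.U ^ (s y' + m)) y' → y = y' := by
    intro y hy y' hy' h
    refine hn _ hy _ hy' ?_
    rw [← hadd, ← hadd] at h
    exact (U.U ^ m).injective h
  -- the base vertex of a top vertex
  have hb : ∃ b : Q → Q, ∀ y ∈ L, b ((U.U ^ (s y + m)) y) = y := by
    refine ⟨fun v => if h : ∃ y ∈ L, (U.U ^ (s y + m)) y = v then h.choose else v, ?_⟩
    intro y hy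
    have hex : ∃ y' ∈ L, (U.U ^ (s y' + m)) y' = (U.U ^ (s y + m)) y := ⟨y, hy, rfl⟩
    show (if h : _ then _ else _) = y
    rw [dif_pos hex]
    exact hninj _ hex.choose_spec.1 _ hy hex.choose_spec.2
  obtain ⟨b, hb⟩ := hb
  have hsum : ∀ y ∈ L, (U.U ^ (M - m - s y)) ((U.U ^ (s y + m)) y) = (U.U ^ M) y := by
    intro y hy
    have := hM y hy
    rw [hadd]
    congr 2
    omega
  have htop : ∀ v ∈ X.L₁, ∃ y ∈ L, (U.U ^ (s y + m)) y = v := by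
    intro v hv
    rw [hX.top, mem_im_pow] at hv
    obtain ⟨x, hx, rfl⟩ := hv
    obtain ⟨y, h1, rfl⟩ := hs _ hx
    exact ⟨y, h1, (hadd _ _ _).symm⟩
  have htop' : ∀ y ∈ L, (U.U ^ (s y + m)) y ∈ X.L₁ := by
    intro y hy
    rw [hX.top, mem_im_pow]
    exact ⟨_, hm y hy, hadd _ _ _⟩
  set n : Q → ℕ := fun v => M - m - s (b v) with hn'
  have hnb : ∀ y ∈ L, n ((U.U ^ (s y + m)) y) = M - m - s y := by
    intro y hy
    rw [hn']
    show M - m - s (b _) = _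
    rw [hb y hy]
  set X1 := U.pre X L s v₀ v₁ hv₀ hv₁ e₀ e₁ hm hn hs with hX1
  have hinj : ∀ y ∈ X1.L₁, ∀ y' ∈ X1.L₁, (U.U ^ n y) y = (U.U ^ n y') y' → y = y' := by
    intro v hv v' hv' h
    obtain ⟨y, h1, rfl⟩ := htop v hv
    obtain ⟨y', h1', rfl⟩ := htop v' hv'
    rw [hnb y h1, hnb y' h1', hsum y h1, hsum y' h1'] at h
    rw [(U.U ^ M).injective h]
  have hw₀ : X1.w₀ = (U.U ^ (s y₀ + m)) y₀ := d₀.symm
  have hw₁ : X1.w₁ = (U.U ^ (s y₁ + m)) y₁ := d₁.symm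
  refine ⟨U.post X1 n hinj, ⟨?_, ?_⟩, rfl, rfl, rfl, ?_, ?_, ?_, ?_, ?_⟩
  · show X.L₁.image (fun y => (U.U ^ n y) y) = im (U.U ^ M) L
    ext v
    rw [mem_im_pow, Finset.mem_image]
    constructor
    · rintro ⟨w, hw, rfl⟩
      obtain ⟨y, h1, rfl⟩ := htop w hw
      exact ⟨y, h1, by rw [hnb y h1, hsum y h1]⟩
    · rintro ⟨y, hy, rfl⟩
      refine ⟨(U.U ^ (s y + m)) y, htop' y hy, ?_⟩
      rw [hnb _ hy, hsum _ hy]
  · show (U.post X1 n hinj).R = U.lev L M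
    rw [Up.post_R, hX1, Up.pre_R, hX.reg, Up.lev_eq, Up.lev_eq]
    have t0 : ∑ x ∈ X.L₀, ∑ i ∈ range m, ({(U.U ^ i) x} : Multiset Q) =
        ∑ y ∈ L, ∑ i ∈ range m, {(U.U ^ (s y + i)) y} := by
      symm
      refine Finset.sum_nbij (fun y => (U.U ^ s y) y) ?_ ?_ ?_ ?_
      · intro y hy; exact hm y hy
      · intro y hy y' hy' h; exact hn y (Finset.mem_coe.1 hy) y' (Finset.mem_coe.1 hy') h
      · intro x hx
        obtain ⟨y, h1, h2⟩ := hs x (Finset.mem_coe.1 hx)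
        exact ⟨y, Finset.mem_coe.2 h1, h2⟩
      · intro y _
        exact Finset.sum_congr rfl fun i _ => by rw [hadd]
    have t1 : ∑ v ∈ X.L₁, ∑ i ∈ range (n v), ({(U.U ^ i) v} : Multiset Q) =
        ∑ y ∈ L, ∑ i ∈ range (M - m - s y), {(U.U ^ (s y + m + i)) y} := by
      symm
      refine Finset.sum_nbij (fun y => (U.U ^ (s y + m)) y) ?_ ?_ ?_ ?_
      · intro y hy; exact htop' y hy
      · intro y hy y' hy' h
        exact hninj y (Finset.mem_coe.1 hy) y' (Finset.mem_coe.1 hy') h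
      · intro x hx
        obtain ⟨y, h1, h2⟩ := htop x (Finset.mem_coe.1 hx)
        exact ⟨y, Finset.mem_coe.2 h1, h2⟩
      · intro y hy
        rw [hnb y hy]
        exact Finset.sum_congr rfl fun i _ => by rw [hadd]
    rw [t0]
    show _ + ∑ v ∈ X.L₁, ∑ i ∈ range (n v), ({(U.U ^ i) v} : Multiset Q) = _
    rw [t1, ← Finset.sum_add_distrib, ← Finset.sum_add_distrib]
    refine Finset.sum_congr rfl fun y hy => ?_
    have h0 := hM y hy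
    have h1 : M = s y + m + (M - m - s y) := by omega
    conv_rhs => rw [h1]
    rw [Finset.sum_range_add, Finset.sum_range_add]
  · show (U.U ^ n X1.w₀) X1.w₀ = _
    rw [hw₀, hnb y₀ hy₀, hsum y₀ hy₀]
  · show (U.U ^ n X1.w₁) X1.w₁ = _
    rw [hw₁, hnb y₁ hy₁, hsum y₁ hy₁]
  · rfl
  · show U.dn (n X1.w₀) X1.w₀ ++ (X1.cap ++ U.str (n X1.w₁) X1.w₁) = _
    have h2 : n X1.w₀ = M - m - s y₀ := by rw [hw₀, hnb y₀ hy₀]
    have h3 : n X1.w₁ = M - m - s y₁ := by rw [hw₁, hnb y₁ hy₁]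
    rw [h2, h3]
    rfl
  · intro y hy h0 h1 y' hy' h
    have h2 : X1.f y = (U.U ^ (s y' + m)) y' := h
    refine ⟨?_, ?_⟩
    · show (U.U ^ n (X1.f y)) (X1.f y) = _
      rw [h2, hnb y' hy', hsum y' hy']
    · show X1.path y ++ U.str (n (X1.f y)) (X1.f y) = _
      rw [h2, hnb y' hy']
      rfl

end Pool.Agent.Lib.MP_688fd0_co.SQ3
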