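import Pool.Agent.Lib.MP_688fd0_co.SQ3.H98.TG

/-!
T-gadgets with rungs depending on the level.

`L` is a frontier; at the level `l` the rung permutation is `P l : Equiv.Perm L`, in the coordinates of `L`:
`U ^ l y · q (ℓ l y) = U ^ l (P l y)`. The cup is at the level `0` between `x` and `P 0 x`; the holes are
`U ^ l (R l x)` and `U ^ l (R l (P 0 x))` at the level `l`, `R l = P (l - 1) ⋯ P 1`; they are joined at the first level
`m ≥ 1` with `P m (R m x) = R m (P 0 x)`. No left translations are used.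

`D y` means that the strand `y` belongs to the component of the gadget; the other tokens go straight.
-/

set_option autoImplicit false

namespace Pool.Agent.Lib.MP_688fd0_co.SQ3

open Pool.Agent.Lib.MP_688fd0_co.OSF Pool.Agent.Lib.MP_688fd0_co.SQ2 Finset

universe u v w

variable {Q : Type u} [Group Q] [DecidableEq Q] {B : Lb.{u, v} Q}

/-- `R l = P (l - 1) ⋯ P 1`. -/
def RP {L : Type u} (P : ℕ → Equiv.Perm L) : ℕ → Equiv.Perm L
  | 0 => (P 0)⁻¹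
  | l + 1 => P l * RP P l

theorem RP_one {L : Type u} (P : ℕ → Equiv.Perm L) : RP P 1 = 1 := by
  show P 0 * (P 0)⁻¹ = 1
  exact mul_inv_cancel _

theorem RP_succ {L : Type u} (P : ℕ → Equiv.Perm L) (l : ℕ) : RP P (l + 1) = P l * RP P l := rfl

section tokens

variable {U : Up B} {L : Finset Q} {D : L → Prop}

/-- The tokens at level `n`: those in `D` are again in `D`, the others have gone straight. -/
def TkL (U : Up B) (L : Finset Q) (D : L → Prop) (u₀ u₁ : Q) (f : Q → Q) (path : Q → List B.L) (n : ℕ) : Prop :=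
  ∀ x : L, (x : Q) ≠ u₀ → (x : Q) ≠ u₁ →
    (D x → ∃ y : L, D y ∧ f x = (U.U ^ n) (y : Q)) ∧
    (¬ D x → f x = (U.U ^ n) (x : Q) ∧ path x = U.str n (x : Q))

omit [DecidableEq Q] in
theorem Upow_inj (U : Up B) (n : ℕ) {x y : Q} (h : (U.U ^ n) x = (U.U ^ n) y) : x = y := (U.U ^ n).injective h

omit [DecidableEq Q] in
theorem Upow_mem (U : Up B) (n : ℕ) {L : Finset Q} (y : L) : (U.U ^ n) (y : Q) ∈ im (U.U ^ n) L :=
  map_mem_im.2 y.2

theorem tkL_cross (X : HW B) (n : ℕ) (h : TkL U L D X.u₀ X.u₁ X.f X.path n) (r : Q) (c : List B.L)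
    (hr : r ∈ X.tok₁) (hc : B.fin r c = X.p₀) (r' p' : L) (hr' : D r') (hp' : D p')
    (er : r = (U.U ^ n) (r' : Q)) (ep : X.p₀ = (U.U ^ n) (p' : Q)) :
    TkL U L D (X.cross r c hr hc).u₀ (X.cross r c hr hc).u₁ (X.cross r c hr hc).f
      (X.cross r c hr hc).path n := by
  intro x h0 h1
  obtain ⟨t1, t2⟩ := h x h0 h1
  have ef : (X.cross r c hr hc).f x = if X.f x = r then X.p₀ else X.f x := rfl
  have eg : (X.cross r c hr hc).path x = X.path x ++ (if X.f x = r then c else []) := rfl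
  refine ⟨fun hx => ?_, fun hx => ?_⟩
  · obtain ⟨y, hy, e⟩ := t1 hx
    by_cases hh : X.f x = r
    · exact ⟨p', hp', by rw [ef, if_pos hh, ep]⟩
    · exact ⟨y, hy, by rw [ef, if_neg hh, e]⟩
  · obtain ⟨e1, e2⟩ := t2 hx
    have hh : X.f x ≠ r := by
      intro h'
      rw [e1, er] at h'
      have h2 : x = r' := Subtype.ext (Upow_inj U n h')
      exact hx (h2 ▸ hr')
    refine ⟨by rw [ef, if_neg hh, e1], ?_⟩
    rw [eg, if_neg hh, List.append_nil, e2]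

theorem tkL_adv (X : HW B) (n : ℕ) (h : TkL U L D X.u₀ X.u₁ X.f X.path n) :
    TkL U L D (adv X U).u₀ (adv X U).u₁ (adv X U).f (adv X U).path (n + 1) := by
  intro x h0 h1
  obtain ⟨t1, t2⟩ := h x h0 h1
  have ef : (adv X U).f x = U.U (X.f x) := rfl
  have eg : (adv X U).path x = X.path x ++ [U.up (X.f x)] := rfl
  refine ⟨fun hx => ?_, fun hx => ?_⟩
  · obtain ⟨y, hy, e1⟩ := t1 hx
    exact ⟨y, hy, by rw [ef, e1, U.U_pow_succ']⟩
  · obtain ⟨e1, e2⟩ := t2 hx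
    refine ⟨?_, ?_⟩
    · rw [ef, e1, U.U_pow_succ']
    · rw [eg, e1, e2, U.str_succ']

omit [DecidableEq Q] in
theorem tkL_start (u₀ u₁ : Q) : TkL U L D u₀ u₁ (fun z : Q => z) (fun _ => []) 0 := by
  intro x _ _
  refine ⟨fun hx => ⟨x, hx, rfl⟩, fun _ => ⟨rfl, rfl⟩⟩

end tokens

section run

variable {U : Up B} {L : Finset Q} {P : ℕ → Equiv.Perm L} {ℓ : ℕ → L → B.L} {D : L → Prop}
  (hP : ∀ (l : ℕ) (y : L), D y → (U.U ^ l) (y : Q) * B.q (ℓ l y) = (U.U ^ l) (P l y : Q))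
  (hDP : ∀ (l : ℕ) (y : L), D y → D (P l y))

omit [DecidableEq Q] in
include hP in
theorem PL_ne (l : ℕ) (y : L) (hy : D y) : P l y ≠ y := by
  intro h
  have := hP l y hy
  rw [h] at this
  exact B.ne_one _ (mul_eq_left.1 this)

include hP hDP in
/-- One level of the hole run. -/
theorem runL_step (X : HW B) (l : ℕ) (p q : L) (hDp : D p) (hDq : D q) (hL : X.L₁ = im (U.U ^ l) L)
    (hp₀ : X.p₀ = (U.U ^ l) (p : Q)) (hp₁ : X.p₁ = (U.U ^ l) (q : Q)) (hne : P l p ≠ q)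
    (ht : TkL U L D X.u₀ X.u₁ X.f X.path l) :
    ∃ Y : HW B, Y.L₀ = X.L₀ ∧ Y.L₁ = im (U.U ^ (l + 1)) L ∧ Y.u₀ = X.u₀ ∧ Y.u₁ = X.u₁ ∧
      Y.cup = X.cup ∧ Y.p₀ = (U.U ^ (l + 1)) (P l p : Q) ∧ Y.p₁ = (U.U ^ (l + 1)) (P l q : Q) ∧
      Y.R = X.R + (im (U.U ^ l) L).val ∧ TkL U L D Y.u₀ Y.u₁ Y.f Y.path (l + 1) := by
  have hpq : p ≠ q := by
    rintro rfl
    exact X.hp (by rw [hp₀, hp₁])
  have hr : (U.U ^ l) (P l p : Q) ∈ X.tok₁ := by
    rw [HW.mem_tok₁, hL, hp₀, hp₁]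
    refine ⟨Upow_mem U l _, fun h => ?_, fun h => ?_⟩
    · exact PL_ne hP l p hDp (Subtype.ext (Upow_inj U l h))
    · exact hne (Subtype.ext (Upow_inj U l h))
  have hc : B.fin ((U.U ^ l) (P l p : Q)) [B.inv (ℓ l p)] = X.p₀ := by
    show (U.U ^ l) (P l p : Q) * B.q (B.inv (ℓ l p)) = X.p₀
    rw [hp₀, B.q_inv, ← hP l p hDp, mul_inv_cancel_right]
  set X1 := (X.cross _ _ hr hc).swap with hX1
  have h1L : X1.L₁ = im (U.U ^ l) L := hL
  have h1p : X1.p₀ = (U.U ^ l) (q : Q) := hp₁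
  have h1q : X1.p₁ = (U.U ^ l) (P l p : Q) := rfl
  have h1R : X1.R = X.R + {(U.U ^ l) (P l p : Q)} := by
    rw [hX1, HW.swap_R, HW.cross_R]; rfl
  have h1T : TkL U L D X1.u₀ X1.u₁ X1.f X1.path l :=
    tkL_cross X l ht _ _ hr hc (P l p) p (hDP _ _ hDp) hDp rfl hp₀
  have hr' : (U.U ^ l) (P l q : Q) ∈ X1.tok₁ := by
    rw [HW.mem_tok₁, h1L, h1p, h1q]
    refine ⟨Upow_mem U l _, fun h => ?_, fun h => ?_⟩
    · exact PL_ne hP l q hDq (Subtype.ext (Upow_inj U l h))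
    · exact hpq ((P l).injective (Subtype.ext (Upow_inj U l h))).symm
  have hc' : B.fin ((U.U ^ l) (P l q : Q)) [B.inv (ℓ l q)] = X1.p₀ := by
    show (U.U ^ l) (P l q : Q) * B.q (B.inv (ℓ l q)) = X1.p₀
    rw [h1p, B.q_inv, ← hP l q hDq, mul_inv_cancel_right]
  set X2 := (X1.cross _ _ hr' hc').swap with hX2
  have h2L : X2.L₁ = im (U.U ^ l) L := h1L
  have h2p : X2.p₀ = (U.U ^ l) (P l p : Q) := h1q
  have h2q : X2.p₁ = (U.U ^ l) (P l q : Q) := rfl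
  have h2R : X2.R = X.R + {(U.U ^ l) (P l p : Q)} + {(U.U ^ l) (P l q : Q)} := by
    rw [hX2, HW.swap_R, HW.cross_R, h1R]; rfl
  have h2T : TkL U L D X2.u₀ X2.u₁ X2.f X2.path l :=
    tkL_cross X1 l h1T _ _ hr' hc' (P l q) q (hDP _ _ hDq) hDq rfl h1p
  have h2t := X2.L₁_val
  rw [h2p, h2q, h2L] at h2t
  refine ⟨adv X2 U, rfl, ?_, rfl, rfl, rfl, ?_, ?_, ?_, tkL_adv X2 l h2T⟩
  · show im U.U X2.L₁ = _
    rw [h2L, ← im_mul, ← pow_succ']
  · show U.U X2.p₀ = _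
    rw [h2p, U.U_pow_succ']
  · show U.U X2.p₁ = _
    rw [h2q, U.U_pow_succ']
  · rw [adv_R, h2R, h2t]
    abel

omit [Group Q] [DecidableEq Q] in
include hDP in
theorem D_RP (x : L) (hx : D x) (n : ℕ) : D (RP P (n + 1) x) ∧ D (RP P (n + 1) (P 0 x)) := by
  induction n with
  | zero => rw [RP_one]; exact ⟨hx, hDP 0 x hx⟩
  | succ n ih =>
    rw [RP_succ P (n + 1)]
    exact ⟨hDP _ _ ih.1, hDP _ _ ih.2⟩

include hP hDP in
/-- The hole run up to the level `n + 1`. -/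
theorem runL (x : L) (hx : D x) (n : ℕ)
    (hn : ∀ i, 1 ≤ i → i < n + 1 → P i (RP P i x) ≠ RP P i (P 0 x)) :
    ∃ X : HW B, X.L₀ = L ∧ X.L₁ = im (U.U ^ (n + 1)) L ∧ X.u₀ = x ∧ X.u₁ = P 0 x ∧ X.cup = [ℓ 0 x] ∧
      X.p₀ = (U.U ^ (n + 1)) (RP P (n + 1) x : Q) ∧ X.p₁ = (U.U ^ (n + 1)) (RP P (n + 1) (P 0 x) : Q) ∧
      X.R = ∑ i ∈ range (n + 1), (im (U.U ^ i) L).val ∧ TkL U L D X.u₀ X.u₁ X.f X.path (n + 1) := by
  induction n with
  | zero =>
    have hf : B.fin (x : Q) [ℓ 0 x] = (P 0 x : Q) := hP 0 x hx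
    set X0 : HW B := HW.start L (x : Q) (P 0 x : Q) [ℓ 0 x] x.2 (P 0 x).2
      (fun h => PL_ne hP 0 x hx (Subtype.ext h).symm) hf with hX0
    have h0R : X0.R = {(x : Q)} + {(P 0 x : Q)} := by
      rw [hX0, HW.start_R]
      show (((x : Q) :: [(x : Q) * B.q (ℓ 0 x)] : List Q) : Multiset Q) = _
      have e0 : (x : Q) * B.q (ℓ 0 x) = (P 0 x : Q) := hP 0 x hx
      rw [e0]
      rfl
    have h0t := X0.L₁_val
    have h0L : X0.L₁ = L := rfl
    have h0p : X0.p₀ = x := rfl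
    have h0q : X0.p₁ = P 0 x := rfl
    refine ⟨adv X0 U, rfl, ?_, rfl, rfl, rfl, ?_, ?_, ?_, tkL_adv X0 0 (tkL_start _ _)⟩
    · show im U.U L = _
      rw [zero_add, pow_one]
    · show U.U (x : Q) = _
      rw [zero_add, RP_one, pow_one]
      rfl
    · show U.U (P 0 x : Q) = _
      rw [zero_add, RP_one, pow_one]
      rfl
    · rw [adv_R, h0R, range_one, sum_singleton, pow_zero, im_one]
      rw [h0L, h0p, h0q] at h0t
      rw [h0t]
      abel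
  | succ n ih =>
    obtain ⟨X, a1, a2, a3, a4, a5, a6, a7, a8, a9⟩ := ih (fun i h1 hi => hn i h1 (by omega))
    obtain ⟨Y, b1, b2, b3, b4, b5, b6, b7, b8, b9⟩ := runL_step hP hDP X (n + 1) _ _
      (D_RP hDP x hx n).1 (D_RP hDP x hx n).2 a2 a6 a7 (hn (n + 1) (by omega) (by omega)) a9
    refine ⟨Y, b1.trans a1, b2, b3.trans a3, b4.trans a4, b5.trans a5, b6, b7, ?_, b9⟩
    rw [b8, a8, sum_range_succ _ (n + 1)]

include hP hDP in
/-- T-gadget: the cup at the level `0` from `x`, the cap at the first level `m` where the holes are joined by a rung. -/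
theorem TGL (x : L) (hx : D x) (m : ℕ) (hm : 1 ≤ m) (h1 : P m (RP P m x) = RP P m (P 0 x))
    (h2 : ∀ i, 1 ≤ i → i < m → P i (RP P i x) ≠ RP P i (P 0 x)) :
    ∃ X : TW B, X.L₀ = L ∧ X.L₁ = im (U.U ^ m) L ∧ X.u₀ = x ∧ X.u₁ = P 0 x ∧ X.cup = [ℓ 0 x] ∧
      X.w₀ = (U.U ^ m) (RP P m x : Q) ∧ X.w₁ = (U.U ^ m) (P m (RP P m x) : Q) ∧ X.cap = [ℓ m (RP P m x)] ∧
      X.R = ∑ i ∈ range m, (im (U.U ^ i) L).val ∧ TkL U L D X.u₀ X.u₁ X.f X.path m := by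
  obtain ⟨n, rfl⟩ := Nat.exists_eq_succ_of_ne_zero (show m ≠ 0 by omega)
  obtain ⟨X, a1, a2, a3, a4, a5, a6, a7, a8, a9⟩ := runL hP hDP x hx n h2
  have hD := (D_RP hDP x hx n).1
  have hc : B.fin X.p₀ [ℓ (n + 1) (RP P (n + 1) x)] = X.p₁ := by
    show X.p₀ * B.q _ = X.p₁
    rw [a6, a7, hP _ _ hD, h1]
  refine ⟨X.close _ hc, a1, a2, a3, a4, a5, a6, ?_, rfl, ?_, a9⟩
  · show X.p₁ = _
    rw [a7, ← h1]
  · rw [HW.close_R, a8]
    show _ + (([] : List Q) : Multiset Q) = _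
    simp

end run

section per

theorem RP_add {L : Type u} (P : ℕ → Equiv.Perm L) (e : ℕ) (hper : ∀ l, P (l + e) = P l) (j : ℕ) :
    RP P (j + e) = RP P j * (P 0 * RP P e) := by
  induction j with
  | zero =>
    rw [zero_add]
    show RP P e = (P 0)⁻¹ * (P 0 * RP P e)
    rw [inv_mul_cancel_left]
  | succ j ih => rw [show j + 1 + e = j + e + 1 by omega, RP_succ, RP_succ, hper, ih, mul_assoc]

theorem RP_per {L : Type u} (P : ℕ → Equiv.Perm L) (e : ℕ) (hper : ∀ l, P (l + e) = P l) (j n : ℕ) :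
    RP P (j + e * n) = RP P j * (P 0 * RP P e) ^ n := by
  induction n with
  | zero => rw [mul_zero, add_zero, pow_zero, mul_one]
  | succ n ih => rw [show j + e * (n + 1) = j + e * n + e by ring, RP_add P e hper, ih, pow_succ, mul_assoc]

theorem P_per {L : Type u} (P : ℕ → Equiv.Perm L) (e : ℕ) (hper : ∀ l, P (l + e) = P l) (j n : ℕ) :
    P (j + e * n) = P j := by
  induction n with
  | zero => rw [mul_zero, add_zero]
  | succ n ih => rw [show j + e * (n + 1) = j + e * n + e by ring, hper, ih]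

/-- The holes meet. -/
theorem meet {L : Type u} (P : ℕ → Equiv.Perm L) (e n : ℕ) (hper : ∀ l, P (l + e) = P l)
    (hn : (P 0 * RP P e) ^ n = 1) (x : L) : P (e * n) (RP P (e * n) x) = RP P (e * n) (P 0 x) := by
  have h1 := RP_per P e hper 0 n
  have h2 := P_per P e hper 0 n
  rw [zero_add] at h1 h2
  rw [h1, h2, hn, mul_one]
  show P 0 ((P 0)⁻¹ x) = (P 0)⁻¹ (P 0 x)
  simp

variable {U : Up B} {L : Finset Q} {P : ℕ → Equiv.Perm L} {ℓ : ℕ → L → B.L} {D : L → Prop}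

/-- T-gadget for periodic rungs. -/
theorem TGLp (hP : ∀ (l : ℕ) (y : L), D y → (U.U ^ l) (y : Q) * B.q (ℓ l y) = (U.U ^ l) (P l y : Q))
    (hDP : ∀ (l : ℕ) (y : L), D y → D (P l y)) (e : ℕ) (he : 0 < e) (hper : ∀ l, P (l + e) = P l) (x : L)
    (hx : D x) :
    ∃ (m : ℕ) (y : L) (X : TW B), 1 ≤ m ∧ m ≤ e * L.card.factorial ∧ D y ∧ y = RP P m x ∧
      P m y = RP P m (P 0 x) ∧ (∀ i, 1 ≤ i → i < m → P i (RP P i x) ≠ RP P i (P 0 x)) ∧ X.L₀ = L ∧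
      X.L₁ = im (U.U ^ m) L ∧ X.u₀ = x ∧ X.u₁ = P 0 x ∧ X.cup = [ℓ 0 x] ∧
      X.w₀ = (U.U ^ m) (y : Q) ∧ X.w₁ = (U.U ^ m) (P m y : Q) ∧ X.cap = [ℓ m y] ∧
      X.R = ∑ i ∈ range m, (im (U.U ^ i) L).val ∧ TkL U L D X.u₀ X.u₁ X.f X.path m := by
  classical
  have hcard : Nat.card (Equiv.Perm L) = L.card.factorial := by
    rw [Nat.card_perm]; simp
  have hc0 : 0 < L.card.factorial := Nat.factorial_pos _
  have hc1 : ∀ σ : Equiv.Perm L, σ ^ L.card.factorial = 1 := by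
    intro σ
    rw [← hcard]
    exact pow_card_eq_one'
  have h0 : 1 ≤ e * L.card.factorial ∧
      P (e * L.card.factorial) (RP P (e * L.card.factorial) x) = RP P (e * L.card.factorial) (P 0 x) :=
    ⟨Nat.mul_pos he hc0, meet P e _ hper (hc1 _) x⟩
  have hex : ∃ m : ℕ, 1 ≤ m ∧ P m (RP P m x) = RP P m (P 0 x) := ⟨_, h0⟩
  have h1 := Nat.find_spec hex
  have h2 : ∀ i, 1 ≤ i → i < Nat.find hex → P i (RP P i x) ≠ RP P i (P 0 x) := by
    intro i hi hi' h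
    exact Nat.find_min hex hi' ⟨hi, h⟩
  obtain ⟨X, a⟩ := TGL hP hDP x hx _ h1.1 h1.2 h2
  have hD : D (RP P (Nat.find hex) x) := by
    obtain ⟨n, hn⟩ := Nat.exists_eq_succ_of_ne_zero (show Nat.find hex ≠ 0 by have := h1.1; omega)
    rw [hn]
    exact (D_RP hDP x hx n).1
  exact ⟨_, _, X, h1.1, Nat.find_min' hex h0, hD, rfl, h1.2, h2, a⟩

end per

end Pool.Agent.Lib.MP_688fd0_co.SQ3
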