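import Pool.Agent.Lib.MP_688fd0_co.SQ3.H98.TL

/-!
T-gadgets with rungs of height 1 at the even levels and rungs of height 0 at all levels (finding 4216, 3; type C1).

`U ^ l y · q s = U ^ (l + 1) (S l y)` for the strands `y` of type 0 and `l` even; `U ^ l y · q (ρ l y) = U ^ l (R l y)`
for all `l`. `S l` exchanges the types, `R l` preserves them. State at the even level `l`: the holes `p` (type 0) and `q`
(type 1); next state `(R (l + 1) (S l)⁻¹ (R l) q, S l p)` at the level `l + 2`; the holes are joined if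
`R l q = S l p`.
-/

set_option autoImplicit false

namespace Pool.Agent.Lib.MP_688fd0_co.SQ3

open Pool.Agent.Lib.MP_688fd0_co.OSF Pool.Agent.Lib.MP_688fd0_co.SQ2 Finset

universe u v w

variable {Q : Type u} [Group Q] [DecidableEq Q] {B : Lb.{u, v} Q}

/-- All tokens go up, except that the token at `y₀` goes by the label `s` to the place above the hole `p₀`. -/
def advMS (X : HW B) (U : Up B) (y₀ : Q) (s : B.L) (hy : y₀ ∈ X.tok₁) (hs : y₀ * B.q s = U.U X.p₀) : X.Step where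
  L := im U.U X.L₁
  p := U.U y₀
  q := U.U X.p₁
  g := fun y => if y = y₀ then U.U X.p₀ else U.U y
  gp := fun y => if y = y₀ then [s] else [U.up y]
  hp := map_mem_im.2 (HW.mem_tok₁.1 hy).1
  hq := map_mem_im.2 X.hp₁
  hpq := fun h => (HW.mem_tok₁.1 hy).2.2 (U.U.injective h)
  fin := fun y _ => by
    by_cases h : y = y₀
    · rw [if_pos h, if_pos h, h]; exact hs
    · rw [if_neg h, if_neg h]; exact (U.hU y).symm
  mem := fun y hy' => by
    rw [HW.mem_tok₁] at hy'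
    by_cases h : y = y₀
    · rw [if_pos h]
      exact ⟨map_mem_im.2 X.hp₀, fun h' => (HW.mem_tok₁.1 hy).2.1 (U.U.injective h').symm,
        fun h' => X.hp (U.U.injective h')⟩
    · rw [if_neg h]
      exact ⟨map_mem_im.2 hy'.1, fun h' => h (U.U.injective h'), fun h' => hy'.2.2 (U.U.injective h')⟩
  inj := fun y hy1 z hz1 he => by
    rw [HW.mem_tok₁] at hy1 hz1
    by_cases h : y = y₀ <;> by_cases h' : z = y₀
    · rw [h, h']
    · rw [if_pos h, if_neg h'] at he; exact absurd (U.U.injective he).symm hz1.2.1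
    · rw [if_neg h, if_pos h'] at he; exact absurd (U.U.injective he) hy1.2.1
    · rw [if_neg h, if_neg h'] at he; exact U.U.injective he
  surj := fun z hz h0 h1 => by
    by_cases h : z = U.U X.p₀
    · exact ⟨y₀, hy, by rw [if_pos rfl, h]⟩
    · refine ⟨U.U⁻¹ z, HW.mem_tok₁.2 ⟨mem_im.1 hz, fun h' => h (by rw [← h']; simp),
        fun h' => h1 (by rw [← h']; simp)⟩, ?_⟩
      rw [if_neg (fun h' => h0 (by rw [← h']; simp))]
      simp

/-- Modified advance. -/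
def advM (X : HW B) (U : Up B) (y₀ : Q) (s : B.L) (hy : y₀ ∈ X.tok₁) (hs : y₀ * B.q s = U.U X.p₀) : HW B :=
  X.post (advMS X U y₀ s hy hs)

theorem advM_R (X : HW B) (U : Up B) (y₀ : Q) (s : B.L) (hy : y₀ ∈ X.tok₁) (hs : y₀ * B.q s = U.U X.p₀) :
    (advM X U y₀ s hy hs).R = X.R + X.tok₁.val := by
  unfold advM
  rw [HW.post_R]
  congr 1
  rw [← TW.sum_singleton X.tok₁]
  refine sum_congr rfl fun y _ => ?_
  show (src B y (if y = y₀ then [s] else [U.up y]) : Multiset Q) = _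
  split_ifs <;> rfl

section tokens

variable {U : Up B} {L : Finset Q} {D : L → Prop}

theorem tkL_advM (X : HW B) (n : ℕ) (h : TkL U L D X.u₀ X.u₁ X.f X.path n) (y₀ : Q) (s : B.L) (hy : y₀ ∈ X.tok₁)
    (hs : y₀ * B.q s = U.U X.p₀) (y' p' : L) (hy' : D y') (hp' : D p') (ey : y₀ = (U.U ^ n) (y' : Q))
    (ep : X.p₀ = (U.U ^ n) (p' : Q)) :
    TkL U L D (advM X U y₀ s hy hs).u₀ (advM X U y₀ s hy hs).u₁ (advM X U y₀ s hy hs).f
      (advM X U y₀ s hy hs).path (n + 1) := by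
  intro x h0 h1
  obtain ⟨t1, t2⟩ := h x h0 h1
  have ef : (advM X U y₀ s hy hs).f x = if X.f x = y₀ then U.U X.p₀ else U.U (X.f x) := rfl
  have eg : (advM X U y₀ s hy hs).path x = X.path x ++ (if X.f x = y₀ then [s] else [U.up (X.f x)]) := rfl
  refine ⟨fun hx => ?_, fun hx => ?_⟩
  · obtain ⟨y, hy1, e⟩ := t1 hx
    by_cases hh : X.f x = y₀
    · exact ⟨p', hp', by rw [ef, if_pos hh, ep, U.U_pow_succ']⟩
    · exact ⟨y, hy1, by rw [ef, if_neg hh, e, U.U_pow_succ']⟩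
  · obtain ⟨e1, e2⟩ := t2 hx
    have hh : X.f x ≠ y₀ := by
      intro h'
      rw [e1, ey] at h'
      have h2 : x = y' := Subtype.ext (Upow_inj U n h')
      exact hx (h2 ▸ hy')
    refine ⟨by rw [ef, if_neg hh, e1, U.U_pow_succ'], ?_⟩
    rw [eg, if_neg hh, e1, e2, U.str_succ']

end tokens

section run

variable {U : Up B} {L : Finset Q} {S R : ℕ → Equiv.Perm L} {s : B.L} {ρ : ℕ → L → B.L} {D T : L → Prop}
  (hS : ∀ (l : ℕ) (y : L), Even l → D y → ¬ T y → (U.U ^ l) (y : Q) * B.q s = (U.U ^ (l + 1)) (S l y : Q))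
  (hR : ∀ (l : ℕ) (y : L), D y → (U.U ^ l) (y : Q) * B.q (ρ l y) = (U.U ^ l) (R l y : Q))
  (hDS : ∀ (l : ℕ) (y : L), D (S l y) ↔ D y) (hDR : ∀ (l : ℕ) (y : L), D (R l y) ↔ D y)
  (hTS : ∀ (l : ℕ) (y : L), T (S l y) ↔ ¬ T y) (hTR : ∀ (l : ℕ) (y : L), T (R l y) ↔ T y)

/-- The state map from the level `l` to the level `l + 2`. -/
def PhS (S R : ℕ → Equiv.Perm L) (l : ℕ) : Equiv.Perm (L × L) where
  toFun := fun c => (R (l + 1) ((S l).symm (R l c.2)), S l c.1)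
  invFun := fun c => ((S l).symm c.2, (R l).symm (S l ((R (l + 1)).symm c.1)))
  left_inv := fun c => by simp
  right_inv := fun c => by simp

/-- The state at the level `2 k`. -/
def stS (S R : ℕ → Equiv.Perm L) (x : L) : ℕ → L × L
  | 0 => (x, (R 0).symm (S 0 x))
  | k + 1 => PhS S R (2 * k) (stS S R x k)

omit [Group Q] [DecidableEq Q] in
theorem stS_one (x : L) : stS S R x 1 = (R 1 x, S 0 x) := by
  show (R (2 * 0 + 1) ((S (2 * 0)).symm (R (2 * 0) ((R 0).symm (S 0 x)))), S (2 * 0) x) = _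
  simp

omit [Group Q] [DecidableEq Q] in
include hDS hDR hTS hTR in
theorem inv_stS (x : L) (hx : D x) (hT : ¬ T x) (k : ℕ) :
    D (stS S R x k).1 ∧ D (stS S R x k).2 ∧ ¬ T (stS S R x k).1 ∧ T (stS S R x k).2 := by
  have dS : ∀ (l : ℕ) (y : L), D ((S l).symm y) ↔ D y := by
    intro l y
    rw [← hDS l, Equiv.apply_symm_apply]
  have dR : ∀ (l : ℕ) (y : L), D ((R l).symm y) ↔ D y := by
    intro l y
    rw [← hDR l, Equiv.apply_symm_apply]
  have tS : ∀ (l : ℕ) (y : L), ¬ T ((S l).symm y) ↔ T y := by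
    intro l y
    rw [← hTS l, Equiv.apply_symm_apply]
  have tR : ∀ (l : ℕ) (y : L), T ((R l).symm y) ↔ T y := by
    intro l y
    rw [← hTR l, Equiv.apply_symm_apply]
  induction k with
  | zero => exact ⟨hx, (dR 0 _).2 ((hDS 0 x).2 hx), hT, (tR 0 _).2 ((hTS 0 x).2 hT)⟩
  | succ k ih =>
    obtain ⟨a1, a2, a3, a4⟩ := ih
    exact ⟨(hDR _ _).2 ((dS _ _).2 ((hDR _ _).2 a2)), (hDS _ _).2 a1,
      fun h => (tS _ _).2 ((hTR _ _).2 a4) ((hTR _ _).1 h), (hTS _ _).2 a3⟩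

omit [DecidableEq Q] in
include hR in
theorem RL_ne (l : ℕ) (y : L) (hy : D y) : R l y ≠ y := by
  intro h
  have := hR l y hy
  rw [h] at this
  exact B.ne_one _ (mul_eq_left.1 this)

include hS hR hDS hDR hTS hTR in
/-- Two levels of the hole run. -/
theorem runS_step (X : HW B) (l : ℕ) (hl : Even l) (p q : L) (hDp : D p) (hDq : D q) (hTp : ¬ T p) (hTq : T q)
    (hL : X.L₁ = im (U.U ^ l) L) (hp₀ : X.p₀ = (U.U ^ l) (p : Q)) (hp₁ : X.p₁ = (U.U ^ l) (q : Q))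
    (hne : R l q ≠ S l p) (ht : TkL U L D X.u₀ X.u₁ X.f X.path l) :
    ∃ Y : HW B, Y.L₀ = X.L₀ ∧ Y.L₁ = im (U.U ^ (l + 2)) L ∧ Y.u₀ = X.u₀ ∧ Y.u₁ = X.u₁ ∧
      Y.cup = X.cup ∧ Y.p₀ = (U.U ^ (l + 2)) ((PhS S R l (p, q)).1 : Q) ∧
      Y.p₁ = (U.U ^ (l + 2)) ((PhS S R l (p, q)).2 : Q) ∧
      Y.R = X.R + (im (U.U ^ l) L).val + (im (U.U ^ (l + 1)) L).val ∧
      TkL U L D Y.u₀ Y.u₁ Y.f Y.path (l + 2) := by
  set u : L := R l q with hu
  set v : L := (S l).symm u with hv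
  have hSv : S l v = u := (S l).apply_symm_apply u
  have hDu : D u := (hDR l q).2 hDq
  have hTu : T u := (hTR l q).2 hTq
  have hDv : D v := by rw [← hDS l, hSv]; exact hDu
  have hTv : ¬ T v := by rw [← hTS l, hSv]; exact hTu
  have hTSp : T (S l p) := (hTS l p).2 hTp
  have hDSp : D (S l p) := (hDS l p).2 hDp
  have hDRv : D (R (l + 1) v) := (hDR (l + 1) v).2 hDv
  have hTRv : ¬ T (R (l + 1) v) := fun h => hTv ((hTR (l + 1) v).1 h)
  have neT : ∀ {y y' : L}, T y → ¬ T y' → ∀ n : ℕ, (U.U ^ n) (y : Q) ≠ (U.U ^ n) (y' : Q) := by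
    intro y y' h1 h2 n h
    have := Subtype.ext (Upow_inj U n h)
    exact h2 (this ▸ h1)
  -- first crossing: the token at `u` goes to the hole `q`
  set X0 := X.swap with hX0
  have h0p : X0.p₀ = (U.U ^ l) (q : Q) := hp₁
  have h0q : X0.p₁ = (U.U ^ l) (p : Q) := hp₀
  have h0L : X0.L₁ = im (U.U ^ l) L := hL
  have hr : (U.U ^ l) (u : Q) ∈ X0.tok₁ := by
    rw [HW.mem_tok₁, h0L, h0p, h0q]
    exact ⟨Upow_mem U l _, fun h => RL_ne hR l q hDq (Subtype.ext (Upow_inj U l h)), neT hTu hTp l⟩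
  have hc : B.fin ((U.U ^ l) (u : Q)) [B.inv (ρ l q)] = X0.p₀ := by
    show (U.U ^ l) (u : Q) * B.q (B.inv (ρ l q)) = X0.p₀
    rw [h0p, B.q_inv, hu, ← hR l q hDq, mul_inv_cancel_right]
  set X1 := X0.cross _ _ hr hc with hX1
  have h1L : X1.L₁ = im (U.U ^ l) L := hL
  have h1p : X1.p₀ = (U.U ^ l) (u : Q) := rfl
  have h1q : X1.p₁ = (U.U ^ l) (p : Q) := hp₀
  have h1R : X1.R = X.R + {(U.U ^ l) (u : Q)} := by
    rw [hX1, HW.cross_R, hX0, HW.swap_R]; rfl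
  have h1T : TkL U L D X1.u₀ X1.u₁ X1.f X1.path l := tkL_cross X0 l ht _ _ hr hc u q hDu hDq rfl h0p
  -- modified advance: the token at `v` goes by `s` to the place above `u`
  have hv1 : (U.U ^ l) (v : Q) ∈ X1.tok₁ := by
    rw [HW.mem_tok₁, h1L, h1p, h1q]
    refine ⟨Upow_mem U l _, (neT hTu hTv l).symm, fun h => hne ?_⟩
    have h2 : v = p := Subtype.ext (Upow_inj U l h)
    rw [← h2, hSv]
  have hvs : (U.U ^ l) (v : Q) * B.q s = U.U X1.p₀ := by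
    rw [h1p, hS l v hl hDv hTv, hSv, U.U_pow_succ']
  have h1t := X1.L₁_val
  rw [h1p, h1q, h1L] at h1t
  set X2 := (advM X1 U _ s hv1 hvs).swap with hX2
  have h2L : X2.L₁ = im (U.U ^ (l + 1)) L := by
    show im U.U X1.L₁ = _
    rw [h1L, ← im_mul, ← pow_succ']
  have h2p : X2.p₀ = (U.U ^ (l + 1)) (p : Q) := by
    show U.U X1.p₁ = _
    rw [h1q, U.U_pow_succ']
  have h2q : X2.p₁ = (U.U ^ (l + 1)) (v : Q) := by
    show U.U ((U.U ^ l) (v : Q)) = _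
    rw [U.U_pow_succ']
  have h2R : X2.R + {(U.U ^ l) (p : Q)} = X.R + (im (U.U ^ l) L).val := by
    rw [hX2, HW.swap_R, advM_R, h1R, h1t]
    abel
  have h2T : TkL U L D X2.u₀ X2.u₁ X2.f X2.path (l + 1) := tkL_advM X1 l h1T _ s hv1 hvs v u hDv hDu rfl h1p
  -- second crossing: the token at `U (S p)` goes through `p` to `U p`
  have hr2 : (U.U ^ (l + 1)) (S l p : Q) ∈ X2.tok₁ := by
    rw [HW.mem_tok₁, h2L, h2p, h2q]
    exact ⟨Upow_mem U (l + 1) _, neT hTSp hTp (l + 1), neT hTSp hTv (l + 1)⟩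
  have e2 : (U.U ^ (l + 1)) (S l p : Q) * B.q (B.inv s) = (U.U ^ l) (p : Q) := by
    rw [← hS l p hl hDp hTp, B.q_inv, mul_inv_cancel_right]
  have hc2 : B.fin ((U.U ^ (l + 1)) (S l p : Q)) [B.inv s, U.up ((U.U ^ l) (p : Q))] = X2.p₀ := by
    show (U.U ^ (l + 1)) (S l p : Q) * B.q (B.inv s) * B.q (U.up ((U.U ^ l) (p : Q))) = X2.p₀
    rw [e2, ← U.hU, h2p, U.U_pow_succ']
  have hsrc2 : src B ((U.U ^ (l + 1)) (S l p : Q)) [B.inv s, U.up ((U.U ^ l) (p : Q))] =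
      [(U.U ^ (l + 1)) (S l p : Q), (U.U ^ l) (p : Q)] := by
    show [(U.U ^ (l + 1)) (S l p : Q), (U.U ^ (l + 1)) (S l p : Q) * B.q (B.inv s)] = _
    rw [e2]
  set X3 := (X2.cross _ _ hr2 hc2).swap with hX3
  have h3L : X3.L₁ = im (U.U ^ (l + 1)) L := h2L
  have h3p : X3.p₀ = (U.U ^ (l + 1)) (v : Q) := h2q
  have h3q : X3.p₁ = (U.U ^ (l + 1)) (S l p : Q) := rfl
  have h3R : X3.R = X.R + (im (U.U ^ l) L).val + {(U.U ^ (l + 1)) (S l p : Q)} := by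
    rw [hX3, HW.swap_R, HW.cross_R, hsrc2, ← h2R]
    show X2.R + ({(U.U ^ (l + 1)) (S l p : Q)} + {(U.U ^ l) (p : Q)}) = _
    abel
  have h3T : TkL U L D X3.u₀ X3.u₁ X3.f X3.path (l + 1) :=
    tkL_cross X2 (l + 1) h2T _ _ hr2 hc2 (S l p) p hDSp hDp rfl h2p
  -- third crossing: the token at `U (R v)` goes to `U v`
  have hr3 : (U.U ^ (l + 1)) (R (l + 1) v : Q) ∈ X3.tok₁ := by
    rw [HW.mem_tok₁, h3L, h3p, h3q]
    exact ⟨Upow_mem U (l + 1) _, fun h => RL_ne hR (l + 1) v hDv (Subtype.ext (Upow_inj U (l + 1) h)),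
      (neT hTSp hTRv (l + 1)).symm⟩
  have hc3 : B.fin ((U.U ^ (l + 1)) (R (l + 1) v : Q)) [B.inv (ρ (l + 1) v)] = X3.p₀ := by
    show (U.U ^ (l + 1)) (R (l + 1) v : Q) * B.q (B.inv (ρ (l + 1) v)) = X3.p₀
    rw [h3p, B.q_inv, ← hR (l + 1) v hDv, mul_inv_cancel_right]
  set X4 := X3.cross _ _ hr3 hc3 with hX4
  have h4L : X4.L₁ = im (U.U ^ (l + 1)) L := h3L
  have h4p : X4.p₀ = (U.U ^ (l + 1)) (R (l + 1) v : Q) := rfl
  have h4q : X4.p₁ = (U.U ^ (l + 1)) (S l p : Q) := h3q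
  have h4R : X4.R = X3.R + {(U.U ^ (l + 1)) (R (l + 1) v : Q)} := by
    rw [hX4, HW.cross_R]; rfl
  have h4T : TkL U L D X4.u₀ X4.u₁ X4.f X4.path (l + 1) :=
    tkL_cross X3 (l + 1) h3T _ _ hr3 hc3 (R (l + 1) v) v hDRv hDv rfl h3p
  have h4t := X4.L₁_val
  rw [h4p, h4q, h4L] at h4t
  refine ⟨adv X4 U, rfl, ?_, rfl, rfl, rfl, ?_, ?_, ?_, tkL_adv X4 (l + 1) h4T⟩
  · show im U.U X4.L₁ = _
    rw [h4L, ← im_mul, ← pow_succ']
  · show U.U X4.p₀ = _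
    rw [h4p]
    exact (U.U_pow_succ' (l + 1) _).symm
  · show U.U X4.p₁ = _
    rw [h4q]
    exact (U.U_pow_succ' (l + 1) _).symm
  · rw [adv_R, h4R, h3R, h4t]
    abel

include hS hR hDS hDR hTS hTR in
/-- The hole run up to the level `2 k + 2`. -/
theorem runS (x : L) (hx : D x) (hT : ¬ T x) (k : ℕ)
    (hn : ∀ i, 1 ≤ i → i < k + 1 → R (2 * i) (stS S R x i).2 ≠ S (2 * i) (stS S R x i).1) :
    ∃ X : HW B, X.L₀ = L ∧ X.L₁ = im (U.U ^ (2 * (k + 1))) L ∧ X.u₀ = x ∧ X.u₁ = S 0 x ∧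
      X.cup = [s, B.inv (U.up (S 0 x : Q))] ∧
      X.p₀ = (U.U ^ (2 * (k + 1))) ((stS S R x (k + 1)).1 : Q) ∧
      X.p₁ = (U.U ^ (2 * (k + 1))) ((stS S R x (k + 1)).2 : Q) ∧
      X.R = ∑ i ∈ range (2 * (k + 1)), (im (U.U ^ i) L).val ∧
      TkL U L D X.u₀ X.u₁ X.f X.path (2 * (k + 1)) := by
  have neT : ∀ {y y' : L}, T y → ¬ T y' → ∀ n : ℕ, (U.U ^ n) (y : Q) ≠ (U.U ^ n) (y' : Q) := by
    intro y y' h1 h2 n h
    have := Subtype.ext (Upow_inj U n h)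
    exact h2 (this ▸ h1)
  induction k with
  | zero =>
    have hTS0 : T (S 0 x) := (hTS 0 x).2 hT
    have hne : (x : Q) ≠ (S 0 x : Q) := by
      have := neT hTS0 hT 0
      rw [pow_zero] at this
      exact this.symm
    have e1 : (x : Q) * B.q s = U.U (S 0 x : Q) := by
      have := hS 0 x Even.zero hx hT
      rw [zero_add, pow_zero, pow_one] at this
      exact this
    have hf : B.fin (x : Q) [s, B.inv (U.up (S 0 x : Q))] = (S 0 x : Q) := by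
      show (x : Q) * B.q s * B.q (B.inv (U.up (S 0 x : Q))) = _
      rw [e1, U.hU, B.q_inv, mul_inv_cancel_right]
    set X0 : HW B := HW.start L (x : Q) (S 0 x : Q) [s, B.inv (U.up (S 0 x : Q))] x.2 (S 0 x).2 hne hf with hX0
    have h0R : X0.R = {(x : Q)} + {U.U (S 0 x : Q)} + {(S 0 x : Q)} := by
      rw [hX0, HW.start_R]
      show (((x : Q) :: ((x : Q) * B.q s) ::
        [(x : Q) * B.q s * B.q (B.inv (U.up (S 0 x : Q)))] : List Q) : Multiset Q) = _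
      have : (x : Q) * B.q s * B.q (B.inv (U.up (S 0 x : Q))) = (S 0 x : Q) := hf
      rw [this, e1]
      rfl
    have h0t := X0.L₁_val
    have h0L : X0.L₁ = L := rfl
    have h0p : X0.p₀ = x := rfl
    have h0q : X0.p₁ = S 0 x := rfl
    rw [h0L, h0p, h0q] at h0t
    set X1 := adv X0 U with hX1
    have h1L : X1.L₁ = im (U.U ^ 1) L := by
      show im U.U X0.L₁ = _
      rw [h0L, pow_one]
    have h1p : X1.p₀ = (U.U ^ 1) (x : Q) := by rw [pow_one]; rfl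
    have h1q : X1.p₁ = (U.U ^ 1) (S 0 x : Q) := by rw [pow_one]; rfl
    have h1R : X1.R = L.val + {(U.U ^ 1) (S 0 x : Q)} := by
      rw [hX1, adv_R, h0R, h0t, pow_one]
      abel
    have h1T : TkL U L D X1.u₀ X1.u₁ X1.f X1.path 1 := tkL_adv X0 0 (tkL_start _ _)
    have hTR1 : ¬ T (R 1 x) := fun h => hT ((hTR 1 x).1 h)
    have hr : (U.U ^ 1) (R 1 x : Q) ∈ X1.tok₁ := by
      rw [HW.mem_tok₁, h1L, h1p, h1q]
      exact ⟨Upow_mem U 1 _, fun h => RL_ne hR 1 x hx (Subtype.ext (Upow_inj U 1 h)), (neT hTS0 hTR1 1).symm⟩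
    have hc : B.fin ((U.U ^ 1) (R 1 x : Q)) [B.inv (ρ 1 x)] = X1.p₀ := by
      show (U.U ^ 1) (R 1 x : Q) * B.q (B.inv (ρ 1 x)) = X1.p₀
      rw [h1p, B.q_inv, ← hR 1 x hx, mul_inv_cancel_right]
    set X2 := X1.cross _ _ hr hc with hX2
    have h2L : X2.L₁ = im (U.U ^ 1) L := h1L
    have h2p : X2.p₀ = (U.U ^ 1) (R 1 x : Q) := rfl
    have h2q : X2.p₁ = (U.U ^ 1) (S 0 x : Q) := h1q
    have h2R : X2.R = X1.R + {(U.U ^ 1) (R 1 x : Q)} := by
      rw [hX2, HW.cross_R]; rfl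
    have h2T : TkL U L D X2.u₀ X2.u₁ X2.f X2.path 1 :=
      tkL_cross X1 1 h1T _ _ hr hc (R 1 x) x ((hDR 1 x).2 hx) hx rfl h1p
    have h2t := X2.L₁_val
    rw [h2p, h2q, h2L] at h2t
    refine ⟨adv X2 U, rfl, ?_, rfl, rfl, rfl, ?_, ?_, ?_, tkL_adv X2 1 h2T⟩
    · show im U.U X2.L₁ = _
      rw [h2L, ← im_mul, ← pow_succ']
    · show U.U X2.p₀ = _
      rw [h2p, zero_add, stS_one]
      exact (U.U_pow_succ' 1 _).symm
    · show U.U X2.p₁ = _
      rw [h2q, zero_add, stS_one]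
      exact (U.U_pow_succ' 1 _).symm
    · rw [adv_R, h2R, h1R, show 2 * (0 + 1) = 1 + 1 from rfl, sum_range_succ, range_one, sum_singleton, pow_zero,
        im_one, h2t]
      abel
  | succ k ih =>
    obtain ⟨X, a1, a2, a3, a4, a5, a6, a7, a8, a9⟩ := ih (fun i h1 hi => hn i h1 (by omega))
    obtain ⟨i1, i2, i3, i4⟩ := inv_stS hDS hDR hTS hTR x hx hT (k + 1)
    obtain ⟨Y, b1, b2, b3, b4, b5, b6, b7, b8, b9⟩ := runS_step hS hR hDS hDR hTS hTR X (2 * (k + 1))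
      (even_two_mul _) _ _ i1 i2 i3 i4 a2 a6 a7 (hn (k + 1) (by omega) (by omega)) a9
    refine ⟨Y, b1.trans a1, b2, b3.trans a3, b4.trans a4, b5.trans a5, b6, b7, ?_, b9⟩
    rw [b8, a8, show 2 * (k + 1 + 1) = 2 * (k + 1) + 1 + 1 by ring, sum_range_succ, sum_range_succ]

include hS hR hDS hDR hTS hTR in
/-- T-gadget of height 1 with a rotation. -/
theorem TLS (x : L) (hx : D x) (hT : ¬ T x) (k : ℕ) (hk : 1 ≤ k)
    (h1 : R (2 * k) (stS S R x k).2 = S (2 * k) (stS S R x k).1)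
    (h2 : ∀ i, 1 ≤ i → i < k → R (2 * i) (stS S R x i).2 ≠ S (2 * i) (stS S R x i).1) :
    ∃ X : TW B, X.L₀ = L ∧ X.L₁ = im (U.U ^ (2 * k + 1)) L ∧ X.u₀ = x ∧ X.u₁ = S 0 x ∧
      X.cup = [s, B.inv (U.up (S 0 x : Q))] ∧
      X.w₀ = (U.U ^ (2 * k + 1)) ((stS S R x k).1 : Q) ∧
      X.w₁ = (U.U ^ (2 * k + 1)) (S (2 * k) (stS S R x k).1 : Q) ∧
      X.cap = [B.inv (U.up ((U.U ^ (2 * k)) ((stS S R x k).1 : Q))), s] ∧
      X.R = ∑ i ∈ range (2 * k + 1), (im (U.U ^ i) L).val ∧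
      TkL U L D X.u₀ X.u₁ X.f X.path (2 * k + 1) := by
  have neT : ∀ {y y' : L}, T y → ¬ T y' → ∀ n : ℕ, (U.U ^ n) (y : Q) ≠ (U.U ^ n) (y' : Q) := by
    intro y y' h1 h2 n h
    have := Subtype.ext (Upow_inj U n h)
    exact h2 (this ▸ h1)
  obtain ⟨n, rfl⟩ := Nat.exists_eq_succ_of_ne_zero (show k ≠ 0 by omega)
  obtain ⟨X, a1, a2, a3, a4, a5, a6, a7, a8, a9⟩ := runS hS hR hDS hDR hTS hTR x hx hT n h2
  obtain ⟨i1, i2, i3, i4⟩ := inv_stS hDS hDR hTS hTR x hx hT (n + 1)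
  have hl : Even (2 * (n + 1)) := even_two_mul _
  generalize hp : (stS S R x (n + 1)).1 = p at *
  generalize hq : (stS S R x (n + 1)).2 = q at *
  generalize hle : 2 * (n + 1) = l at *
  set X0 := X.swap with hX0
  have h0p : X0.p₀ = (U.U ^ l) (q : Q) := a7
  have h0q : X0.p₁ = (U.U ^ l) (p : Q) := a6
  have h0L : X0.L₁ = im (U.U ^ l) L := a2
  have hTu : T (S l p) := (hTS l p).2 i3
  have hr : (U.U ^ l) (S l p : Q) ∈ X0.tok₁ := by
    rw [HW.mem_tok₁, h0L, h0p, h0q]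
    refine ⟨Upow_mem U l _, fun h => RL_ne hR l q i2 (Subtype.ext (Upow_inj U l ?_)), neT hTu i3 l⟩
    rw [h1, h]
  have hc : B.fin ((U.U ^ l) (S l p : Q)) [B.inv (ρ l q)] = X0.p₀ := by
    show (U.U ^ l) (S l p : Q) * B.q (B.inv (ρ l q)) = X0.p₀
    rw [h0p, B.q_inv, ← h1, ← hR l q i2, mul_inv_cancel_right]
  set X1 := X0.cross _ _ hr hc with hX1
  have h1L : X1.L₁ = im (U.U ^ l) L := a2
  have h1p : X1.p₀ = (U.U ^ l) (S l p : Q) := rfl
  have h1q : X1.p₁ = (U.U ^ l) (p : Q) := a6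
  have h1R : X1.R = X.R + {(U.U ^ l) (S l p : Q)} := by
    rw [hX1, HW.cross_R, hX0, HW.swap_R]; rfl
  have h1T : TkL U L D X1.u₀ X1.u₁ X1.f X1.path l :=
    tkL_cross X0 l a9 _ _ hr hc (S l p) q ((hDS l p).2 i1) i2 rfl h0p
  have h1t := X1.L₁_val
  rw [h1p, h1q, h1L] at h1t
  set X2 := (adv X1 U).swap with hX2
  have h2L : X2.L₁ = im (U.U ^ (l + 1)) L := by
    show im U.U X1.L₁ = _
    rw [h1L, ← im_mul, ← pow_succ']
  have h2p : X2.p₀ = (U.U ^ (l + 1)) (p : Q) := by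
    show U.U X1.p₁ = _
    rw [h1q, U.U_pow_succ']
  have h2q : X2.p₁ = (U.U ^ (l + 1)) (S l p : Q) := by
    show U.U X1.p₀ = _
    rw [h1p, U.U_pow_succ']
  have h2R : X2.R + {(U.U ^ l) (p : Q)} = X.R + (im (U.U ^ l) L).val := by
    rw [hX2, HW.swap_R, adv_R, h1R, h1t]
    abel
  have e3 : (U.U ^ (l + 1)) (p : Q) * B.q (B.inv (U.up ((U.U ^ l) (p : Q)))) = (U.U ^ l) (p : Q) := by
    rw [U.U_pow_succ', U.hU, B.q_inv, mul_inv_cancel_right]
  have hcl : B.fin X2.p₀ [B.inv (U.up ((U.U ^ l) (p : Q))), s] = X2.p₁ := by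
    show X2.p₀ * B.q (B.inv (U.up ((U.U ^ l) (p : Q)))) * B.q s = X2.p₁
    rw [h2p, h2q, e3, hS l p hl i1 i3]
  refine ⟨X2.close _ hcl, a1, h2L, a3, a4, a5, h2p, h2q, rfl, ?_, tkL_adv X1 l h1T⟩
  rw [HW.close_R, sum_range_succ, ← a8, ← h2R]
  congr 1
  show (([X2.p₀ * B.q (B.inv (U.up ((U.U ^ l) (p : Q))))] : List Q) : Multiset Q) = _
  rw [h2p, e3]
  rfl

end run

section per

variable {U : Up B} {L : Finset Q} {S R : ℕ → Equiv.Perm L} {s : B.L} {ρ : ℕ → L → B.L} {D T : L → Prop}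

omit [Group Q] [DecidableEq Q] in
theorem stS_per (e : ℕ) (hSp : ∀ l, S (l + 2 * e) = S l) (hRp : ∀ l, R (l + 2 * e) = R l) (x : L) :
    ∃ Ψ : Equiv.Perm (L × L), ∀ n, stS S R x (e * n) = (Ψ ^ n) (stS S R x 0) := by
  have hPh : ∀ l, PhS S R (l + 2 * e) = PhS S R l := by
    intro l
    refine Equiv.ext fun c => ?_
    show (R (l + 2 * e + 1) ((S (l + 2 * e)).symm (R (l + 2 * e) c.2)), S (l + 2 * e) c.1) = _
    rw [show l + 2 * e + 1 = l + 1 + 2 * e by ring, hSp, hRp, hRp]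
    rfl
  -- the product of the state maps
  let G : ℕ → Equiv.Perm (L × L) := fun k => Nat.rec 1 (fun k g => PhS S R (2 * k) * g) k
  have hG : ∀ k, stS S R x k = G k (stS S R x 0) := by
    intro k
    induction k with
    | zero => rfl
    | succ k ih =>
      show PhS S R (2 * k) (stS S R x k) = (PhS S R (2 * k) * G k) (stS S R x 0)
      rw [ih]
      rfl
  have hGa : ∀ j, G (j + e) = G j * G e := by
    intro j
    induction j with
    | zero => rw [zero_add]; show _ = 1 * G e; rw [one_mul]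
    | succ j ih =>
      rw [show j + 1 + e = j + e + 1 by ring]
      show PhS S R (2 * (j + e)) * G (j + e) = PhS S R (2 * j) * G j * G e
      rw [ih, show 2 * (j + e) = 2 * j + 2 * e by ring, hPh, mul_assoc]
  refine ⟨G e, fun n => ?_⟩
  rw [hG]
  congr 1
  induction n with
  | zero => rfl
  | succ n ih => rw [show e * (n + 1) = e * n + e by ring, hGa, ih, pow_succ]

/-- T-gadget of height 1 with a rotation, for periodic rungs. -/
theorem TLSp (hS : ∀ (l : ℕ) (y : L), Even l → D y → ¬ T y →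
      (U.U ^ l) (y : Q) * B.q s = (U.U ^ (l + 1)) (S l y : Q))
    (hR : ∀ (l : ℕ) (y : L), D y → (U.U ^ l) (y : Q) * B.q (ρ l y) = (U.U ^ l) (R l y : Q))
    (hDS : ∀ (l : ℕ) (y : L), D (S l y) ↔ D y) (hDR : ∀ (l : ℕ) (y : L), D (R l y) ↔ D y)
    (hTS : ∀ (l : ℕ) (y : L), T (S l y) ↔ ¬ T y) (hTR : ∀ (l : ℕ) (y : L), T (R l y) ↔ T y)
    (e : ℕ) (he : 0 < e) (hSp : ∀ l, S (l + 2 * e) = S l) (hRp : ∀ l, R (l + 2 * e) = R l)
    (x : L) (hx : D x) (hT : ¬ T x) :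
    ∃ (k : ℕ) (y : L) (X : TW B), 1 ≤ k ∧ k ≤ e * (L.card ^ 2).factorial ∧ D y ∧ ¬ T y ∧ y = (stS S R x k).1 ∧
      R (2 * k) (stS S R x k).2 = S (2 * k) (stS S R x k).1 ∧
      (∀ i, 1 ≤ i → i < k → R (2 * i) (stS S R x i).2 ≠ S (2 * i) (stS S R x i).1) ∧
      X.L₀ = L ∧ X.L₁ = im (U.U ^ (2 * k + 1)) L ∧ X.u₀ = x ∧ X.u₁ = S 0 x ∧
      X.cup = [s, B.inv (U.up (S 0 x : Q))] ∧
      X.w₀ = (U.U ^ (2 * k + 1)) (y : Q) ∧ X.w₁ = (U.U ^ (2 * k + 1)) (S (2 * k) y : Q) ∧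
      X.cap = [B.inv (U.up ((U.U ^ (2 * k)) (y : Q))), s] ∧
      X.R = ∑ i ∈ range (2 * k + 1), (im (U.U ^ i) L).val ∧
      TkL U L D X.u₀ X.u₁ X.f X.path (2 * k + 1) := by
  classical
  have hcard : Nat.card (Equiv.Perm (L × L)) = (L.card ^ 2).factorial := by
    rw [Nat.card_perm, Nat.card_prod]
    simp [sq]
  have hc0 : 0 < (L.card ^ 2).factorial := Nat.factorial_pos _
  have hc1 : ∀ σ : Equiv.Perm (L × L), σ ^ (L.card ^ 2).factorial = 1 := by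
    intro σ
    rw [← hcard]
    exact pow_card_eq_one'
  obtain ⟨Ψ, hΨ⟩ := stS_per e hSp hRp x
  have hper : ∀ (f : ℕ → Equiv.Perm L), (∀ l, f (l + 2 * e) = f l) → ∀ n, f (2 * (e * n)) = f 0 := by
    intro f hf n
    induction n with
    | zero => rfl
    | succ n ih => rw [show 2 * (e * (n + 1)) = 2 * (e * n) + 2 * e by ring, hf, ih]
  have h0 : 1 ≤ e * (L.card ^ 2).factorial ∧
      R (2 * (e * (L.card ^ 2).factorial)) (stS S R x (e * (L.card ^ 2).factorial)).2 =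
        S (2 * (e * (L.card ^ 2).factorial)) (stS S R x (e * (L.card ^ 2).factorial)).1 := by
    refine ⟨Nat.mul_pos he hc0, ?_⟩
    rw [hΨ, hc1, hper R hRp, hper S hSp]
    show R 0 ((R 0).symm (S 0 x)) = S 0 x
    simp
  have hex : ∃ k : ℕ, 1 ≤ k ∧ R (2 * k) (stS S R x k).2 = S (2 * k) (stS S R x k).1 := ⟨_, h0⟩
  have h1 := Nat.find_spec hex
  have h2 : ∀ i, 1 ≤ i → i < Nat.find hex → R (2 * i) (stS S R x i).2 ≠ S (2 * i) (stS S R x i).1 := by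
    intro i hi hi' h
    exact Nat.find_min hex hi' ⟨hi, h⟩
  obtain ⟨X, a⟩ := TLS hS hR hDS hDR hTS hTR x hx hT _ h1.1 h1.2 h2
  obtain ⟨i1, i2, i3, i4⟩ := inv_stS hDS hDR hTS hTR x hx hT (Nat.find hex)
  exact ⟨_, _, X, h1.1, Nat.find_min' hex h0, i1, i3, rfl, h1.2, h2, a⟩

end per

end Pool.Agent.Lib.MP_688fd0_co.SQ3
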