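import Pool.Agent.Lib.MP_688fd0_co.SQ3.H98.TL1

/-!
T-gadgets with rungs of height 1 at the levels `e j` (`e ≥ 2`) and rungs of height 0 at all levels (type C1, pattern
windows).

As in `TL1.lean`, but the rule PHI (two levels) is used at the levels `e j` only; at the other levels both holes move by
`R l`. State at the level `e j`: the holes `p` (type 0) and `q` (type 1); they are joined if `R q = S p`.
-/

set_option autoImplicit false

namespace Pool.Agent.Lib.MP_688fd0_co.SQ3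

open Pool.Agent.Lib.MP_688fd0_co.OSF Pool.Agent.Lib.MP_688fd0_co.SQ2 Finset

universe u v w

variable {Q : Type u} [Group Q] [DecidableEq Q] {B : Lb.{u, v} Q}

/-- `R (l + n - 1) ⋯ R l`. -/
def RO {L : Type u} (R : ℕ → Equiv.Perm L) (l : ℕ) : ℕ → Equiv.Perm L
  | 0 => 1
  | n + 1 => R (l + n) * RO R l n

theorem RO_per {L : Type u} {R : ℕ → Equiv.Perm L} {e : ℕ} (hR : ∀ l, R (l + e) = R l) (l n : ℕ) :
    RO R (l + e) n = RO R l n := by
  induction n with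
  | zero => rfl
  | succ n ih =>
    show R (l + e + n) * RO R (l + e) n = R (l + n) * RO R l n
    rw [ih, show l + e + n = l + n + e by ring, hR]

theorem sum_range_add {M : Type*} [AddCommMonoid M] (f : ℕ → M) (a b : ℕ) :
    ∑ i ∈ range (a + b), f i = ∑ i ∈ range a, f i + ∑ i ∈ range b, f (a + i) := by
  induction b with
  | zero => simp
  | succ b ih => rw [← add_assoc, sum_range_succ, ih, sum_range_succ, add_assoc]

section run

variable {U : Up B} {L : Finset Q} {S R : ℕ → Equiv.Perm L} {s : B.L} {ρ : ℕ → L → B.L} {D T : L → Prop} {e : ℕ}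

theorem inv_RO {L : Type u} {R : ℕ → Equiv.Perm L} {D : L → Prop} (hDR : ∀ (l : ℕ) (y : L), D (R l y) ↔ D y)
    (l n : ℕ) (y : L) : D (RO R l n y) ↔ D y := by
  induction n with
  | zero => exact Iff.rfl
  | succ n ih =>
    show D (R (l + n) (RO R l n y)) ↔ _
    rw [hDR, ih]

/-- Ordinary levels. -/
theorem runO (hR : ∀ (l : ℕ) (y : L), D y → (U.U ^ l) (y : Q) * B.q (ρ l y) = (U.U ^ l) (R l y : Q))
    (hDR : ∀ (l : ℕ) (y : L), D (R l y) ↔ D y) (hTR : ∀ (l : ℕ) (y : L), T (R l y) ↔ T y)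
    (X : HW B) (l : ℕ) (p q : L) (hDp : D p) (hDq : D q) (hTp : ¬ T p) (hTq : T q)
    (hL : X.L₁ = im (U.U ^ l) L) (hp₀ : X.p₀ = (U.U ^ l) (p : Q)) (hp₁ : X.p₁ = (U.U ^ l) (q : Q))
    (ht : TkL U L D X.u₀ X.u₁ X.f X.path l) (n : ℕ) :
    ∃ Y : HW B, Y.L₀ = X.L₀ ∧ Y.L₁ = im (U.U ^ (l + n)) L ∧ Y.u₀ = X.u₀ ∧ Y.u₁ = X.u₁ ∧
      Y.cup = X.cup ∧ Y.p₀ = (U.U ^ (l + n)) (RO R l n p : Q) ∧ Y.p₁ = (U.U ^ (l + n)) (RO R l n q : Q) ∧
      Y.R = X.R + ∑ i ∈ range n, (im (U.U ^ (l + i)) L).val ∧ TkL U L D Y.u₀ Y.u₁ Y.f Y.path (l + n) := by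
  induction n with
  | zero => exact ⟨X, rfl, hL, rfl, rfl, rfl, hp₀, hp₁, by simp, ht⟩
  | succ n ih =>
    obtain ⟨Y, a1, a2, a3, a4, a5, a6, a7, a8, a9⟩ := ih
    have h1 : D (RO R l n p) := (inv_RO hDR l n p).2 hDp
    have h2 : D (RO R l n q) := (inv_RO hDR l n q).2 hDq
    have h3 : ¬ T (RO R l n p) := fun h => hTp ((inv_RO hTR l n p).1 h)
    have h4 : T (RO R l n q) := (inv_RO hTR l n q).2 hTq
    obtain ⟨Z, b1, b2, b3, b4, b5, b6, b7, b8, b9⟩ := runL_step hR (fun l y hy => (hDR l y).2 hy) Y (l + n) _ _ h1 h2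
      a2 a6 a7 (fun h => h3 ((hTR (l + n) _).1 (h ▸ h4))) a9
    refine ⟨Z, b1.trans a1, b2, b3.trans a3, b4.trans a4, b5.trans a5, b6, b7, ?_, b9⟩
    rw [b8, a8, sum_range_succ, add_assoc]

variable
  (hS : ∀ (j : ℕ) (y : L), D y → ¬ T y → (U.U ^ (e * j)) (y : Q) * B.q s = (U.U ^ (e * j + 1)) (S j y : Q))
  (hR : ∀ (l : ℕ) (y : L), D y → (U.U ^ l) (y : Q) * B.q (ρ l y) = (U.U ^ l) (R l y : Q))
  (hDS : ∀ (j : ℕ) (y : L), D (S j y) ↔ D y) (hDR : ∀ (l : ℕ) (y : L), D (R l y) ↔ D y)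
  (hTS : ∀ (j : ℕ) (y : L), D y → (T (S j y) ↔ ¬ T y)) (hTR : ∀ (l : ℕ) (y : L), T (R l y) ↔ T y)

/-- The state map from the level `e j` to the level `e (j + 1)`. -/
def PhM (S R : ℕ → Equiv.Perm L) (e j : ℕ) : Equiv.Perm (L × L) where
  toFun := fun c => (RO R (e * j + 2) (e - 2) (R (e * j + 1) ((S j).symm (R (e * j) c.2))),
    RO R (e * j + 2) (e - 2) (S j c.1))
  invFun := fun c => ((S j).symm ((RO R (e * j + 2) (e - 2)).symm c.2),
    (R (e * j)).symm (S j ((R (e * j + 1)).symm ((RO R (e * j + 2) (e - 2)).symm c.1))))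
  left_inv := fun c => by simp
  right_inv := fun c => by simp

/-- The state at the level `e j`. -/
def stM (S R : ℕ → Equiv.Perm L) (e : ℕ) (x : L) : ℕ → L × L
  | 0 => (x, (R 0).symm (S 0 x))
  | j + 1 => PhM S R e j (stM S R e x j)

omit [Group Q] [DecidableEq Q] in
theorem stM_one (x : L) : stM S R e x 1 = (RO R 2 (e - 2) (R 1 x), RO R 2 (e - 2) (S 0 x)) := by
  show (RO R (e * 0 + 2) (e - 2) (R (e * 0 + 1) ((S 0).symm (R (e * 0) ((R 0).symm (S 0 x))))),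
    RO R (e * 0 + 2) (e - 2) (S 0 x)) = _
  rw [mul_zero, zero_add, zero_add]
  simp

omit [Group Q] [DecidableEq Q] in
include hDS hDR hTS hTR in
theorem inv_stM (x : L) (hx : D x) (hT : ¬ T x) (k : ℕ) :
    D (stM S R e x k).1 ∧ D (stM S R e x k).2 ∧ ¬ T (stM S R e x k).1 ∧ T (stM S R e x k).2 := by
  have dS : ∀ (l : ℕ) (y : L), D ((S l).symm y) ↔ D y := by
    intro l y
    rw [← hDS l, Equiv.apply_symm_apply]
  have dR : ∀ (l : ℕ) (y : L), D ((R l).symm y) ↔ D y := by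
    intro l y
    rw [← hDR l, Equiv.apply_symm_apply]
  have tS : ∀ (l : ℕ) (y : L), D y → (¬ T ((S l).symm y) ↔ T y) := by
    intro l y hy
    rw [← hTS l _ ((dS l y).2 hy), Equiv.apply_symm_apply]
  have tR : ∀ (l : ℕ) (y : L), T ((R l).symm y) ↔ T y := by
    intro l y
    rw [← hTR l, Equiv.apply_symm_apply]
  induction k with
  | zero => exact ⟨hx, (dR 0 _).2 ((hDS 0 x).2 hx), hT, (tR 0 _).2 ((hTS 0 x hx).2 hT)⟩
  | succ k ih =>
    obtain ⟨a1, a2, a3, a4⟩ := ih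
    refine ⟨(inv_RO hDR _ _ _).2 ((hDR _ _).2 ((dS _ _).2 ((hDR _ _).2 a2))),
      (inv_RO hDR _ _ _).2 ((hDS _ _).2 a1), fun h => ?_, (inv_RO hTR _ _ _).2 ((hTS _ _ a1).2 a3)⟩
    exact (tS _ _ ((hDR _ _).2 a2)).2 ((hTR _ _).2 a4) ((hTR _ _).1 ((inv_RO hTR _ _ _).1 h))

include hS hR hDS hDR hTS hTR in
/-- The rule PHI: two levels of the hole run. -/
theorem runM_phi (X : HW B) (j : ℕ) (p q : L) (hDp : D p) (hDq : D q) (hTp : ¬ T p) (hTq : T q)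
    (hL : X.L₁ = im (U.U ^ (e * j)) L) (hp₀ : X.p₀ = (U.U ^ (e * j)) (p : Q)) (hp₁ : X.p₁ = (U.U ^ (e * j)) (q : Q))
    (hne : R (e * j) q ≠ S j p) (ht : TkL U L D X.u₀ X.u₁ X.f X.path (e * j)) :
    ∃ Y : HW B, Y.L₀ = X.L₀ ∧ Y.L₁ = im (U.U ^ (e * j + 2)) L ∧ Y.u₀ = X.u₀ ∧ Y.u₁ = X.u₁ ∧
      Y.cup = X.cup ∧ Y.p₀ = (U.U ^ (e * j + 2)) (R (e * j + 1) ((S j).symm (R (e * j) q)) : Q) ∧
      Y.p₁ = (U.U ^ (e * j + 2)) (S j p : Q) ∧
      Y.R = X.R + (im (U.U ^ (e * j)) L).val + (im (U.U ^ (e * j + 1)) L).val ∧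
      TkL U L D Y.u₀ Y.u₁ Y.f Y.path (e * j + 2) := by
  generalize hl : e * j = l at *
  set u : L := R l q with hu
  set v : L := (S j).symm u with hv
  have hSv : S j v = u := (S j).apply_symm_apply u
  have hDu : D u := (hDR l q).2 hDq
  have hTu : T u := (hTR l q).2 hTq
  have hDv : D v := by rw [← hDS j, hSv]; exact hDu
  have hTv : ¬ T v := by rw [← hTS j v hDv, hSv]; exact hTu
  have hTSp : T (S j p) := (hTS j p hDp).2 hTp
  have hDSp : D (S j p) := (hDS j p).2 hDp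
  have hDRv : D (R (l + 1) v) := (hDR (l + 1) v).2 hDv
  have hTRv : ¬ T (R (l + 1) v) := fun h => hTv ((hTR (l + 1) v).1 h)
  have hSj : ∀ y : L, D y → ¬ T y → (U.U ^ l) (y : Q) * B.q s = (U.U ^ (l + 1)) (S j y : Q) := by
    intro y h1 h2
    rw [← hl]
    exact hS j y h1 h2
  have neT : ∀ {y y' : L}, T y → ¬ T y' → ∀ n : ℕ, (U.U ^ n) (y : Q) ≠ (U.U ^ n) (y' : Q) := by
    intro y y' h1 h2 n h
    have := Subtype.ext (Upow_inj U n h)
    exact h2 (this ▸ h1)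
  set X0 := X.swap with hX0
  have h0p : X0.p₀ = (U.U ^ l) (q : Q) := hp₁
  have h0q : X0.p₁ = (U.U ^ l) (p : Q) := hp₀
  have h0L : X0.L₁ = im (U.U ^ l) L := hL
  have hr : (U.U ^ l) (u : Q) ∈ X0.tok₁ := by
    rw [HW.mem_tok₁, h0L, h0p, h0q]
    exact ⟨Upow_mem U l _, fun h => RL_ne hR l q hDq (Subtype.ext (Upow_inj U l h)), neT hTu hTp l⟩
  have hc : B.fin ((U.U ^ l) (u : Q)) [B.inv (ρ l q)] = X0.p₀ := by
    show (U.U ^ l) (u : Q) * B.q (B.inv (ρ l q)) = X0.p₀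
    rw [h0p, B.q_inv, hu, ← hR l q hDq, mul_inv_cancel_right]
  set X1 := X0.cross _ _ hr hc with hX1
  have h1L : X1.L₁ = im (U.U ^ l) L := hL
  have h1p : X1.p₀ = (U.U ^ l) (u : Q) := rfl
  have h1q : X1.p₁ = (U.U ^ l) (p : Q) := hp₀
  have h1R : X1.R = X.R + {(U.U ^ l) (u : Q)} := by
    rw [hX1, HW.cross_R, hX0, HW.swap_R]; rfl
  have h1T : TkL U L D X1.u₀ X1.u₁ X1.f X1.path l := tkL_cross X0 l ht _ _ hr hc u q hDu hDq rfl h0p
  have hv1 : (U.U ^ l) (v : Q) ∈ X1.tok₁ := by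
    rw [HW.mem_tok₁, h1L, h1p, h1q]
    refine ⟨Upow_mem U l _, (neT hTu hTv l).symm, fun h => hne ?_⟩
    have h2 : v = p := Subtype.ext (Upow_inj U l h)
    rw [← h2, hSv]
  have hvs : (U.U ^ l) (v : Q) * B.q s = U.U X1.p₀ := by
    rw [h1p, hSj v hDv hTv, hSv, U.U_pow_succ']
  have h1t := X1.L₁_val
  rw [h1p, h1q, h1L] at h1t
  set X2 := (advM X1 U _ s hv1 hvs).swap with hX2
  have h2L : X2.L₁ = im (U.U ^ (l + 1)) L := by
    show im U.U X1.L₁ = _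
    rw [h1L, ← im_mul, ← pow_succ']
  have h2p : X2.p₀ = (U.U ^ (l + 1)) (p : Q) := by
    show U.U X1.p₁ = _
    rw [h1q, U.U_pow_succ']
  have h2q : X2.p₁ = (U.U ^ (l + 1)) (v : Q) := by
    show U.U ((U.U ^ l) (v : Q)) = _
    rw [U.U_pow_succ']
  have h2R : X2.R + {(U.U ^ l) (p : Q)} = X.R + (im (U.U ^ l) L).val := by
    rw [hX2, HW.swap_R, advM_R, h1R, h1t]
    abel
  have h2T : TkL U L D X2.u₀ X2.u₁ X2.f X2.path (l + 1) := tkL_advM X1 l h1T _ s hv1 hvs v u hDv hDu rfl h1p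
  have hr2 : (U.U ^ (l + 1)) (S j p : Q) ∈ X2.tok₁ := by
    rw [HW.mem_tok₁, h2L, h2p, h2q]
    exact ⟨Upow_mem U (l + 1) _, neT hTSp hTp (l + 1), neT hTSp hTv (l + 1)⟩
  have e2 : (U.U ^ (l + 1)) (S j p : Q) * B.q (B.inv s) = (U.U ^ l) (p : Q) := by
    rw [← hSj p hDp hTp, B.q_inv, mul_inv_cancel_right]
  have hc2 : B.fin ((U.U ^ (l + 1)) (S j p : Q)) [B.inv s, U.up ((U.U ^ l) (p : Q))] = X2.p₀ := by
    show (U.U ^ (l + 1)) (S j p : Q) * B.q (B.inv s) * B.q (U.up ((U.U ^ l) (p : Q))) = X2.p₀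
    rw [e2, ← U.hU, h2p, U.U_pow_succ']
  have hsrc2 : src B ((U.U ^ (l + 1)) (S j p : Q)) [B.inv s, U.up ((U.U ^ l) (p : Q))] =
      [(U.U ^ (l + 1)) (S j p : Q), (U.U ^ l) (p : Q)] := by
    show [(U.U ^ (l + 1)) (S j p : Q), (U.U ^ (l + 1)) (S j p : Q) * B.q (B.inv s)] = _
    rw [e2]
  set X3 := (X2.cross _ _ hr2 hc2).swap with hX3
  have h3L : X3.L₁ = im (U.U ^ (l + 1)) L := h2L
  have h3p : X3.p₀ = (U.U ^ (l + 1)) (v : Q) := h2q
  have h3q : X3.p₁ = (U.U ^ (l + 1)) (S j p : Q) := rfl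
  have h3R : X3.R = X.R + (im (U.U ^ l) L).val + {(U.U ^ (l + 1)) (S j p : Q)} := by
    rw [hX3, HW.swap_R, HW.cross_R, hsrc2, ← h2R]
    show X2.R + ({(U.U ^ (l + 1)) (S j p : Q)} + {(U.U ^ l) (p : Q)}) = _
    abel
  have h3T : TkL U L D X3.u₀ X3.u₁ X3.f X3.path (l + 1) :=
    tkL_cross X2 (l + 1) h2T _ _ hr2 hc2 (S j p) p hDSp hDp rfl h2p
  have hr3 : (U.U ^ (l + 1)) (R (l + 1) v : Q) ∈ X3.tok₁ := by
    rw [HW.mem_tok₁, h3L, h3p, h3q]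
    exact ⟨Upow_mem U (l + 1) _, fun h => RL_ne hR (l + 1) v hDv (Subtype.ext (Upow_inj U (l + 1) h)),
      (neT hTSp hTRv (l + 1)).symm⟩
  have hc3 : B.fin ((U.U ^ (l + 1)) (R (l + 1) v : Q)) [B.inv (ρ (l + 1) v)] = X3.p₀ := by
    show (U.U ^ (l + 1)) (R (l + 1) v : Q) * B.q (B.inv (ρ (l + 1) v)) = X3.p₀
    rw [h3p, B.q_inv, ← hR (l + 1) v hDv, mul_inv_cancel_right]
  set X4 := X3.cross _ _ hr3 hc3 with hX4
  have h4L : X4.L₁ = im (U.U ^ (l + 1)) L := h3L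
  have h4p : X4.p₀ = (U.U ^ (l + 1)) (R (l + 1) v : Q) := rfl
  have h4q : X4.p₁ = (U.U ^ (l + 1)) (S j p : Q) := h3q
  have h4R : X4.R = X3.R + {(U.U ^ (l + 1)) (R (l + 1) v : Q)} := by
    rw [hX4, HW.cross_R]; rfl
  have h4T : TkL U L D X4.u₀ X4.u₁ X4.f X4.path (l + 1) :=
    tkL_cross X3 (l + 1) h3T _ _ hr3 hc3 (R (l + 1) v) v hDRv hDv rfl h3p
  have h4t := X4.L₁_val
  rw [h4p, h4q, h4L] at h4t
  refine ⟨adv X4 U, rfl, ?_, rfl, rfl, rfl, ?_, ?_, ?_, tkL_adv X4 (l + 1) h4T⟩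
  · show im U.U X4.L₁ = _
    rw [h4L, ← im_mul, ← pow_succ']
  · show U.U X4.p₀ = _
    rw [h4p]
    exact (U.U_pow_succ' (l + 1) _).symm
  · show U.U X4.p₁ = _
    rw [h4q]
    exact (U.U_pow_succ' (l + 1) _).symm
  · rw [adv_R, h4R, h3R, h4t]
    abel

include hS hR hDS hDR hTS hTR in
/-- The hole run up to the level `e (j + 1)`. -/
theorem runM (he : 2 ≤ e) (x : L) (hx : D x) (hT : ¬ T x) (j : ℕ)
    (hn : ∀ i, 1 ≤ i → i < j + 1 → R (e * i) (stM S R e x i).2 ≠ S i (stM S R e x i).1) :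
    ∃ X : HW B, X.L₀ = L ∧ X.L₁ = im (U.U ^ (e * (j + 1))) L ∧ X.u₀ = x ∧ X.u₁ = S 0 x ∧
      X.cup = [s, B.inv (U.up (S 0 x : Q))] ∧
      X.p₀ = (U.U ^ (e * (j + 1))) ((stM S R e x (j + 1)).1 : Q) ∧
      X.p₁ = (U.U ^ (e * (j + 1))) ((stM S R e x (j + 1)).2 : Q) ∧
      X.R = ∑ i ∈ range (e * (j + 1)), (im (U.U ^ i) L).val ∧
      TkL U L D X.u₀ X.u₁ X.f X.path (e * (j + 1)) := by
  have neT : ∀ {y y' : L}, T y → ¬ T y' → ∀ n : ℕ, (U.U ^ n) (y : Q) ≠ (U.U ^ n) (y' : Q) := by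
    intro y y' h1 h2 n h
    have := Subtype.ext (Upow_inj U n h)
    exact h2 (this ▸ h1)
  induction j with
  | zero =>
    have hTS0 : T (S 0 x) := (hTS 0 x hx).2 hT
    have hne : (x : Q) ≠ (S 0 x : Q) := by
      have := neT hTS0 hT 0
      rw [pow_zero] at this
      exact this.symm
    have e1 : (x : Q) * B.q s = U.U (S 0 x : Q) := by
      have := hS 0 x hx hT
      rw [mul_zero, zero_add, pow_zero, pow_one] at this
      exact this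
    have hf : B.fin (x : Q) [s, B.inv (U.up (S 0 x : Q))] = (S 0 x : Q) := by
      show (x : Q) * B.q s * B.q (B.inv (U.up (S 0 x : Q))) = _
      rw [e1, U.hU, B.q_inv, mul_inv_cancel_right]
    set X0 : HW B := HW.start L (x : Q) (S 0 x : Q) [s, B.inv (U.up (S 0 x : Q))] x.2 (S 0 x).2 hne hf with hX0
    have h0R : X0.R = {(x : Q)} + {U.U (S 0 x : Q)} + {(S 0 x : Q)} := by
      rw [hX0, HW.start_R]
      show (((x : Q) :: ((x : Q) * B.q s) ::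
        [(x : Q) * B.q s * B.q (B.inv (U.up (S 0 x : Q)))] : List Q) : Multiset Q) = _
      have : (x : Q) * B.q s * B.q (B.inv (U.up (S 0 x : Q))) = (S 0 x : Q) := hf
      rw [this, e1]
      rfl
    have h0t := X0.L₁_val
    have h0L : X0.L₁ = L := rfl
    have h0p : X0.p₀ = x := rfl
    have h0q : X0.p₁ = S 0 x := rfl
    rw [h0L, h0p, h0q] at h0t
    set X1 := adv X0 U with hX1
    have h1L : X1.L₁ = im (U.U ^ 1) L := by
      show im U.U X0.L₁ = _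
      rw [h0L, pow_one]
    have h1p : X1.p₀ = (U.U ^ 1) (x : Q) := by rw [pow_one]; rfl
    have h1q : X1.p₁ = (U.U ^ 1) (S 0 x : Q) := by rw [pow_one]; rfl
    have h1R : X1.R = L.val + {(U.U ^ 1) (S 0 x : Q)} := by
      rw [hX1, adv_R, h0R, h0t, pow_one]
      abel
    have h1T : TkL U L D X1.u₀ X1.u₁ X1.f X1.path 1 := tkL_adv X0 0 (tkL_start _ _)
    have hTR1 : ¬ T (R 1 x) := fun h => hT ((hTR 1 x).1 h)
    have hr : (U.U ^ 1) (R 1 x : Q) ∈ X1.tok₁ := by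
      rw [HW.mem_tok₁, h1L, h1p, h1q]
      exact ⟨Upow_mem U 1 _, fun h => RL_ne hR 1 x hx (Subtype.ext (Upow_inj U 1 h)), (neT hTS0 hTR1 1).symm⟩
    have hc : B.fin ((U.U ^ 1) (R 1 x : Q)) [B.inv (ρ 1 x)] = X1.p₀ := by
      show (U.U ^ 1) (R 1 x : Q) * B.q (B.inv (ρ 1 x)) = X1.p₀
      rw [h1p, B.q_inv, ← hR 1 x hx, mul_inv_cancel_right]
    set X2 := X1.cross _ _ hr hc with hX2
    have h2L : X2.L₁ = im (U.U ^ 1) L := h1L
    have h2p : X2.p₀ = (U.U ^ 1) (R 1 x : Q) := rfl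
    have h2q : X2.p₁ = (U.U ^ 1) (S 0 x : Q) := h1q
    have h2R : X2.R = X1.R + {(U.U ^ 1) (R 1 x : Q)} := by
      rw [hX2, HW.cross_R]; rfl
    have h2T : TkL U L D X2.u₀ X2.u₁ X2.f X2.path 1 :=
      tkL_cross X1 1 h1T _ _ hr hc (R 1 x) x ((hDR 1 x).2 hx) hx rfl h1p
    have h2t := X2.L₁_val
    rw [h2p, h2q, h2L] at h2t
    set X3 := adv X2 U with hX3
    have h3L : X3.L₁ = im (U.U ^ 2) L := by
      show im U.U X2.L₁ = _
      rw [h2L, ← im_mul, ← pow_succ']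
    have h3p : X3.p₀ = (U.U ^ 2) (R 1 x : Q) := by
      show U.U X2.p₀ = _
      rw [h2p]
      exact (U.U_pow_succ' 1 _).symm
    have h3q : X3.p₁ = (U.U ^ 2) (S 0 x : Q) := by
      show U.U X2.p₁ = _
      rw [h2q]
      exact (U.U_pow_succ' 1 _).symm
    have h3R : X3.R = ∑ i ∈ range 2, (im (U.U ^ i) L).val := by
      rw [hX3, adv_R, h2R, h1R, sum_range_succ, range_one, sum_singleton, pow_zero, im_one, h2t]
      abel
    obtain ⟨Y, a1, a2, a3, a4, a5, a6, a7, a8, a9⟩ := runO hR hDR hTR X3 2 _ _ ((hDR 1 x).2 hx) ((hDS 0 x).2 hx)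
      hTR1 hTS0 h3L h3p h3q (tkL_adv X2 1 h2T) (e - 2)
    have h2e : 2 + (e - 2) = e * (0 + 1) := by omega
    rw [h2e] at a2 a6 a7 a9
    refine ⟨Y, a1, a2, a3, a4, a5, ?_, ?_, ?_, a9⟩
    · rw [a6, zero_add, stM_one]
    · rw [a7, zero_add, stM_one]
    · rw [a8, h3R, ← sum_range_add (fun i => (im (U.U ^ i) L).val) 2 (e - 2), h2e]
  | succ j ih =>
    obtain ⟨X, a1, a2, a3, a4, a5, a6, a7, a8, a9⟩ := ih (fun i h1 hi => hn i h1 (by omega))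
    obtain ⟨i1, i2, i3, i4⟩ := inv_stM hDS hDR hTS hTR (e := e) x hx hT (j + 1)
    obtain ⟨Y, b1, b2, b3, b4, b5, b6, b7, b8, b9⟩ := runM_phi hS hR hDS hDR hTS hTR X (j + 1) _ _ i1 i2 i3 i4
      a2 a6 a7 (hn (j + 1) (by omega) (by omega)) a9
    have dS : ∀ (y : L), D ((S (j + 1)).symm y) ↔ D y := by
      intro y
      rw [← hDS (j + 1), Equiv.apply_symm_apply]
    have tS : ∀ (y : L), D y → (¬ T ((S (j + 1)).symm y) ↔ T y) := by
      intro y hy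
      rw [← hTS (j + 1) _ ((dS y).2 hy), Equiv.apply_symm_apply]
    have c1 : D (R (e * (j + 1) + 1) ((S (j + 1)).symm (R (e * (j + 1)) (stM S R e x (j + 1)).2))) :=
      (hDR _ _).2 ((dS _).2 ((hDR _ _).2 i2))
    have c2 : D (S (j + 1) (stM S R e x (j + 1)).1) := (hDS _ _).2 i1
    have c3 : ¬ T (R (e * (j + 1) + 1) ((S (j + 1)).symm (R (e * (j + 1)) (stM S R e x (j + 1)).2))) :=
      fun h => (tS _ ((hDR _ _).2 i2)).2 ((hTR _ _).2 i4) ((hTR _ _).1 h)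
    have c4 : T (S (j + 1) (stM S R e x (j + 1)).1) := (hTS _ _ i1).2 i3
    obtain ⟨Z, d1, d2, d3, d4, d5, d6, d7, d8, d9⟩ := runO hR hDR hTR Y (e * (j + 1) + 2) _ _ c1 c2 c3 c4 b2 b6 b7
      b9 (e - 2)
    have h2e : e * (j + 1) + 2 + (e - 2) = e * (j + 1 + 1) := by
      rw [mul_add e (j + 1) 1, mul_one]
      omega
    rw [h2e] at d2 d6 d7 d9
    refine ⟨Z, d1.trans (b1.trans a1), d2, d3.trans (b3.trans a3), d4.trans (b4.trans a4), d5.trans (b5.trans a5),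
      d6, d7, ?_, d9⟩
    rw [d8, b8, a8, ← h2e, sum_range_add (fun i => (im (U.U ^ i) L).val) (e * (j + 1) + 2) (e - 2),
      sum_range_succ, sum_range_succ]

include hS hR hDS hDR hTS hTR in
/-- T-gadget of height 1 with a rotation, marked levels `e j`. -/
theorem TLM (he : 2 ≤ e) (x : L) (hx : D x) (hT : ¬ T x) (k : ℕ) (hk : 1 ≤ k)
    (h1 : R (e * k) (stM S R e x k).2 = S k (stM S R e x k).1)
    (h2 : ∀ i, 1 ≤ i → i < k → R (e * i) (stM S R e x i).2 ≠ S i (stM S R e x i).1) :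
    ∃ X : TW B, X.L₀ = L ∧ X.L₁ = im (U.U ^ (e * k + 1)) L ∧ X.u₀ = x ∧ X.u₁ = S 0 x ∧
      X.cup = [s, B.inv (U.up (S 0 x : Q))] ∧
      X.w₀ = (U.U ^ (e * k + 1)) ((stM S R e x k).1 : Q) ∧
      X.w₁ = (U.U ^ (e * k + 1)) (S k (stM S R e x k).1 : Q) ∧
      X.cap = [B.inv (U.up ((U.U ^ (e * k)) ((stM S R e x k).1 : Q))), s] ∧
      X.R = ∑ i ∈ range (e * k + 1), (im (U.U ^ i) L).val ∧
      TkL U L D X.u₀ X.u₁ X.f X.path (e * k + 1) := by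
  have neT : ∀ {y y' : L}, T y → ¬ T y' → ∀ n : ℕ, (U.U ^ n) (y : Q) ≠ (U.U ^ n) (y' : Q) := by
    intro y y' h1 h2 n h
    have := Subtype.ext (Upow_inj U n h)
    exact h2 (this ▸ h1)
  obtain ⟨n, rfl⟩ := Nat.exists_eq_succ_of_ne_zero (show k ≠ 0 by omega)
  obtain ⟨X, a1, a2, a3, a4, a5, a6, a7, a8, a9⟩ := runM hS hR hDS hDR hTS hTR he x hx hT n h2
  obtain ⟨i1, i2, i3, i4⟩ := inv_stM hDS hDR hTS hTR (e := e) x hx hT (n + 1)
  have hS1 := hS (n + 1)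
  generalize hp : (stM S R e x (n + 1)).1 = p at *
  generalize hq : (stM S R e x (n + 1)).2 = q at *
  generalize hle : e * (n + 1) = l at *
  set X0 := X.swap with hX0
  have h0p : X0.p₀ = (U.U ^ l) (q : Q) := a7
  have h0q : X0.p₁ = (U.U ^ l) (p : Q) := a6
  have h0L : X0.L₁ = im (U.U ^ l) L := a2
  have hTu : T (S (n + 1) p) := (hTS (n + 1) p i1).2 i3
  have hr : (U.U ^ l) (S (n + 1) p : Q) ∈ X0.tok₁ := by
    rw [HW.mem_tok₁, h0L, h0p, h0q]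
    refine ⟨Upow_mem U l _, fun h => RL_ne hR l q i2 (Subtype.ext (Upow_inj U l ?_)), neT hTu i3 l⟩
    rw [h1, h]
  have hc : B.fin ((U.U ^ l) (S (n + 1) p : Q)) [B.inv (ρ l q)] = X0.p₀ := by
    show (U.U ^ l) (S (n + 1) p : Q) * B.q (B.inv (ρ l q)) = X0.p₀
    rw [h0p, B.q_inv, ← h1, ← hR l q i2, mul_inv_cancel_right]
  set X1 := X0.cross _ _ hr hc with hX1
  have h1L : X1.L₁ = im (U.U ^ l) L := a2
  have h1p : X1.p₀ = (U.U ^ l) (S (n + 1) p : Q) := rfl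
  have h1q : X1.p₁ = (U.U ^ l) (p : Q) := a6
  have h1R : X1.R = X.R + {(U.U ^ l) (S (n + 1) p : Q)} := by
    rw [hX1, HW.cross_R, hX0, HW.swap_R]; rfl
  have h1T : TkL U L D X1.u₀ X1.u₁ X1.f X1.path l :=
    tkL_cross X0 l a9 _ _ hr hc (S (n + 1) p) q ((hDS (n + 1) p).2 i1) i2 rfl h0p
  have h1t := X1.L₁_val
  rw [h1p, h1q, h1L] at h1t
  set X2 := (adv X1 U).swap with hX2
  have h2L : X2.L₁ = im (U.U ^ (l + 1)) L := by
    show im U.U X1.L₁ = _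
    rw [h1L, ← im_mul, ← pow_succ']
  have h2p : X2.p₀ = (U.U ^ (l + 1)) (p : Q) := by
    show U.U X1.p₁ = _
    rw [h1q, U.U_pow_succ']
  have h2q : X2.p₁ = (U.U ^ (l + 1)) (S (n + 1) p : Q) := by
    show U.U X1.p₀ = _
    rw [h1p, U.U_pow_succ']
  have h2R : X2.R + {(U.U ^ l) (p : Q)} = X.R + (im (U.U ^ l) L).val := by
    rw [hX2, HW.swap_R, adv_R, h1R, h1t]
    abel
  have e3 : (U.U ^ (l + 1)) (p : Q) * B.q (B.inv (U.up ((U.U ^ l) (p : Q)))) = (U.U ^ l) (p : Q) := by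
    rw [U.U_pow_succ', U.hU, B.q_inv, mul_inv_cancel_right]
  have hcl : B.fin X2.p₀ [B.inv (U.up ((U.U ^ l) (p : Q))), s] = X2.p₁ := by
    show X2.p₀ * B.q (B.inv (U.up ((U.U ^ l) (p : Q)))) * B.q s = X2.p₁
    rw [h2p, h2q, e3, hS1 p i1 i3]
  refine ⟨X2.close _ hcl, a1, h2L, a3, a4, a5, h2p, h2q, rfl, ?_, tkL_adv X1 l h1T⟩
  rw [HW.close_R, sum_range_succ, ← a8, ← h2R]
  congr 1
  show (([X2.p₀ * B.q (B.inv (U.up ((U.U ^ l) (p : Q))))] : List Q) : Multiset Q) = _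
  rw [h2p, e3]
  rfl

include hDS hDR hTS hTR in
/-- For periodic rungs the holes meet. -/
theorem meetM (he : 2 ≤ e) (hSp : ∀ j, S (j + 1) = S j) (hRp : ∀ l, R (l + e) = R l) (x : L) :
    ∃ k, 1 ≤ k ∧ k ≤ (L.card ^ 2).factorial ∧ R (e * k) (stM S R e x k).2 = S k (stM S R e x k).1 := by
  classical
  have hcard : Nat.card (Equiv.Perm (L × L)) = (L.card ^ 2).factorial := by
    rw [Nat.card_perm, Nat.card_prod]
    simp [sq]
  have hS0 : ∀ j, S j = S 0 := by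
    intro j
    induction j with
    | zero => rfl
    | succ j ih => rw [hSp, ih]
  have hR0 : ∀ j i, R (e * j + i) = R i := by
    intro j i
    induction j with
    | zero => rw [mul_zero, zero_add]
    | succ j ih => rw [show e * (j + 1) + i = e * j + i + e by ring, hRp, ih]
  have hRO : ∀ j i n, RO R (e * j + i) n = RO R i n := by
    intro j i n
    induction j with
    | zero => rw [mul_zero, zero_add]
    | succ j ih => rw [show e * (j + 1) + i = e * j + i + e by ring, RO_per hRp, ih]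
  have hPh : ∀ j, PhM S R e j = PhM S R e 0 := by
    intro j
    refine Equiv.ext fun c => ?_
    show (RO R (e * j + 2) (e - 2) (R (e * j + 1) ((S j).symm (R (e * j) c.2))),
      RO R (e * j + 2) (e - 2) (S j c.1)) =
      (RO R (e * 0 + 2) (e - 2) (R (e * 0 + 1) ((S 0).symm (R (e * 0) c.2))), RO R (e * 0 + 2) (e - 2) (S 0 c.1))
    rw [hRO, hRO, hR0, hR0, hS0 j]
    have := hR0 j 0
    rw [add_zero] at this
    rw [this]
    simp
  have hst : ∀ j, stM S R e x j = ((PhM S R e 0) ^ j) (stM S R e x 0) := by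
    intro j
    induction j with
    | zero => rfl
    | succ j ih =>
      show PhM S R e j (stM S R e x j) = _
      rw [hPh, ih, pow_succ']
      rfl
  refine ⟨(L.card ^ 2).factorial, Nat.factorial_pos _, le_refl _, ?_⟩
  have h1 : (PhM S R e 0) ^ (L.card ^ 2).factorial = 1 := by
    rw [← hcard]
    exact pow_card_eq_one'
  have := hR0 (L.card ^ 2).factorial 0
  rw [add_zero] at this
  rw [hst, h1, hS0, this]
  show R 0 ((R 0).symm (S 0 x)) = S 0 x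
  simp

include hS hR hDS hDR hTS hTR in
/-- T-gadget of height 1 with a rotation, marked levels `e j`, periodic rungs. -/
theorem TLMp (he : 2 ≤ e) (hSp : ∀ j, S (j + 1) = S j) (hRp : ∀ l, R (l + e) = R l) (x : L) (hx : D x)
    (hT : ¬ T x) :
    ∃ (k : ℕ) (y : L) (X : TW B), 1 ≤ k ∧ k ≤ (L.card ^ 2).factorial ∧ D y ∧ ¬ T y ∧ y = (stM S R e x k).1 ∧
      R (e * k) (stM S R e x k).2 = S k y ∧
      (∀ i, 1 ≤ i → i < k → R (e * i) (stM S R e x i).2 ≠ S i (stM S R e x i).1) ∧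
      X.L₀ = L ∧ X.L₁ = im (U.U ^ (e * k + 1)) L ∧ X.u₀ = x ∧ X.u₁ = S 0 x ∧
      X.cup = [s, B.inv (U.up (S 0 x : Q))] ∧
      X.w₀ = (U.U ^ (e * k + 1)) (y : Q) ∧ X.w₁ = (U.U ^ (e * k + 1)) (S k y : Q) ∧
      X.cap = [B.inv (U.up ((U.U ^ (e * k)) (y : Q))), s] ∧
      X.R = ∑ i ∈ range (e * k + 1), (im (U.U ^ i) L).val ∧
      TkL U L D X.u₀ X.u₁ X.f X.path (e * k + 1) := by
  classical
  obtain ⟨K, hK1, hK2, hK3⟩ := meetM hDS hDR hTS hTR he hSp hRp x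
  have hex : ∃ k : ℕ, 1 ≤ k ∧ R (e * k) (stM S R e x k).2 = S k (stM S R e x k).1 := ⟨K, hK1, hK3⟩
  have h1 := Nat.find_spec hex
  have h2 : ∀ i, 1 ≤ i → i < Nat.find hex → R (e * i) (stM S R e x i).2 ≠ S i (stM S R e x i).1 := by
    intro i hi hi' h
    exact Nat.find_min hex hi' ⟨hi, h⟩
  obtain ⟨X, a⟩ := TLM hS hR hDS hDR hTS hTR he x hx hT _ h1.1 h1.2 h2
  obtain ⟨i1, i2, i3, i4⟩ := inv_stM hDS hDR hTS hTR (e := e) x hx hT (Nat.find hex)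
  exact ⟨_, _, X, h1.1, (Nat.find_min' hex ⟨hK1, hK3⟩).trans hK2, i1, i3, rfl, h1.2, h2, a⟩

end run

end Pool.Agent.Lib.MP_688fd0_co.SQ3
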